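import Mathlib

set_option autoImplicit false

namespace Run7.h475

open MulOpposite

universe u v w

/-- A positive primitive formula in one free variable `x` over the ring `R` (for right modules):
`∃ y₁ … y_k, ⋀_j  x a_j + ∑ᵢ yᵢ B_{ij} = 0`. -/
structure PP (R : Type u) where
  /-- number of bound variables -/
  k : ℕ
  /-- number of equations -/
  m : ℕ
  /-- coefficients of the free variable -/
  a : Fin m → R
  /-- coefficients of the bound variables -/
  B : Fin k → Fin m → R

/-- The element `x` of the right `R`-module `M` satisfies the pp formula `φ`. A right `R`-module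
is a module over `Rᵐᵒᵖ`; `op r • x` is the product `x r`. -/
def PP.Sat {R : Type u} [Ring R] (φ : PP R) (M : Type u) [AddCommGroup M] [Module Rᵐᵒᵖ M]
    (x : M) : Prop :=
  ∃ y : Fin φ.k → M, ∀ j, op (φ.a j) • x + ∑ i, op (φ.B i j) • y i = 0

/-- The lattice of pp formulas in one free variable for right `R`-modules: pp formulas modulo
equivalence in all right `R`-modules. An element is the family `M ↦ φ(M)` of the subgroups defined
by one pp formula `φ` in all right modules `M`; the order is `φ(M) ⊆ ψ(M)` for all `M`. -/
def PPLat (R : Type u) [Ring R] : Type (u + 1) :=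
  {F : ∀ M : ModuleCat.{u} Rᵐᵒᵖ, AddSubgroup M //
    ∃ φ : PP R, ∀ (M : ModuleCat.{u} Rᵐᵒᵖ) (x : M), x ∈ F M ↔ φ.Sat M x}

instance (R : Type u) [Ring R] : PartialOrder (PPLat R) := Subtype.partialOrder _

/-- One step of the m-dimension procedure. If `r` is the relation of being identified so far, then
`FinLen r a b` says that `[a, b]` has finite length modulo `r`: there is a finite chain
`a = c₀ ≤ c₁ ≤ … ≤ cₙ = b` such that every `x` with `c i ≤ x ≤ c (i + 1)` is identified with `c i`
or with `c (i + 1)`. -/
def FinLen {L : Type w} [PartialOrder L] (r : L → L → Prop) (a b : L) : Prop :=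
  ∃ (n : ℕ) (c : ℕ → L), c 0 = a ∧ c n = b ∧ ∀ i < n, c i ≤ c (i + 1) ∧
    ∀ x, c i ≤ x → x ≤ c (i + 1) → r (c i) x ∨ r x (c (i + 1))

/-- `Collapsed α a b`: the interval `[a, b]` of the ordered set `L` is collapsed after `α` steps of
the m-dimension procedure. After `0` steps this means `a = b`; after `β + 1` steps, that `[a, b]`
has finite length modulo what is collapsed after `β` steps; for a limit ordinal `γ` one takes the
union over all `β < γ`. -/
noncomputable def Collapsed {L : Type w} [PartialOrder L] (α : Ordinal.{v}) : L → L → Prop :=
  Ordinal.limitRecOn (motive := fun _ => L → L → Prop) α (fun a b => a = b)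
    (fun _ r => FinLen r) (fun γ _ r a b => ∃ (β : Ordinal.{v}) (h : β < γ), r β h a b)

/-- The Krull–Gabriel dimension of `R`, that is the m-dimension of the lattice of pp formulas in
one free variable for right `R`-modules, is undefined (`KG(R) = ∞`): no ordinal number of steps
collapses the whole lattice. -/
def KGUndefined (R : Type u) [Ring R] : Prop :=
  ∀ (α : Ordinal.{u + 1}) (a b : PPLat R), IsBot a → IsTop b → ¬ Collapsed α a b

end Run7.h475
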