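import Mathlib

set_option autoImplicit false

namespace Run7.h475

/-- the `m`-th power of the word `w` -/
def power {α : Type*} (w : List α) (m : ℕ) : List α := (List.replicate m w).flatten

/-- `w` is a primitive word: it is nonempty and differs from all its proper rotations
(equivalently, it is not a proper power) -/
def IsPrimitive {α : Type*} (w : List α) : Prop :=
  w ≠ [] ∧ ∀ r, 0 < r → r < w.length → w.rotate r ≠ w

/-- no factor of `w` belongs to `Bad` -/
def Avoid {α : Type*} (Bad : Set (List α)) (w : List α) : Prop := ∀ l ∈ Bad, ¬ l <:+: w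

section

variable {α : Type*}

theorem power_zero (w : List α) : power w 0 = [] := by simp [power]

theorem power_succ (w : List α) (m : ℕ) : power w (m + 1) = w ++ power w m := by
  simp [power, List.replicate_succ]

theorem power_rot (p q : List α) (m : ℕ) : power (p ++ q) (m + 1) = p ++ power (q ++ p) m ++ q := by
  induction m with
  | zero => simp [power_succ, power_zero]
  | succ m ih =>
    rw [power_succ, ih, power_succ]
    simp [List.append_assoc]

theorem length_power (w : List α) (m : ℕ) : (power w m).length = m * w.length := by
  induction m with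
  | zero => simp [power_zero]
  | succ m ih => rw [power_succ, List.length_append, ih]; ring

theorem Avoid.of_factor {Bad : Set (List α)} {w w' : List α} (h : Avoid Bad w) (h' : w' <:+: w) :
    Avoid Bad w' := fun l hl hl' => h l hl (hl'.trans h')

/-- a short factor of `A ++ s ++ Y` is a factor of `A ++ s` or of `s ++ Y` -/
theorem infix_split {A s Y l : List α} (hl : l.length ≤ s.length) (h : l <:+: A ++ (s ++ Y)) :
    l <:+: A ++ s ∨ l <:+: s ++ Y := by
  obtain ⟨p, q, hpq⟩ := h
  rcases Nat.lt_or_ge p.length A.length with hp | hp
  · left
    have h1 : p ++ l <+: A ++ s := by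
      apply List.prefix_of_prefix_length_le (l₃ := A ++ (s ++ Y))
      · exact ⟨q, hpq⟩
      · exact ⟨Y, by simp⟩
      · simp; omega
    exact (List.infix_append' p l []).trans (by simpa using h1.isInfix) |>.trans (List.infix_refl _)
  · right
    -- p = A ++ p'
    have h1 : A <+: p := by
      apply List.prefix_of_prefix_length_le (l₃ := A ++ (s ++ Y))
      · exact ⟨s ++ Y, rfl⟩
      · exact ⟨l ++ q, by rw [← hpq]; simp⟩
      · exact hp
    obtain ⟨p', rfl⟩ := h1
    refine ⟨p', q, ?_⟩
    simp only [List.append_assoc] at hpq ⊢
    exact List.append_cancel_left hpq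

theorem exists_free_pair [Finite α] (Bad : Set (List α)) (N : ℕ)
    (hN : ∀ l ∈ Bad, l.length ≤ N)
    (hinf : {w : List α | IsPrimitive w ∧ ∀ m, Avoid Bad (power w m)}.Infinite) :
    ∃ u v : List α, u ++ v ≠ v ++ u ∧
      ∀ x : List Bool, Avoid Bad (x.flatMap fun b => cond b u v) := by
  classical
  haveI := Fintype.ofFinite α
  -- a long band
  obtain ⟨w, ⟨hprim, hpow⟩, hlen⟩ : ∃ w ∈ {w : List α | IsPrimitive w ∧ ∀ m, Avoid Bad (power w m)},
      Fintype.card α ^ N < w.length := by
    by_contra hcon
    push Not at hcon
    exact hinf ((List.finite_length_le α (Fintype.card α ^ N)).subset hcon)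
  set n := w.length with hn
  have hn0 : 0 < n := lt_of_le_of_lt (Nat.zero_le _) hlen
  let F : Fin n → List.Vector α N := fun i =>
    ⟨(power (w.rotate i) (N + 1)).take N, by
      rw [List.length_take, length_power, List.length_rotate, ← hn]
      have : N ≤ (N + 1) * n := by nlinarith
      omega⟩
  obtain ⟨i, j, hij, hF⟩ : ∃ i j : Fin n, i < j ∧ F i = F j := by
    obtain ⟨i, j, hne, h⟩ := Fintype.exists_ne_map_eq_of_card_lt F (by
      rw [card_vector, Fintype.card_fin]; exact hlen)
    rcases lt_or_gt_of_ne hne with h' | h'
    · exact ⟨i, j, h', h⟩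
    · exact ⟨j, i, h', h.symm⟩
  have hij' : (i : ℕ) < j := hij
  set w1 := w.rotate i with hw1
  have hlen1 : w1.length = n := by rw [hw1, List.length_rotate]
  set r := (j : ℕ) - i with hr
  have hr0 : 0 < r := by omega
  have hrn : r < n := by have := j.2; omega
  set u := w1.take r with hu
  set v := w1.drop r with hv
  have huv : w1 = u ++ v := (List.take_append_drop r w1).symm
  have hw2 : w.rotate j = v ++ u := by
    have e1 : w.rotate j = w1.rotate r := by
      rw [hw1, List.rotate_rotate]; congr 1; omega
    rw [e1, List.rotate_eq_drop_append_take (by omega)]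
  -- the common factor
  set s := (power w1 (N + 1)).take N with hs
  have hs2 : s = (power (v ++ u) (N + 1)).take N := by
    have := congrArg Subtype.val hF
    simp only [F] at this
    rw [hw2] at this
    exact this
  have hslen : s.length = N := by
    rw [hs, List.length_take, length_power, hlen1]
    have : N ≤ (N + 1) * n := by nlinarith
    omega
  have hs1 : s = (power (u ++ v) (N + 1)).take N := by rw [hs, huv]
  have hpre1 : s <+: power (u ++ v) (N + 1) := by rw [hs1]; exact List.take_prefix _ _
  have hpre2 : s <+: power (v ++ u) (N + 1) := by rw [hs2]; exact List.take_prefix _ _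
  -- powers of `u ++ v` and `v ++ u` avoid `Bad`
  have hav1 : ∀ m, Avoid Bad (power (u ++ v) m) := by
    intro m
    have e1 : w.rotate i = w.drop i ++ w.take i :=
      List.rotate_eq_drop_append_take (by have := i.2; omega)
    have e2 : power w (m + 1) = w.take i ++ power w1 m ++ w.drop i := by
      have := power_rot (w.take i) (w.drop i) m
      rw [List.take_append_drop, ← e1] at this
      exact this
    rw [← huv]
    exact (hpow (m + 1)).of_factor ⟨w.take i, w.drop i, e2.symm⟩
  have hav2 : ∀ m, Avoid Bad (power (v ++ u) m) := by
    intro m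
    exact (hav1 (m + 1)).of_factor ⟨u, v, (power_rot u v m).symm⟩
  -- `u ++ s` and `v ++ s`
  have hus : u ++ s <+: power (u ++ v) (N + 1 + 1) := by
    rw [power_rot]
    obtain ⟨t, ht⟩ := hpre2
    rw [← ht]
    exact ⟨t ++ v, by simp⟩
  have hvs : v ++ s <+: power (v ++ u) (N + 1 + 1) := by
    rw [power_rot]
    obtain ⟨t, ht⟩ := hpre1
    rw [← ht]
    exact ⟨t ++ u, by simp⟩
  have hext : ∀ (z : List α) (m : ℕ), power z m <+: power z (m + 1) := by
    intro z m
    refine ⟨z, ?_⟩
    have := power_rot z [] m
    simp only [List.append_nil, List.nil_append] at this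
    have h2 := power_rot [] z m
    simp only [List.append_nil, List.nil_append] at h2
    rw [h2]
  have hsu : s <+: u ++ s :=
    List.prefix_of_prefix_length_le (hpre1.trans (hext _ _)) hus (by simp)
  have hsv : s <+: v ++ s :=
    List.prefix_of_prefix_length_le (hpre2.trans (hext _ _)) hvs (by simp)
  refine ⟨u, v, ?_, ?_⟩
  · intro h
    have e1 : w1.rotate r = w1 := by
      rw [List.rotate_eq_drop_append_take (by omega), ← hu, ← hv, ← h, ← huv]
    have e2 : (w.rotate r).rotate i = w.rotate i := by
      rw [List.rotate_rotate, add_comm, ← List.rotate_rotate, ← hw1, e1]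
    have e3 : w.rotate r = w := List.rotate_injective _ e2
    exact hprim.2 r hr0 hrn e3
  · intro x
    have key : ∀ x : List Bool, Avoid Bad ((x.flatMap fun b => cond b u v) ++ s) ∧
        s <+: (x.flatMap fun b => cond b u v) ++ s := by
      intro x
      induction x with
      | nil =>
        simp only [List.flatMap_nil, List.nil_append]
        exact ⟨(hav1 (N + 1)).of_factor hpre1.isInfix, List.prefix_rfl⟩
      | cons b x ih =>
        obtain ⟨ih1, ih2⟩ := ih
        obtain ⟨Y, hY⟩ := ih2
        have hb1 : Avoid Bad (cond b u v ++ s) := by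
          cases b
          · exact (hav2 _).of_factor hvs.isInfix
          · exact (hav1 _).of_factor hus.isInfix
        have hb2 : s <+: cond b u v ++ s := by
          cases b
          · exact hsv
          · exact hsu
        have e : ((b :: x).flatMap fun b => cond b u v) ++ s = cond b u v ++ (s ++ Y) := by
          simp only [List.flatMap_cons, List.append_assoc]
          rw [hY]
        rw [e]
        constructor
        · intro l hl hcon
          rcases infix_split (by rw [hslen]; exact hN l hl) hcon with h | h
          · exact hb1 l hl h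
          · rw [hY] at h
            exact ih1 l hl h
        · exact hb2.trans ⟨Y, by simp⟩
    exact (key x).1.of_factor ⟨[], s, by simp⟩

end

end Run7.h475
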