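import Mathlib
import Pool.Agent.Run7.h475.KGDefs
import Pool.Agent.Run7.h475.Words

set_option autoImplicit false

namespace Run7.h475

universe u

/-- A finite quiver with special loops and zero relations. `A` is the set of ordinary arrows; a
vertex `v` with `special v` carries one further loop, the special loop `s_v`. Paths are written
from left to right. A list `[a₁, …, aₙ]` of ordinary arrows stands for the path
`a₁ s a₂ s … s aₙ` in which the special loop is inserted at every special vertex passed between
two consecutive arrows, and nothing is inserted at the other vertices. `Z` is the set of the zero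
relations. -/
structure ClanData where
  /-- vertices -/
  V : Type
  /-- ordinary arrows -/
  A : Type
  [fV : Fintype V]
  [fA : Fintype A]
  /-- starting vertex -/
  src : A → V
  /-- end vertex -/
  tgt : A → V
  /-- the vertices carrying a special loop -/
  special : V → Prop
  /-- zero relations -/
  Z : Set (List A)

namespace ClanData

variable (C : ClanData)

instance : Fintype C.V := C.fV
instance : Fintype C.A := C.fA

/-- The conditions on a clannish algebra (Crawley-Boevey): finitely many zero relations, each of
them a path with at least two ordinary arrows that begins and ends with an ordinary arrow; at each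
vertex at most two arrows start and at most two arrows end (special loops included); and for each
ordinary arrow `a` there is at most one arrow `b` with `a b` not a zero relation and at most one
arrow `c` with `c a` not a zero relation (special loops included, so that the product of two
ordinary arrows meeting at a special vertex is a zero relation, see `Rel.special_zero`). -/
structure IsClannish : Prop where
  finite_Z : C.Z.Finite
  length_Z : ∀ z ∈ C.Z, 2 ≤ z.length
  path_Z : ∀ z ∈ C.Z, z.IsChain fun a b => C.tgt a = C.src b
  out_le : ∀ v, {a | C.src a = v}.ncard ≤ 2
  out_le_special : ∀ v, C.special v → {a | C.src a = v}.ncard ≤ 1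
  in_le : ∀ v, {a | C.tgt a = v}.ncard ≤ 2
  in_le_special : ∀ v, C.special v → {a | C.tgt a = v}.ncard ≤ 1
  unique_next : ∀ a b b', ¬ C.special (C.tgt a) → C.tgt a = C.src b → C.tgt a = C.src b' →
    [a, b] ∉ C.Z → [a, b'] ∉ C.Z → b = b'
  unique_prev : ∀ a a' b, ¬ C.special (C.src b) → C.tgt a = C.src b → C.tgt a' = C.src b →
    [a, b] ∉ C.Z → [a', b] ∉ C.Z → a = a'

/-- generators of the algebra: trivial paths, ordinary arrows, special loops -/
inductive Gen
  | e (v : C.V)
  | arr (a : C.A)
  | loop (v : {v : C.V // C.special v})

variable (k : Type u) [Field k]

/-- the trivial path at `v` -/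
def fe (v : C.V) : FreeAlgebra k C.Gen := FreeAlgebra.ι k (Gen.e v)

/-- the arrow `a` -/
def fa (a : C.A) : FreeAlgebra k C.Gen := FreeAlgebra.ι k (Gen.arr a)

/-- the special loop at `v` -/
def fs (v : {v : C.V // C.special v}) : FreeAlgebra k C.Gen := FreeAlgebra.ι k (Gen.loop v)

open Classical in
/-- what is inserted between two consecutive arrows at the vertex `v`: the special loop if `v` is
special, the trivial path otherwise -/
noncomputable def mid (v : C.V) : FreeAlgebra k C.Gen :=
  if h : C.special v then C.fs k ⟨v, h⟩ else C.fe k v

/-- the path `a₁ s a₂ s … s aₙ` -/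
noncomputable def pathVal : List C.A → FreeAlgebra k C.Gen
  | [] => 1
  | a :: t => C.fa k a * (t.map fun b => C.mid k (C.src b) * C.fa k b).prod

/-- the defining relations of the algebra -/
inductive Rel : FreeAlgebra k C.Gen → FreeAlgebra k C.Gen → Prop
  | e_mul_e (v : C.V) : Rel (C.fe k v * C.fe k v) (C.fe k v)
  | e_mul_ne (v w : C.V) : v ≠ w → Rel (C.fe k v * C.fe k w) 0
  | e_sum : Rel (∑ v, C.fe k v) 1
  | src_mul (a : C.A) : Rel (C.fe k (C.src a) * C.fa k a) (C.fa k a)
  | mul_tgt (a : C.A) : Rel (C.fa k a * C.fe k (C.tgt a)) (C.fa k a)
  | e_mul_loop (v : {v : C.V // C.special v}) : Rel (C.fe k v * C.fs k v) (C.fs k v)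
  | loop_mul_e (v : {v : C.V // C.special v}) : Rel (C.fs k v * C.fe k v) (C.fs k v)
  | loop_idem (v : {v : C.V // C.special v}) : Rel (C.fs k v * C.fs k v) (C.fs k v)
  | special_zero (a b : C.A) : C.tgt a = C.src b → C.special (C.tgt a) →
      Rel (C.fa k a * C.fa k b) 0
  | zero (z : List C.A) : z ∈ C.Z → Rel (C.pathVal k z) 0

/-- The algebra `kQ / (Z, s² - s, a b)`: the path algebra of the quiver with the special loops,
modulo the zero relations in `Z`, the relations `s_v² = s_v` for the special loops, and `a b = 0`
for ordinary arrows `a`, `b` such that `a` ends and `b` starts at the same special vertex. -/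
abbrev Alg : Type u := RingQuot (C.Rel k)

/-- letters: `(a, true)` is the arrow `a`, `(a, false)` its formal inverse -/
abbrev Letter := C.A × Bool

variable {C}

/-- starting vertex of a letter -/
def start (l : C.Letter) : C.V := cond l.2 (C.src l.1) (C.tgt l.1)

/-- end vertex of a letter -/
def stop (l : C.Letter) : C.V := cond l.2 (C.tgt l.1) (C.src l.1)

/-- inverse letter -/
def linv (l : C.Letter) : C.Letter := (l.1, !l.2)

variable (C)

/-- The forbidden factors of words: two consecutive letters must be composable and must not be
inverse to each other unless they meet at a special vertex (where the special loop is inserted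
between them), and no zero relation nor its inverse may occur. -/
inductive Bad : List C.Letter → Prop
  | not_composable (x y : C.Letter) : stop x ≠ start y → Bad [x, y]
  | cancel (x : C.Letter) : ¬ C.special (stop x) → Bad [x, linv x]
  | relation (z : List C.A) : z ∈ C.Z → Bad (z.map fun a => (a, true))
  | relation_inv (z : List C.A) : z ∈ C.Z → Bad (z.reverse.map fun a => (a, false))

/-- `w` is a word: none of its factors is forbidden -/
def IsWord (w : List C.Letter) : Prop := ∀ l, C.Bad l → ¬ l <:+: w

/-- `w` is a band: `w` is primitive and all its powers are words -/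
def IsBand (w : List C.Letter) : Prop := IsPrimitive w ∧ ∀ m, C.IsWord (power w m)

end ClanData

end Run7.h475
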