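import Mathlib
import Pool.Agent.Run7.h475.ClanDefs

set_option autoImplicit false

namespace Run7.h475

universe u

namespace ClanData

/-- sides of arrows at their end points -/
structure Sides (C : ClanData) where
  σ : C.A → Bool
  τ : C.A → Bool
  src_inj : ∀ a b, C.src a = C.src b → σ a = σ b → a = b
  tgt_inj : ∀ a b, C.tgt a = C.tgt b → τ a = τ b → a = b
  zero : ∀ a b, C.tgt a = C.src b → ¬ C.special (C.tgt a) → τ a = σ b → [a, b] ∈ C.Z
  src_special : ∀ a, C.special (C.src a) → σ a = true
  tgt_special : ∀ a, C.special (C.tgt a) → τ a = true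

theorem exists_inj_bool {α : Type} [Finite α] (s : Set α) (h : s.ncard ≤ 2) :
    ∃ f : α → Bool, Set.InjOn f s := by
  classical
  by_cases hs : s.Subsingleton
  · exact ⟨fun _ => true, fun x hx y hy _ => hs hx hy⟩
  · obtain ⟨x, hx, y, hy, hxy⟩ := Set.not_subsingleton_iff.1 hs
    have hxy2 : ({x, y} : Set α).ncard = 2 := Set.ncard_pair hxy
    have : s = {x, y} := by
      symm
      apply Set.eq_of_subset_of_ncard_le
      · intro z hz
        rcases hz with rfl | hz
        · exact hx
        · rw [Set.mem_singleton_iff] at hz; rw [hz]; exact hy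
      · rw [hxy2]; exact h
      · exact s.toFinite
    refine ⟨fun z => decide (z = x), ?_⟩
    rw [this]
    intro z hz z' hz' h'
    simp only [Set.mem_insert_iff, Set.mem_singleton_iff] at hz hz'
    rcases hz with rfl | rfl <;> rcases hz' with rfl | rfl
    · rfl
    · simp at h'; exact h'.symm
    · simp at h'; exact h'
    · rfl

variable {C : ClanData}

theorem IsClannish.exists_sides_at (h : C.IsClannish) (v : C.V) :
    ∃ (σ τ : C.A → Bool), Set.InjOn σ {a | C.src a = v} ∧ Set.InjOn τ {a | C.tgt a = v} ∧
      (∀ a b, C.tgt a = v → C.src b = v → ¬ C.special v → τ a = σ b → [a, b] ∈ C.Z) ∧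
      (C.special v → ∀ a, σ a = true ∧ τ a = true) := by
  classical
  by_cases hv : C.special v
  · refine ⟨fun _ => true, fun _ => true, ?_, ?_, fun _ _ _ _ h' => absurd hv h',
      fun _ _ => ⟨rfl, rfl⟩⟩
    · intro a ha b hb _
      exact (Set.ncard_le_one (Set.toFinite _)).1 (h.out_le_special v hv) a ha b hb
    · intro a ha b hb _
      exact (Set.ncard_le_one (Set.toFinite _)).1 (h.in_le_special v hv) a ha b hb
  · obtain ⟨g, hg⟩ := exists_inj_bool _ (h.out_le v)
    obtain ⟨f, hf⟩ := exists_inj_bool _ (h.in_le v)
    by_cases hm : ∃ a b, C.tgt a = v ∧ C.src b = v ∧ [a, b] ∉ C.Z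
    · obtain ⟨a₀, b₀, ha₀, hb₀, hab⟩ := hm
      refine ⟨fun b => if b = b₀ then ! f a₀ else f a₀, f, ?_, hf, ?_, fun h' => absurd h' hv⟩
      · intro b hb b' hb' hbb
        by_cases h1 : b = b₀
        · by_cases h2 : b' = b₀
          · rw [h1, h2]
          · simp [h1, h2] at hbb
        · by_cases h2 : b' = b₀
          · simp [h1, h2] at hbb
          · by_contra h3
            have hsub : ({b₀, b, b'} : Set C.A) ⊆ {a | C.src a = v} := by
              intro z hz
              simp only [Set.mem_insert_iff, Set.mem_singleton_iff] at hz
              rcases hz with rfl | rfl | rfl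
              · exact hb₀
              · exact hb
              · exact hb'
            have h4 : ({b₀, b, b'} : Set C.A).ncard = 3 := by
              rw [Set.ncard_eq_three]
              exact ⟨b₀, b, b', fun e => h1 e.symm, fun e => h2 e.symm, h3, rfl⟩
            have := Set.ncard_le_ncard hsub (Set.toFinite _)
            have := h.out_le v
            omega
      · intro a b ha hb _ hs
        by_contra hZ
        by_cases h1 : b = b₀
        · subst h1
          have : a = a₀ := h.unique_prev a a₀ b (by rw [hb]; exact hv) (ha.trans hb.symm)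
            (ha₀.trans hb.symm) hZ hab
          subst this
          simp at hs
        · simp only [h1, if_false] at hs
          have : a = a₀ := hf ha ha₀ hs
          subst this
          exact h1 (h.unique_next a b b₀ (by rw [ha]; exact hv) (ha.trans hb.symm)
            (ha.trans hb₀.symm) hZ hab)
    · push Not at hm
      exact ⟨g, f, hg, hf, fun a b ha hb _ _ => hm a b ha hb, fun h' => absurd h' hv⟩

theorem IsClannish.exists_sides (h : C.IsClannish) : Nonempty C.Sides := by
  choose σ τ h1 h2 h3 h4 using h.exists_sides_at
  exact ⟨{
    σ := fun a => σ (C.src a) a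
    τ := fun a => τ (C.tgt a) a
    src_inj := fun a b hab hs => by
      refine h1 (C.src a) rfl hab.symm ?_
      rw [hs, hab]
    tgt_inj := fun a b hab hs => by
      refine h2 (C.tgt a) rfl hab.symm ?_
      rw [hs, hab]
    zero := fun a b hab hn hs => by
      refine h3 (C.tgt a) a b rfl hab.symm hn ?_
      rw [hs, hab]
    src_special := fun a ha => (h4 _ ha a).1
    tgt_special := fun a ha => (h4 _ ha a).2 }⟩

variable (S : C.Sides)

/-- the side at which a letter leaves its starting vertex -/
def startS (l : C.Letter) : Bool := cond l.2 (S.σ l.1) (S.τ l.1)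

/-- the side at which a letter enters its end vertex -/
def stopS (l : C.Letter) : Bool := cond l.2 (S.τ l.1) (S.σ l.1)

theorem start_linv (l : C.Letter) : start (linv l) = stop l := by
  rcases l with ⟨a, b⟩; cases b <;> rfl

theorem stop_linv (l : C.Letter) : stop (linv l) = start l := by
  rcases l with ⟨a, b⟩; cases b <;> rfl

theorem startS_linv (l : C.Letter) : startS S (linv l) = stopS S l := by
  rcases l with ⟨a, b⟩; cases b <;> rfl

theorem stopS_linv (l : C.Letter) : stopS S (linv l) = startS S l := by
  rcases l with ⟨a, b⟩; cases b <;> rfl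

theorem linv_linv (l : C.Letter) : linv (linv l) = l := by
  rcases l with ⟨a, b⟩; simp [linv]

theorem linv_snd (l : C.Letter) : (linv l).2 = !l.2 := rfl

theorem linv_ne (l : C.Letter) : linv l ≠ l := by
  rcases l with ⟨a, b⟩; cases b <;> simp [linv]

/-- same starting vertex and side -/
def SameStart (l l' : C.Letter) : Prop := start l = start l' ∧ startS S l = startS S l'

theorem SameStart.symm {l l' : C.Letter} (h : SameStart S l l') : SameStart S l' l :=
  ⟨h.1.symm, h.2.symm⟩

/-- a letter is determined by its start and its sign -/
theorem SameStart.eq {l l' : C.Letter} (h : SameStart S l l') (h2 : l.2 = l'.2) : l = l' := by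
  rcases l with ⟨a, b⟩; rcases l' with ⟨a', b'⟩
  obtain ⟨h1, h3⟩ := h
  simp only at h2
  subst h2
  cases b
  · simp only [start, startS, cond_false] at h1 h3
    rw [S.tgt_inj a a' h1 h3]
  · simp only [start, startS, cond_true] at h1 h3
    rw [S.src_inj a a' h1 h3]

/-- consecutive letters of a word -/
def Comp (l l' : C.Letter) : Prop :=
  stop l = start l' ∧ (¬ C.special (stop l) → stopS S l ≠ startS S l')

theorem startS_special {l : C.Letter} (h : C.special (start l)) : startS S l = true := by
  rcases l with ⟨a, b⟩
  cases b
  · exact S.tgt_special a h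
  · exact S.src_special a h

theorem Comp.sameStart {l m m' : C.Letter} (h : Comp S l m) (h' : Comp S l m') :
    SameStart S m m' := by
  refine ⟨h.1.symm.trans h'.1, ?_⟩
  by_cases hs : C.special (stop l)
  · rw [startS_special S (by rw [← h.1]; exact hs), startS_special S (by rw [← h'.1]; exact hs)]
  · have h1 := h.2 hs
    have h2 := h'.2 hs
    revert h1 h2
    cases stopS S l <;> cases startS S m <;> cases startS S m' <;> simp

theorem comp_of_not_bad {l l' : C.Letter} (h : ¬ C.Bad [l, l']) : Comp S l l' := by
  have h1 : stop l = start l' := by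
    by_contra h1
    exact h (Bad.not_composable l l' h1)
  refine ⟨h1, fun hs he => ?_⟩
  have h2 : l' ≠ linv l := by
    intro h2
    apply h
    rw [h2]
    exact Bad.cancel l hs
  -- `linv l` and `l'` have the same start
  have h3 : SameStart S (linv l) l' := ⟨(start_linv l).trans h1, (startS_linv S l).trans he⟩
  rcases hl : l with ⟨a, b⟩
  rcases hl' : l' with ⟨a', b'⟩
  by_cases hb : b' = !b
  · exact h2 (h3.eq S (by rw [hl, hl']; exact hb.symm)).symm
  · have hb' : b' = b := by revert hb; cases b <;> cases b' <;> simp
    subst hb'
    subst hl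
    subst hl'
    cases b'
    · -- inverse letters: the path `a' a`
      have : [a', a] ∈ C.Z := by
        apply S.zero a' a h1.symm
        · simpa [stop, ← h1] using (by
            have : stop (a, false) = C.tgt a' := h1
            rwa [this] at hs)
        · exact he.symm
      apply h
      have := Bad.relation_inv (C := C) _ this
      simpa using this
    · have : [a, a'] ∈ C.Z := S.zero a a' h1 hs he
      apply h
      have := Bad.relation (C := C) _ this
      simpa using this

end ClanData

end Run7.h475
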