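import Mathlib
import Pool.Agent.Run7.h475.ClanSides

set_option autoImplicit false

namespace Run7.h475

universe u

namespace ClanData

variable {C : ClanData} (S : C.Sides)

/-- infinite walks -/
def IsWalk (X : ℕ → C.Letter) : Prop := ∀ i, Comp S (X i) (X (i + 1))

/-- shift of a sequence -/
def tl (X : ℕ → C.Letter) : ℕ → C.Letter := fun m => X (m + 1)

theorem IsWalk.tl {X : ℕ → C.Letter} (h : IsWalk S X) : IsWalk S (tl X) := fun i => h (i + 1)

/-- lexicographic order, inverse letters being smaller -/
def LexLt (X Y : ℕ → C.Letter) : Prop :=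
  ∃ m, (∀ i < m, X i = Y i) ∧ (X m).2 = false ∧ (Y m).2 = true

/-- the sequence `X` is smaller than all sequences beginning with the list `u` -/
def Low : List C.Letter → (ℕ → C.Letter) → Prop
  | [], _ => False
  | l :: u, X => ((X 0).2 = false ∧ l.2 = true) ∨ (X 0 = l ∧ Low u (tl X))

/-- the sequence `X` is larger than all sequences beginning with the list `u` -/
def High : List C.Letter → (ℕ → C.Letter) → Prop
  | [], _ => False
  | l :: u, X => ((X 0).2 = true ∧ l.2 = false) ∨ (X 0 = l ∧ High u (tl X))

theorem LexLt.cons {X Y : ℕ → C.Letter} (h0 : X 0 = Y 0) (h : LexLt (tl X) (tl Y)) :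
    LexLt X Y := by
  obtain ⟨m, h1, h2, h3⟩ := h
  refine ⟨m + 1, ?_, h2, h3⟩
  intro i hi
  cases i with
  | zero => exact h0
  | succ i => exact h1 i (by omega)

theorem LexLt.asymm {X Y : ℕ → C.Letter} (h : LexLt X Y) : ¬ LexLt Y X := by
  rintro ⟨m', h1', h2', h3'⟩
  obtain ⟨m, h1, h2, h3⟩ := h
  rcases lt_trichotomy m m' with h | h | h
  · rw [← h1' m h, h3] at h2; exact absurd h2 (by simp)
  · subst h; rw [h2] at h3'; exact absurd h3' (by simp)
  · rw [← h1 m' h, h3'] at h2'; exact absurd h2' (by simp)

theorem sameStart_tl {X Y : ℕ → C.Letter} (hX : IsWalk S X) (hY : IsWalk S Y)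
    (h0 : X 0 = Y 0) : SameStart S (tl X 0) (tl Y 0) := by
  have h1 := hX 0
  have h2 := hY 0
  rw [← h0] at h2
  exact h1.sameStart S h2

theorem low_mono : ∀ (u : List C.Letter) {X Y : ℕ → C.Letter}, IsWalk S X → IsWalk S Y →
    SameStart S (X 0) (Y 0) → ¬ LexLt Y X → Low u Y → Low u X := by
  intro u
  induction u with
  | nil => intro X Y _ _ _ _ h; exact h
  | cons l u ih =>
    intro X Y hX hY h0 hlt h
    rcases h with ⟨h1, h2⟩ | ⟨h1, h2⟩
    · -- `Y 0` is inverse
      have h3 : (X 0).2 = false := by
        by_contra h3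
        apply hlt
        exact ⟨0, by omega, h1, by simpa using h3⟩
      exact Or.inl ⟨h3, h2⟩
    · by_cases h3 : X 0 = Y 0
      · right
        refine ⟨h3.trans h1, ih hX.tl hY.tl (sameStart_tl S hX hY h3) ?_ h2⟩
        intro h4
        exact hlt (h4.cons h3.symm)
      · left
        have h4 : (X 0).2 ≠ (Y 0).2 := fun h4 => h3 (h0.eq S h4)
        by_cases h5 : (X 0).2 = false
        · refine ⟨h5, ?_⟩
          rw [← h1]
          rw [h5] at h4
          simpa using h4.symm
        · exfalso
          apply hlt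
          refine ⟨0, by omega, ?_, by simpa using h5⟩
          have h6 : (X 0).2 = true := by simpa using h5
          rw [h6] at h4
          simpa using h4.symm

theorem high_mono : ∀ (u : List C.Letter) {X Y : ℕ → C.Letter}, IsWalk S X → IsWalk S Y →
    SameStart S (X 0) (Y 0) → ¬ LexLt Y X → High u X → High u Y := by
  intro u
  induction u with
  | nil => intro X Y _ _ _ _ h; exact h
  | cons l u ih =>
    intro X Y hX hY h0 hlt h
    rcases h with ⟨h1, h2⟩ | ⟨h1, h2⟩
    · -- `X 0` is direct
      have h3 : (Y 0).2 = true := by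
        by_contra h3
        apply hlt
        exact ⟨0, by omega, by simpa using h3, h1⟩
      exact Or.inl ⟨h3, h2⟩
    · by_cases h3 : X 0 = Y 0
      · right
        refine ⟨h3.symm.trans h1, ih hX.tl hY.tl (sameStart_tl S hX hY h3) ?_ h2⟩
        intro h4
        exact hlt (h4.cons h3.symm)
      · left
        have h4 : (X 0).2 ≠ (Y 0).2 := fun h4 => h3 (h0.eq S h4)
        by_cases h5 : (Y 0).2 = true
        · refine ⟨h5, ?_⟩
          rw [← h1]
          rw [h5] at h4
          simpa using h4
        · exfalso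
          apply hlt
          refine ⟨0, by omega, by simpa using h5, ?_⟩
          have h6 : (Y 0).2 = false := by simpa using h5
          rw [h6] at h4
          simpa using h4

theorem not_low_self (u : List C.Letter) : ∀ {X : ℕ → C.Letter},
    (∀ i (hi : i < u.length), X i = u[i]) → ¬ Low u X ∧ ¬ High u X := by
  induction u with
  | nil => intro X _; exact ⟨id, id⟩
  | cons l u ih =>
    intro X h
    have h0 : X 0 = l := h 0 (by simp)
    have h1 := ih (X := tl X) (fun i hi => by
      have := h (i + 1) (by simpa using hi)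
      change X (i + 1) = u[i]
      simpa using this)
    constructor
    · rintro (⟨h2, h3⟩ | ⟨_, h2⟩)
      · rw [h0, h3] at h2; exact absurd h2 (by simp)
      · exact h1.1 h2
    · rintro (⟨h2, h3⟩ | ⟨_, h2⟩)
      · rw [h0, h3] at h2; exact absurd h2 (by simp)
      · exact h1.2 h2

end ClanData

end Run7.h475
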