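import Mathlib
import Pool.Agent.Run7.h475.ClanOrder

set_option autoImplicit false

namespace Run7.h475

universe u

open MulOpposite

namespace ClanData

/-- bi-infinite words -/
structure BiWord (C : ClanData) (S : C.Sides) where
  W : ℤ → C.Letter
  comp : ∀ i, Comp S (W i) (W (i + 1))
  avoid : ∀ z ∈ C.Z, ∀ i : ℤ, ¬ ∀ (m : ℕ) (a : C.A), z[m]? = some a → W (i + m) = (a, true)
  avoid_inv : ∀ z ∈ C.Z, ∀ i : ℤ, ¬ ∀ (m : ℕ) (a : C.A), z.reverse[m]? = some a →
    W (i + m) = (a, false)

namespace BiWord

variable {C : ClanData} {S : C.Sides} (B : BiWord C S)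

/-- next junction in direction `d` -/
def nx (d : Bool) (j : ℤ) : ℤ := cond d (j + 1) (j - 1)

/-- junction reached after `m` steps in direction `d` -/
def pos (d : Bool) (j : ℤ) (m : ℕ) : ℤ := cond d (j + m) (j - m)

/-- the letter leaving the junction `j` in direction `d` -/
def rd (d : Bool) (j : ℤ) : C.Letter := cond d (B.W (j + 1)) (linv (B.W j))

/-- the vertex at the junction `j` -/
def vt (j : ℤ) : C.V := stop (B.W j)

/-- the sequence of letters read from the junction `j` in direction `d` -/
def rdSeq (d : Bool) (j : ℤ) : ℕ → C.Letter := fun m => B.rd d (pos d j m)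

theorem nx_nx (d : Bool) (j : ℤ) : nx (!d) (nx d j) = j := by cases d <;> simp [nx]

theorem pos_zero (d : Bool) (j : ℤ) : pos d j 0 = j := by cases d <;> simp [pos]

theorem pos_succ (d : Bool) (j : ℤ) (m : ℕ) : pos d j (m + 1) = nx d (pos d j m) := by
  cases d
  · simp [pos, nx]; ring
  · simp [pos, nx]; ring

theorem pos_nx (d : Bool) (j : ℤ) (m : ℕ) : pos d (nx d j) m = pos d j (m + 1) := by
  cases d
  · simp [pos, nx]; ring
  · simp [pos, nx]; ring

theorem start_rd (d : Bool) (j : ℤ) : start (B.rd d j) = B.vt j := by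
  cases d
  · exact start_linv _
  · exact (B.comp j).1.symm

theorem stop_rd (d : Bool) (j : ℤ) : stop (B.rd d j) = B.vt (nx d j) := by
  cases d
  · have := (B.comp (j - 1)).1
    rw [sub_add_cancel] at this
    exact (stop_linv _).trans this.symm
  · rfl

theorem rd_nx (d : Bool) (j : ℤ) : B.rd (!d) (nx d j) = linv (B.rd d j) := by
  cases d
  · simp [rd, nx, linv_linv]
  · simp [rd, nx]

theorem side_ne {j : ℤ} (h : ¬ C.special (B.vt j)) : startS S (B.rd true j) ≠ startS S (B.rd false j) := by
  have := (B.comp j).2 h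
  simp only [rd, cond_true, cond_false, startS_linv]
  exact this.symm

theorem side_ne' {j : ℤ} (h : ¬ C.special (B.vt j)) (d : Bool) :
    startS S (B.rd d j) ≠ startS S (B.rd (!d) j) := by
  cases d
  · exact (B.side_ne h).symm
  · exact B.side_ne h

theorem comp_rd (d : Bool) (j : ℤ) : Comp S (B.rd d j) (B.rd d (nx d j)) := by
  refine ⟨(B.stop_rd d j).trans (B.start_rd d _).symm, fun h => ?_⟩
  rw [B.stop_rd] at h
  have h1 := B.side_ne' h d
  have h2 : startS S (B.rd (!d) (nx d j)) = stopS S (B.rd d j) := by
    rw [rd_nx, startS_linv]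
  rw [h2] at h1
  exact h1.symm

theorem rdSeq_zero (d : Bool) (j : ℤ) : B.rdSeq d j 0 = B.rd d j := by
  simp [rdSeq, pos_zero]

theorem tl_rdSeq (d : Bool) (j : ℤ) : tl (B.rdSeq d j) = B.rdSeq d (nx d j) := by
  funext m
  simp [tl, rdSeq, pos_nx]

theorem isWalk_rdSeq (d : Bool) (j : ℤ) : IsWalk S (B.rdSeq d j) := by
  intro i
  simp only [rdSeq, pos_succ]
  exact B.comp_rd d _

open Classical in
/-- the basis element at the junction `j` looking in direction `d` -/
noncomputable def el (d : Bool) (j : ℤ) : ℤ × Bool := (j, !d && decide (C.special (B.vt j)))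

theorem el_fst (d : Bool) (j : ℤ) : (B.el d j).1 = j := rfl

theorem el_special {j : ℤ} (h : C.special (B.vt j)) (d : Bool) : B.el d j = (j, !d) := by
  simp [el, h]

theorem el_not_special {j : ℤ} (h : ¬ C.special (B.vt j)) (d : Bool) : B.el d j = (j, false) := by
  simp [el, h]

theorem el_special_inj {j : ℤ} (h : C.special (B.vt j)) {d d' : Bool}
    (hd : B.el d j = B.el d' j) : d = d' := by
  rw [B.el_special h, B.el_special h] at hd
  simpa using hd

variable {k : Type u} [Field k]

/-- the underlying space of the module -/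
abbrev Sp (k : Type u) : Type u := ℤ × Bool → k

open Classical in
/-- the action of an arrow -/
noncomputable def act (a : C.A) : Sp k →ₗ[k] Sp k where
  toFun f x :=
    (if x = B.el true x.1 ∧ B.rd true x.1 = (a, false) then f (B.el false (nx true x.1)) else 0) +
    (if x = B.el false x.1 ∧ B.rd false x.1 = (a, false) then f (B.el true (nx false x.1)) else 0)
  map_add' f g := by
    funext x
    simp only [Pi.add_apply]
    split_ifs <;> ring
  map_smul' r f := by
    funext x
    simp only [Pi.smul_apply, smul_eq_mul, RingHom.id_apply]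
    split_ifs <;> ring

open Classical in
theorem act_apply (a : C.A) (f : Sp k) (x : ℤ × Bool) : B.act a f x =
    (if x = B.el true x.1 ∧ B.rd true x.1 = (a, false) then f (B.el false (nx true x.1)) else 0) +
    (if x = B.el false x.1 ∧ B.rd false x.1 = (a, false) then f (B.el true (nx false x.1)) else 0)
    := rfl

theorem act_el {a : C.A} {d : Bool} {j : ℤ} (h : B.rd d j = (a, false)) (f : Sp k) :
    B.act a f (B.el d j) = f (B.el (!d) (nx d j)) := by
  classical
  -- the other term vanishes
  have h2 : ¬ (B.el d j = B.el (!d) j ∧ B.rd (!d) j = (a, false)) := by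
    rintro ⟨h3, h4⟩
    by_cases hs : C.special (B.vt j)
    · have := B.el_special_inj hs h3
      cases d <;> simp at this
    · exact B.side_ne' hs d (by rw [h, h4])
  rw [act_apply]
  cases d
  · simp only [Bool.not_false] at h2 ⊢
    simp only [el_fst]
    rw [if_neg h2, if_pos ⟨trivial, h⟩, zero_add]
  · simp only [Bool.not_true] at h2 ⊢
    simp only [el_fst]
    rw [if_pos ⟨trivial, h⟩, if_neg h2, add_zero]

theorem act_ne {a : C.A} {f : Sp k} {x : ℤ × Bool} (h : B.act a f x ≠ 0) :
    ∃ d j, x = B.el d j ∧ B.rd d j = (a, false) ∧ f (B.el (!d) (nx d j)) ≠ 0 := by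
  classical
  rw [act_apply] at h
  by_cases h1 : x = B.el true x.1 ∧ B.rd true x.1 = (a, false)
  · by_cases h3 : f (B.el false (nx true x.1)) = 0
    · rw [if_pos h1, h3, zero_add] at h
      by_cases h2 : x = B.el false x.1 ∧ B.rd false x.1 = (a, false)
      · rw [if_pos h2] at h
        exact ⟨false, x.1, h2.1, h2.2, h⟩
      · rw [if_neg h2] at h; exact absurd rfl h
    · exact ⟨true, x.1, h1.1, h1.2, h3⟩
  · rw [if_neg h1, zero_add] at h
    by_cases h2 : x = B.el false x.1 ∧ B.rd false x.1 = (a, false)
    · rw [if_pos h2] at h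
      exact ⟨false, x.1, h2.1, h2.2, h⟩
    · rw [if_neg h2] at h; exact absurd rfl h

open Classical in
/-- the action of the trivial path at `v` -/
noncomputable def eAct (v : C.V) : Sp k →ₗ[k] Sp k where
  toFun f x := if B.vt x.1 = v then f x else 0
  map_add' f g := by
    funext x
    simp only [Pi.add_apply]
    split_ifs <;> ring
  map_smul' r f := by
    funext x
    simp only [Pi.smul_apply, smul_eq_mul, RingHom.id_apply]
    split_ifs <;> ring

open Classical in
theorem eAct_apply (v : C.V) (f : Sp k) (x : ℤ × Bool) :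
    B.eAct v f x = if B.vt x.1 = v then f x else 0 := rfl

open Classical in
/-- the direction of the smaller one of the two elements at the junction `j` -/
noncomputable def smd (j : ℤ) : Bool :=
  if LexLt (B.rdSeq false j) (B.rdSeq true j) then false else true

theorem smd_spec (j : ℤ) : ¬ LexLt (B.rdSeq (!B.smd j) j) (B.rdSeq (B.smd j) j) := by
  classical
  unfold smd
  split_ifs with h
  · exact h.asymm
  · exact h

open Classical in
/-- the action of the special loop at `v` -/
noncomputable def sAct (c : k) (v : C.V) : Sp k →ₗ[k] Sp k where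
  toFun f x := if B.vt x.1 = v then (f (B.el true x.1) + f (B.el false x.1)) *
    (if x = B.el (B.smd x.1) x.1 then (1 - c)⁻¹ else - c * (1 - c)⁻¹) else 0
  map_add' f g := by
    funext x
    simp only [Pi.add_apply]
    split_ifs <;> ring
  map_smul' r f := by
    funext x
    simp only [Pi.smul_apply, smul_eq_mul, RingHom.id_apply]
    split_ifs <;> ring

open Classical in
theorem sAct_apply (c : k) (v : C.V) (f : Sp k) (x : ℤ × Bool) :
    B.sAct c v f x = if B.vt x.1 = v then (f (B.el true x.1) + f (B.el false x.1)) *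
    (if x = B.el (B.smd x.1) x.1 then (1 - c)⁻¹ else - c * (1 - c)⁻¹) else 0 := rfl

end BiWord

end ClanData

end Run7.h475
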