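import Mathlib
import Pool.Agent.Run7.h475.ClanMod

set_option autoImplicit false

namespace Run7.h475

universe u

open MulOpposite

namespace ClanData

namespace BiWord

variable {C : ClanData} {S : C.Sides} (B : BiWord C S) {k : Type u} [Field k]

/-- the images of the generators -/
noncomputable def genMap (c : k) : C.Gen → (Module.End k (Sp k))ᵐᵒᵖ
  | .e v => op (B.eAct v)
  | .arr a => op (B.act a)
  | .loop v => op (B.sAct c v)

/-- the representation of the free algebra -/
noncomputable def rep0 (c : k) : FreeAlgebra k C.Gen →ₐ[k] (Module.End k (Sp k))ᵐᵒᵖ :=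
  FreeAlgebra.lift k (B.genMap c)

theorem rep0_e (c : k) (v : C.V) : B.rep0 c (C.fe k v) = op (B.eAct v) := by
  simp [rep0, fe, genMap]

theorem rep0_a (c : k) (a : C.A) : B.rep0 c (C.fa k a) = op (B.act a) := by
  simp [rep0, fa, genMap]

theorem rep0_s (c : k) (v : {v : C.V // C.special v}) : B.rep0 c (C.fs k v) = op (B.sAct c v) := by
  simp [rep0, fs, genMap]

/-- the action of an element of the free algebra -/
noncomputable def ract (c : k) (x : FreeAlgebra k C.Gen) : Sp k →ₗ[k] Sp k := (B.rep0 c x).unop

theorem ract_mul (c : k) (x y : FreeAlgebra k C.Gen) (f : Sp k) :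
    B.ract c (x * y) f = B.ract c y (B.ract c x f) := by
  simp [ract]

theorem ract_e (c : k) (v : C.V) : B.ract c (C.fe k v) = B.eAct v := by simp [ract, rep0_e]
theorem ract_a (c : k) (a : C.A) : B.ract c (C.fa k a) = B.act a := by simp [ract, rep0_a]
theorem ract_s (c : k) (v : {v : C.V // C.special v}) : B.ract c (C.fs k v) = B.sAct c v := by
  simp [ract, rep0_s]

theorem mid_ne {c : k} {v : C.V} {f : Sp k} {d : Bool} {j : ℤ}
    (h : B.ract c (C.mid k v) f (B.el d j) ≠ 0) : ∃ d', f (B.el d' j) ≠ 0 := by
  classical
  unfold mid at h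
  split_ifs at h with hv
  · rw [ract_s, sAct_apply] at h
    split_ifs at h with h1 h2
    · by_contra hcon
      push Not at hcon
      simp only [el_fst] at h
      rw [hcon, hcon] at h
      simp at h
    · by_contra hcon
      push Not at hcon
      simp only [el_fst] at h
      rw [hcon, hcon] at h
      simp at h
    · exact absurd rfl h
  · rw [ract_e, eAct_apply] at h
    split_ifs at h with h1
    · exact ⟨d, h⟩
    · exact absurd rfl h

theorem path_ne (c : k) : ∀ (z : List C.A), z ≠ [] → ∀ (f : Sp k) (x : ℤ × Bool),
    B.ract c (C.pathVal k z) f x ≠ 0 → ∃ d j, x = B.el d j ∧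
      (∀ (m : ℕ) (a : C.A), z.reverse[m]? = some a → B.rd d (pos d j m) = (a, false)) ∧
      f (B.el (!d) (pos d j z.length)) ≠ 0
  | [], h => absurd rfl h
  | [a], _ => by
    intro f x h
    have e : C.pathVal k [a] = C.fa k a := by simp [pathVal]
    rw [e, ract_a] at h
    obtain ⟨d, j, h1, h2, h3⟩ := B.act_ne h
    refine ⟨d, j, h1, ?_, ?_⟩
    · intro m a' hm
      cases m with
      | zero =>
        simp at hm
        subst hm
        rw [pos_zero]; exact h2
      | succ m => simp at hm
    · simpa [pos_succ, pos_zero] using h3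
  | a :: b :: t, _ => by
    intro f x h
    have e : C.pathVal k (a :: b :: t) =
      C.fa k a * C.mid k (C.src b) * C.pathVal k (b :: t) := by simp [pathVal, mul_assoc]
    rw [e, ract_mul, ract_mul] at h
    obtain ⟨d, j, h1, h2, h3⟩ := path_ne c (b :: t) (by simp) _ x h
    refine ⟨d, j, h1, ?_⟩
    set J := pos d j (b :: t).length with hJ
    obtain ⟨d', h4⟩ := B.mid_ne h3
    rw [ract_a] at h4
    obtain ⟨d4, J', h5, h6, h7⟩ := B.act_ne h4
    have h8 : J' = J := by
      have := congrArg Prod.fst h5
      simpa [el_fst] using this.symm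
    rw [h8] at h5 h6 h7
    -- the last letter travelled
    have h9 : B.rd d (pos d j t.length) = (b, false) := by
      apply h2
      rw [List.getElem?_reverse (by simp)]
      simp
    have h10 : d4 = d := by
      by_contra hne
      have h11 : d4 = !d := by revert hne; cases d4 <;> cases d <;> simp
      have h12 : J = nx d (pos d j t.length) := by
        rw [hJ, List.length_cons, pos_succ]
      rw [h11, h12, rd_nx, h9] at h6
      simp [linv] at h6
    rw [h10] at h5 h6 h7
    constructor
    · intro m a' hm
      rw [List.reverse_cons] at hm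
      rcases Nat.lt_or_ge m (b :: t).reverse.length with hlt | hge
      · rw [List.getElem?_append_left hlt] at hm
        exact h2 m a' hm
      · rw [List.getElem?_append_right hge] at hm
        have hm0 : m - (b :: t).reverse.length = 0 := by
          by_contra hne
          obtain ⟨q, hq⟩ := Nat.exists_eq_succ_of_ne_zero hne
          rw [hq] at hm
          simp at hm
        rw [hm0] at hm
        simp only [List.getElem?_cons_zero, Option.some.injEq] at hm
        subst hm
        have : m = (b :: t).length := by
          rw [List.length_reverse] at hge hm0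
          omega
        rw [this]
        exact h6
    · rw [List.length_cons, pos_succ]
      exact h7

theorem vt_el (d : Bool) (j : ℤ) : B.vt (B.el d j).1 = B.vt j := rfl

theorem act_vt {a : C.A} {f : Sp k} {x : ℤ × Bool} (h : B.act a f x ≠ 0) :
    B.vt x.1 = C.tgt a := by
  obtain ⟨d, j, rfl, h2, _⟩ := B.act_ne h
  have := B.start_rd d j
  rw [h2] at this
  exact this.symm

theorem act_congr {a : C.A} {f g : Sp k} (h : ∀ x, B.vt x.1 = C.src a → f x = g x) :
    B.act a f = B.act a g := by
  classical
  funext x
  rw [act_apply, act_apply]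
  have key : ∀ d, B.rd d x.1 = (a, false) → f (B.el (!d) (nx d x.1)) = g (B.el (!d) (nx d x.1)) := by
    intro d hd
    apply h
    rw [vt_el, ← B.stop_rd, hd]
    rfl
  congr 1
  · split_ifs with h1
    · exact key true h1.2
    · rfl
  · split_ifs with h1
    · exact key false h1.2
    · rfl

theorem sAct_idem {c : k} (hc : c ≠ 1) (v : C.V) (hv : C.special v) (f : Sp k) :
    B.sAct c v (B.sAct c v f) = B.sAct c v f := by
  classical
  have hc' : (1 - c) ≠ 0 := sub_ne_zero.2 (Ne.symm hc)
  funext x
  rw [sAct_apply, sAct_apply B c v f x]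
  by_cases h1 : B.vt x.1 = v
  swap
  · rw [if_neg h1, if_neg h1]
  · rw [if_pos h1, if_pos h1]
    congr 1
    rw [sAct_apply, sAct_apply]
    simp only [el_fst, h1, if_true]
    have hs : C.special (B.vt x.1) := by rw [h1]; exact hv
    have e : ∀ d, (B.el d x.1 = B.el (B.smd x.1) x.1) ↔ d = B.smd x.1 := by
      intro d
      constructor
      · exact fun h => B.el_special_inj hs h
      · rintro rfl; rfl
    simp only [e]
    cases B.smd x.1
    · simp
      field_simp
      try ring
    · simp
      field_simp
      try ring

theorem rep0_rel {c : k} (hc : c ≠ 1) ⦃x y : FreeAlgebra k C.Gen⦄ (h : C.Rel k x y) :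
    B.rep0 c x = B.rep0 c y := by
  classical
  have key : B.ract c x = B.ract c y → B.rep0 c x = B.rep0 c y := fun h =>
    MulOpposite.unop_injective h
  apply key
  apply LinearMap.ext
  intro f
  cases h with
  | e_mul_e v =>
    rw [ract_mul, ract_e]
    funext x
    rw [eAct_apply, eAct_apply]
    split_ifs <;> rfl
  | e_mul_ne v w hvw =>
    rw [ract_mul, ract_e, ract_e]
    funext x
    rw [eAct_apply, eAct_apply]
    have : B.ract c 0 = 0 := by simp [ract]
    rw [this]
    split_ifs with h1 h2
    · exact absurd (h2.symm.trans h1) hvw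
    · rfl
    · rfl
  | e_sum =>
    have : B.ract c (∑ v, C.fe k v) = ∑ v, B.eAct v := by
      simp only [ract, map_sum, rep0_e, Finset.unop_sum, unop_op]
    rw [this]
    have h1 : B.ract c 1 = LinearMap.id := by simp [ract]; rfl
    rw [h1]
    funext x
    rw [LinearMap.sum_apply, Finset.sum_apply]
    simp only [eAct_apply, LinearMap.id_apply]
    rw [Finset.sum_ite_eq]
    simp
  | src_mul a =>
    rw [ract_mul, ract_a, ract_e]
    apply B.act_congr
    intro x hx
    rw [eAct_apply, if_pos hx]
  | mul_tgt a =>
    rw [ract_mul, ract_a, ract_e]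
    funext x
    rw [eAct_apply]
    split_ifs with h1
    · rfl
    · by_contra h2
      exact h1 (B.act_vt (Ne.symm h2))
  | e_mul_loop v =>
    rw [ract_mul, ract_s, ract_e]
    funext x
    rw [sAct_apply, sAct_apply]
    by_cases h1 : B.vt x.1 = v
    · simp only [h1, if_true, eAct_apply, el_fst]
    · simp only [h1, if_false]
  | loop_mul_e v =>
    rw [ract_mul, ract_s, ract_e]
    funext x
    rw [eAct_apply, sAct_apply]
    by_cases h1 : B.vt x.1 = v
    · simp only [h1, if_true]
    · simp only [h1, if_false]
  | loop_idem v =>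
    rw [ract_mul, ract_s]
    exact B.sAct_idem hc v v.2 f
  | special_zero a b hab hs =>
    rw [ract_mul, ract_a, ract_a]
    have h0 : B.ract c 0 = 0 := by simp [ract]
    rw [h0]
    funext x
    by_contra h
    obtain ⟨d, j, rfl, h2, h3⟩ := B.act_ne h
    obtain ⟨d', j', h4, h5, _⟩ := B.act_ne h3
    have h6 : j' = nx d j := by
      have := congrArg Prod.fst h4
      simpa [el_fst] using this.symm
    rw [h6] at h4 h5
    have h7 : C.special (B.vt (nx d j)) := by
      rw [← B.stop_rd, h2]
      change C.special (C.src b)
      rw [← hab]; exact hs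
    have h8 := B.el_special_inj h7 h4
    rw [← h8, rd_nx, h2] at h5
    simp [linv] at h5
  | zero z hz =>
    have h0 : B.ract c 0 = 0 := by simp [ract]
    rw [h0]
    funext x
    by_contra h
    have hz0 : z ≠ [] := by
      rintro rfl
      exact B.avoid [] hz 0 (fun m a h => by simp at h)
    obtain ⟨d, j, -, h2, _⟩ := B.path_ne c z hz0 f x h
    cases d
    · -- backwards: the word contains the path itself
      apply B.avoid z hz (j - (z.length - 1 : ℕ))
      intro m a hm
      have hml : m < z.length := by
        by_contra hcon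
        rw [List.getElem?_eq_none (by omega)] at hm
        simp at hm
      have h3 := h2 (z.length - 1 - m) a (by
        rw [List.getElem?_reverse (by omega)]
        rw [← hm]
        congr 1
        omega)
      simp only [pos, cond_false, rd] at h3
      have h4 := congrArg linv h3
      rw [linv_linv] at h4
      rw [show (j - ((z.length - 1 : ℕ) : ℤ) + m) = j - ((z.length - 1 - m : ℕ) : ℤ) by omega]
      rw [h4]
      simp [linv]
    · -- forwards
      apply B.avoid_inv z hz (j + 1)
      intro m a hm
      have h3 := h2 m a hm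
      simp only [pos, cond_true, rd] at h3
      rw [show j + 1 + (m : ℤ) = j + m + 1 by ring]
      exact h3

/-- the representation of the algebra -/
noncomputable def rep (c : k) (hc : c ≠ 1) : C.Alg k →ₐ[k] (Module.End k (Sp k))ᵐᵒᵖ :=
  RingQuot.liftAlgHom k ⟨B.rep0 c, B.rep0_rel hc⟩

/-- the quotient map from the free algebra -/
noncomputable def qmk (C : ClanData) (k : Type u) [Field k] : FreeAlgebra k C.Gen →ₐ[k] C.Alg k :=
  RingQuot.mkAlgHom k (C.Rel k)

theorem rep_mk (c : k) (hc : c ≠ 1) (x : FreeAlgebra k C.Gen) :
    B.rep c hc (qmk C k x) = B.rep0 c x :=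
  RingQuot.liftAlgHom_mkAlgHom_apply _ _ _ _

/-- the module over the algebra -/
def WMod (_B : BiWord C S) (c : k) (_hc : c ≠ 1) : Type u := ℤ × Bool → k

noncomputable instance (c : k) (hc : c ≠ 1) : AddCommGroup (B.WMod c hc) :=
  inferInstanceAs (AddCommGroup (ℤ × Bool → k))

noncomputable instance (c : k) (hc : c ≠ 1) : Module (C.Alg k)ᵐᵒᵖ (B.WMod c hc) where
  smul r f := (B.rep c hc r.unop).unop f
  one_smul f := by
    change (B.rep c hc (1 : (C.Alg k)ᵐᵒᵖ).unop).unop f = f
    simp
  mul_smul r s f := by
    change (B.rep c hc (r * s).unop).unop f = (B.rep c hc r.unop).unop ((B.rep c hc s.unop).unop f)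
    simp
  smul_zero r := map_zero ((B.rep c hc r.unop).unop)
  smul_add r f g := map_add ((B.rep c hc r.unop).unop) f g
  add_smul r s f := by
    change (B.rep c hc (r + s).unop).unop f = (B.rep c hc r.unop).unop f + (B.rep c hc s.unop).unop f
    simp
  zero_smul f := by
    change (B.rep c hc (0 : (C.Alg k)ᵐᵒᵖ).unop).unop f = 0
    simp

theorem smul_def (c : k) (hc : c ≠ 1) (x : FreeAlgebra k C.Gen) (f : B.WMod c hc) :
    op (qmk C k x) • f = B.ract c x f := by
  change (B.rep c hc (qmk C k x)).unop f = _
  rw [rep_mk]
  rfl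

end BiWord

end ClanData

end Run7.h475
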