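import Mathlib
import Pool.Agent.Run7.h475.KGDefs

set_option autoImplicit false

namespace Run7.h475

open MulOpposite

universe u v w

/-- `MdimLT α a b`: cumulative form of `Collapsed`. -/
def MdimLT {L : Type w} [PartialOrder L] (α : Ordinal.{v}) (a b : L) : Prop :=
  a = b ∨ ∃ β : Ordinal.{v}, ∃ _ : β < α, ∃ (n : ℕ) (c : ℕ → L), c 0 = a ∧ c n = b ∧
    ∀ i < n, c i ≤ c (i + 1) ∧
      ∀ x, c i ≤ x → x ≤ c (i + 1) → MdimLT β (c i) x ∨ MdimLT β x (c (i + 1))
termination_by α

section modular

theorem mdim_of_collapsed {L : Type w} [PartialOrder L] (α : Ordinal.{v}) :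
    ∀ {a b : L}, Collapsed α a b → MdimLT α a b := by
  induction α using Ordinal.limitRecOn with
  | zero =>
    intro a b h
    unfold Collapsed at h
    rw [Ordinal.limitRecOn_zero] at h
    rw [MdimLT]
    exact Or.inl h
  | add_one β ih =>
    intro a b h
    unfold Collapsed at h
    rw [Ordinal.limitRecOn_add_one] at h
    obtain ⟨n, c, h0, hn, hc⟩ := h
    rw [MdimLT]
    refine Or.inr ⟨β, lt_add_one β, n, c, h0, hn, fun i hi => ⟨(hc i hi).1, fun x h1 h2 => ?_⟩⟩
    exact ((hc i hi).2 x h1 h2).imp (fun h => ih h) (fun h => ih h)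
  | limit γ hγ ih =>
    intro a b h
    unfold Collapsed at h
    rw [Ordinal.limitRecOn_limit (h := hγ)] at h
    obtain ⟨β, hβ, h⟩ := h
    have h1 : MdimLT β a b := ih β hβ h
    rw [MdimLT] at h1 ⊢
    rcases h1 with h1 | ⟨δ, hδ, h1⟩
    · exact Or.inl h1
    · exact Or.inr ⟨δ, hδ.trans hβ, h1⟩

variable {L : Type w} [Lattice L]

theorem mdim_iff {α : Ordinal.{v}} {a b : L} : MdimLT α a b ↔
    (a = b ∨ ∃ β : Ordinal.{v}, ∃ _ : β < α, ∃ (n : ℕ) (c : ℕ → L), c 0 = a ∧ c n = b ∧
    ∀ i < n, c i ≤ c (i + 1) ∧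
      ∀ x, c i ≤ x → x ≤ c (i + 1) → MdimLT β (c i) x ∨ MdimLT β x (c (i + 1))) := by
  conv_lhs => rw [MdimLT]

variable [IsModularLattice L]

theorem mdim_inf (α : Ordinal.{v}) : ∀ {a b : L} (c : L), MdimLT α a b →
    MdimLT α (a ⊓ c) (b ⊓ c) := by
  induction α using WellFoundedLT.induction with
  | ind α ih =>
    intro a b c h
    rw [mdim_iff] at h ⊢
    rcases h with h | ⟨β, hβ, n, u, h0, hn, hu⟩
    · left; rw [h]
    · right
      refine ⟨β, hβ, n, fun i => u i ⊓ c, by simp [h0], by simp [hn], ?_⟩
      intro i hi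
      obtain ⟨h1, h2⟩ := hu i hi
      refine ⟨inf_le_inf_right c h1, ?_⟩
      intro x hx1 hx2
      have hxc : x ≤ c := hx2.trans inf_le_right
      have key : (x ⊔ u i) ⊓ c = x := by
        rw [sup_inf_assoc_of_le (u i) hxc]
        exact sup_eq_left.2 hx1
      rcases h2 (x ⊔ u i) le_sup_right (sup_le (hx2.trans inf_le_left) h1) with h3 | h3
      · left
        have := ih β hβ c h3
        rwa [key] at this
      · right
        have := ih β hβ c h3
        rwa [key] at this

theorem mdim_sup (α : Ordinal.{v}) : ∀ {a b : L} (c : L), MdimLT α a b →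
    MdimLT α (a ⊔ c) (b ⊔ c) := by
  induction α using WellFoundedLT.induction with
  | ind α ih =>
    intro a b c h
    rw [mdim_iff] at h ⊢
    rcases h with h | ⟨β, hβ, n, u, h0, hn, hu⟩
    · left; rw [h]
    · right
      refine ⟨β, hβ, n, fun i => u i ⊔ c, by simp [h0], by simp [hn], ?_⟩
      intro i hi
      obtain ⟨h1, h2⟩ := hu i hi
      refine ⟨sup_le_sup_right h1 c, ?_⟩
      intro x hx1 hx2
      have hxc : c ≤ x := le_sup_right.trans hx1
      have key : (x ⊓ u (i + 1)) ⊔ c = x := by
        rw [inf_sup_assoc_of_le (u (i+1)) hxc]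
        exact inf_eq_left.2 hx2
      rcases h2 (x ⊓ u (i + 1)) (le_inf (le_sup_left.trans hx1) h1) inf_le_right with h3 | h3
      · left
        have := ih β hβ c h3
        rwa [key] at this
      · right
        have := ih β hβ c h3
        rwa [key] at this

/-- the interval `[a', b'] ⊆ [a, b]`: m-dimension is monotone -/
theorem mdim_sub {α : Ordinal.{v}} {a b a' b' : L} (h : MdimLT α a b) (h1 : a ≤ a')
    (h2 : a' ≤ b') (h3 : b' ≤ b) : MdimLT α a' b' := by
  have := mdim_sup α a' (mdim_inf α b' h)
  rwa [inf_eq_left.2 ((h1.trans h2)), inf_eq_right.2 h3, sup_eq_right.2 h1,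
    sup_eq_left.2 h2] at this

/-- projection of `x` to the interval `[a, b]` -/
def prj (a b x : L) : L := (x ⊓ b) ⊔ a

omit [IsModularLattice L] in
theorem prj_mono {a b x y : L} (h : x ≤ y) : prj a b x ≤ prj a b y :=
  sup_le_sup_right (inf_le_inf_right b h) a

omit [IsModularLattice L] in
theorem le_prj {a b x : L} : a ≤ prj a b x := le_sup_right

omit [IsModularLattice L] in
theorem prj_le {a b x : L} (h : a ≤ b) : prj a b x ≤ b := sup_le inf_le_right h

/-- along a chain, elements with the same projections are equal -/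
theorem eq_of_prj {n : ℕ} {c : ℕ → L} (hc : ∀ i < n, c i ≤ c (i + 1)) {x y : L} (hxy : x ≤ y)
    (h0 : c 0 ≤ x) (hn : y ≤ c n)
    (h : ∀ i < n, prj (c i) (c (i + 1)) x = prj (c i) (c (i + 1)) y) : x = y := by
  -- show y ⊓ c i ≤ x by induction on i
  have key : ∀ i ≤ n, y ⊓ c i ≤ x := by
    intro i
    induction i with
    | zero => intro _; exact inf_le_right.trans h0
    | succ i ih =>
      intro hi
      have h1 := ih (by omega)
      have h2 := h i (by omega)
      unfold prj at h2
      -- y ⊓ c (i+1) ≤ (x ⊓ c (i+1)) ⊔ c i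
      have h3 : y ⊓ c (i + 1) ≤ (x ⊓ c (i + 1)) ⊔ c i := by
        rw [h2]; exact le_sup_left
      -- so y ⊓ c (i+1) ≤ ((x ⊓ c (i+1)) ⊔ c i) ⊓ y = (x ⊓ c (i+1)) ⊔ (c i ⊓ y)
      have h4 : y ⊓ c (i + 1) ≤ ((x ⊓ c (i + 1)) ⊔ c i) ⊓ y := le_inf h3 inf_le_left
      rw [sup_inf_assoc_of_le (c i) (inf_le_left.trans hxy)] at h4
      refine h4.trans (sup_le inf_le_left ?_)
      rw [inf_comm]
      exact h1
  apply le_antisymm hxy
  have := key n le_rfl
  rwa [inf_eq_left.2 hn] at this

/-- A binary tree of pairwise separated nontrivial intervals excludes every m-dimension. -/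
theorem tree_no_mdim (α : Ordinal.{v}) : ∀ (f g : List Bool → L),
    (∀ w, f w < g w) → (∀ w, f w ≤ f (w ++ [false])) → (∀ w, g (w ++ [false]) ≤ f (w ++ [true])) →
    (∀ w, g (w ++ [true]) ≤ g w) → ¬ MdimLT α (f []) (g []) := by
  induction α using WellFoundedLT.induction with
  | ind α ih =>
    intro f g hfg h1 h2 h3 hm
    rw [mdim_iff] at hm
    rcases hm with hm | ⟨β, hβ, n, c, h0, hn, hc⟩
    · exact (hfg []).ne hm
    -- monotonicity along the tree
    have hf : ∀ (w t : List Bool), f w ≤ f (w ++ t) ∧ g (w ++ t) ≤ g w := by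
      intro w t
      induction t using List.reverseRecOn with
      | nil => simp
      | append_singleton t b iht =>
        rw [← List.append_assoc]
        have e1 : f (w ++ t) ≤ f (w ++ t ++ [b]) := by
          cases b
          · exact h1 _
          · exact (h1 _).trans ((hfg _).le.trans (h2 _))
        have e2 : g (w ++ t ++ [b]) ≤ g (w ++ t) := by
          cases b
          · exact (h2 _).trans ((hfg _).le.trans (h3 _))
          · exact h3 _
        exact ⟨iht.1.trans e1, e2.trans iht.2⟩
    have hchain : ∀ i < n, c i ≤ c (i + 1) := fun i hi => (hc i hi).1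
    -- find a node and a step such that the projections stay strict below the node
    have key : ∀ (m : ℕ) (w : List Bool), (∀ i, m ≤ i → i < n → ∀ t,
        prj (c i) (c (i + 1)) (f (w ++ t)) = prj (c i) (c (i + 1)) (g (w ++ t))) → m ≤ n →
        ∃ (w' : List Bool) (i : ℕ), i < n ∧ ∀ t,
          prj (c i) (c (i + 1)) (f (w' ++ t)) < prj (c i) (c (i + 1)) (g (w' ++ t)) := by
      intro m
      induction m with
      | zero =>
        intro w hw _
        exfalso
        have e := eq_of_prj hchain (hfg w).le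
          (by rw [h0]; simpa using (hf [] w).1) (by rw [hn]; simpa using (hf [] w).2)
          (fun i hi => by simpa using hw i (Nat.zero_le i) hi [])
        exact (hfg w).ne e
      | succ m ihm =>
        intro w hw hmn
        by_cases hex : ∃ t, prj (c m) (c (m + 1)) (f (w ++ t)) = prj (c m) (c (m + 1)) (g (w ++ t))
        · obtain ⟨t, ht⟩ := hex
          refine ihm (w ++ t) ?_ (by omega)
          intro i hi hin t'
          rcases Nat.lt_or_ge m i with hmi | hmi
          · have := hw i (by omega) hin (t ++ t')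
            rwa [← List.append_assoc] at this
          · obtain rfl : i = m := by omega
            apply le_antisymm (prj_mono (hfg _).le)
            have e1 := (hf (w ++ t) t')
            calc prj (c i) (c (i + 1)) (g (w ++ t ++ t')) ≤ prj (c i) (c (i + 1)) (g (w ++ t)) :=
                  prj_mono e1.2
              _ = prj (c i) (c (i + 1)) (f (w ++ t)) := ht.symm
              _ ≤ _ := prj_mono e1.1
        · push Not at hex
          exact ⟨w, m, by omega, fun t => lt_of_le_of_ne (prj_mono (hfg _).le) (hex t)⟩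
    obtain ⟨w', i, hi, hstrict⟩ := key n [] (by intro i hi hin; omega) le_rfl
    set P : L → L := prj (c i) (c (i + 1)) with hP
    have hPm : ∀ {x y}, x ≤ y → P x ≤ P y := fun h => prj_mono h
    have hstep := (hc i hi).2 (P (g (w' ++ [false]))) le_prj (prj_le (hchain i hi))
    rcases hstep with h | h
    · -- left child
      refine ih β hβ (fun t => P (f (w' ++ [false] ++ t))) (fun t => P (g (w' ++ [false] ++ t)))
        ?_ ?_ ?_ ?_ ?_
      · intro t; simpa using hstrict ([false] ++ t)
      · intro t; rw [← List.append_assoc]; exact hPm (h1 _)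
      · intro t; rw [← List.append_assoc, ← List.append_assoc]; exact hPm (h2 _)
      · intro t; rw [← List.append_assoc]; exact hPm (h3 _)
      · refine mdim_sub h le_prj ?_ ?_
        · simpa using hPm (hfg (w' ++ [false])).le
        · simp
    · refine ih β hβ (fun t => P (f (w' ++ [true] ++ t))) (fun t => P (g (w' ++ [true] ++ t)))
        ?_ ?_ ?_ ?_ ?_
      · intro t; simpa using hstrict ([true] ++ t)
      · intro t; rw [← List.append_assoc]; exact hPm (h1 _)
      · intro t; rw [← List.append_assoc, ← List.append_assoc]; exact hPm (h2 _)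
      · intro t; rw [← List.append_assoc]; exact hPm (h3 _)
      · refine mdim_sub h ?_ ?_ (prj_le (hchain i hi))
        · simpa using hPm (h2 w')
        · simpa using hPm (hfg (w' ++ [true])).le

end modular

end Run7.h475
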