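import Mathlib
import Pool.Agent.Run7.h475.KG

set_option autoImplicit false

namespace Run7.h475

open MulOpposite

universe u v w

section lattice

variable {R : Type u} [Ring R]

theorem exists_pp {ι κ : Type} [Fintype ι] [Fintype κ] (a : κ → R) (B : ι → κ → R) :
    ∃ φ : PP R, ∀ (M : Type u) [AddCommGroup M] [Module Rᵐᵒᵖ M] (x : M),
      φ.Sat M x ↔ ∃ y : ι → M, ∀ j, op (a j) • x + ∑ i, op (B i j) • y i = 0 := by
  classical
  let e := Fintype.equivFin ι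
  let f := Fintype.equivFin κ
  refine ⟨⟨Fintype.card ι, Fintype.card κ, fun j => a (f.symm j),
    fun i j => B (e.symm i) (f.symm j)⟩, fun M _ _ x => ?_⟩
  unfold PP.Sat
  constructor
  · rintro ⟨y, hy⟩
    refine ⟨fun i => y (e i), fun j => ?_⟩
    have := hy (f j)
    simp only [Equiv.symm_apply_apply] at this
    rw [← this]
    congr 1
    refine Fintype.sum_equiv e _ _ (fun i => by simp)
  · rintro ⟨y, hy⟩
    refine ⟨fun i => y (e.symm i), fun j => ?_⟩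
    have := hy (f.symm j)
    rw [← this]
    congr 1
    refine (Fintype.sum_equiv e _ _ (fun i => by simp)).symm

theorem exists_conj (φ ψ : PP R) :
    ∃ θ : PP R, ∀ (M : Type u) [AddCommGroup M] [Module Rᵐᵒᵖ M] (x : M),
      θ.Sat M x ↔ φ.Sat M x ∧ ψ.Sat M x := by
  obtain ⟨θ, hθ⟩ := exists_pp (ι := Fin φ.k ⊕ Fin ψ.k) (κ := Fin φ.m ⊕ Fin ψ.m)
    (Sum.elim φ.a ψ.a)
    (Sum.elim (fun i => Sum.elim (φ.B i) (fun _ => 0)) (fun i => Sum.elim (fun _ => 0) (ψ.B i)))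
  refine ⟨θ, fun M _ _ x => ?_⟩
  rw [hθ]
  unfold PP.Sat
  constructor
  · rintro ⟨y, hy⟩
    refine ⟨⟨fun i => y (Sum.inl i), fun j => ?_⟩, ⟨fun i => y (Sum.inr i), fun j => ?_⟩⟩
    · simpa using hy (Sum.inl j)
    · simpa using hy (Sum.inr j)
  · rintro ⟨⟨y, hy⟩, ⟨z, hz⟩⟩
    refine ⟨Sum.elim y z, fun j => ?_⟩
    rcases j with j | j
    · simpa using hy j
    · simpa using hz j

theorem exists_sum (φ ψ : PP R) :
    ∃ θ : PP R, ∀ (M : Type u) [AddCommGroup M] [Module Rᵐᵒᵖ M] (x : M),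
      θ.Sat M x ↔ ∃ u v : M, φ.Sat M u ∧ ψ.Sat M v ∧ u + v = x := by
  obtain ⟨θ, hθ⟩ := exists_pp (ι := Unit ⊕ (Fin φ.k ⊕ Fin ψ.k)) (κ := Fin φ.m ⊕ Fin ψ.m)
    (Sum.elim (fun _ => 0) ψ.a)
    (Sum.elim (fun _ => Sum.elim φ.a (fun j => - ψ.a j))
      (Sum.elim (fun i => Sum.elim (φ.B i) (fun _ => 0))
        (fun i => Sum.elim (fun _ => 0) (ψ.B i))))
  refine ⟨θ, fun M _ _ x => ?_⟩
  rw [hθ]
  unfold PP.Sat
  constructor
  · rintro ⟨y, hy⟩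
    refine ⟨y (Sum.inl ()), x - y (Sum.inl ()), ⟨fun i => y (Sum.inr (Sum.inl i)), fun j => ?_⟩,
      ⟨fun i => y (Sum.inr (Sum.inr i)), fun j => ?_⟩, by abel⟩
    · simpa using hy (Sum.inl j)
    · have := hy (Sum.inr j)
      simp at this
      rw [smul_sub, ← this]
      abel
  · rintro ⟨u, v, ⟨y, hy⟩, ⟨z, hz⟩, rfl⟩
    refine ⟨Sum.elim (fun _ => u) (Sum.elim y z), fun j => ?_⟩
    rcases j with j | j
    · simpa using hy j
    · have := hz j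
      simp
      rw [← this]
      abel

instance : Lattice (PPLat R) :=
  { (inferInstance : PartialOrder (PPLat R)) with
    inf := fun F G => ⟨F.1 ⊓ G.1, by
      obtain ⟨φ, hφ⟩ := F.2
      obtain ⟨ψ, hψ⟩ := G.2
      obtain ⟨θ, hθ⟩ := exists_conj φ ψ
      refine ⟨θ, fun M x => ?_⟩
      rw [hθ, ← hφ, ← hψ]
      exact AddSubgroup.mem_inf⟩
    sup := fun F G => ⟨F.1 ⊔ G.1, by
      obtain ⟨φ, hφ⟩ := F.2
      obtain ⟨ψ, hψ⟩ := G.2
      obtain ⟨θ, hθ⟩ := exists_sum φ ψ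
      refine ⟨θ, fun M x => ?_⟩
      rw [hθ]
      change x ∈ F.1 M ⊔ G.1 M ↔ _
      rw [AddSubgroup.mem_sup]
      constructor
      · rintro ⟨u, hu, v, hv, h⟩
        exact ⟨u, v, (hφ M u).1 hu, (hψ M v).1 hv, h⟩
      · rintro ⟨u, v, hu, hv, h⟩
        exact ⟨u, (hφ M u).2 hu, v, (hψ M v).2 hv, h⟩⟩
    inf_le_left := fun F G => (inf_le_left : F.1 ⊓ G.1 ≤ F.1)
    inf_le_right := fun F G => (inf_le_right : F.1 ⊓ G.1 ≤ G.1)
    le_inf := fun F G H h1 h2 => (le_inf h1 h2 : F.1 ≤ G.1 ⊓ H.1)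
    le_sup_left := fun F G => (le_sup_left : F.1 ≤ F.1 ⊔ G.1)
    le_sup_right := fun F G => (le_sup_right : G.1 ≤ F.1 ⊔ G.1)
    sup_le := fun F G H h1 h2 => (sup_le h1 h2 : F.1 ⊔ G.1 ≤ H.1) }

theorem le_def {F G : PPLat R} : F ≤ G ↔ ∀ (M : ModuleCat.{u} Rᵐᵒᵖ) (x : M), x ∈ F.1 M → x ∈ G.1 M :=
  Iff.rfl

theorem mem_inf' {F G : PPLat R} {M : ModuleCat.{u} Rᵐᵒᵖ} {x : M} :
    x ∈ (F ⊓ G).1 M ↔ x ∈ F.1 M ∧ x ∈ G.1 M := AddSubgroup.mem_inf

theorem mem_sup' {F G : PPLat R} {M : ModuleCat.{u} Rᵐᵒᵖ} {x : M} :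
    x ∈ (F ⊔ G).1 M ↔ ∃ y ∈ F.1 M, ∃ z ∈ G.1 M, y + z = x := AddSubgroup.mem_sup

instance : IsModularLattice (PPLat R) where
  sup_inf_le_assoc_of_le := by
    intro F G H h
    rw [le_def]
    intro M x hx
    rw [mem_inf', mem_sup'] at hx
    obtain ⟨⟨y, hy, z, hz, rfl⟩, hx⟩ := hx
    rw [mem_sup']
    refine ⟨y, hy, z, mem_inf'.2 ⟨hz, ?_⟩, rfl⟩
    have := AddSubgroup.sub_mem _ hx (h M hy)
    simpa using this

/-- the subgroup `{x : x r ∈ F}` -/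
def pre (r : R) (F : PPLat R) : PPLat R :=
  ⟨fun M => (F.1 M).comap (DistribSMul.toAddMonoidHom M (op r)), by
    obtain ⟨φ, hφ⟩ := F.2
    obtain ⟨θ, hθ⟩ := exists_pp (R := R) (ι := Fin φ.k) (κ := Fin φ.m) (fun j => r * φ.a j) φ.B
    refine ⟨θ, fun M x => ?_⟩
    rw [hθ, AddSubgroup.mem_comap, hφ]
    unfold PP.Sat
    simp [mul_smul, DistribSMul.toAddMonoidHom_apply]⟩

theorem mem_pre {r : R} {F : PPLat R} {M : ModuleCat.{u} Rᵐᵒᵖ} {x : M} :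
    x ∈ (pre r F).1 M ↔ op r • x ∈ F.1 M := Iff.rfl

/-- the subgroup `F r = {y r : y ∈ F}` -/
def img (r : R) (F : PPLat R) : PPLat R :=
  ⟨fun M => (F.1 M).map (DistribSMul.toAddMonoidHom M (op r)), by
    obtain ⟨φ, hφ⟩ := F.2
    obtain ⟨θ, hθ⟩ := exists_pp (R := R) (ι := Unit ⊕ Fin φ.k) (κ := Unit ⊕ Fin φ.m)
      (Sum.elim (fun _ => -1) (fun _ => 0))
      (Sum.elim (fun _ => Sum.elim (fun _ => r) φ.a) (fun i => Sum.elim (fun _ => 0) (φ.B i)))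
    refine ⟨θ, fun M x => ?_⟩
    rw [hθ, AddSubgroup.mem_map]
    constructor
    · rintro ⟨y, hy, rfl⟩
      rw [hφ] at hy
      obtain ⟨z, hz⟩ := hy
      refine ⟨Sum.elim (fun _ => y) z, fun j => ?_⟩
      rcases j with j | j
      · simp [DistribSMul.toAddMonoidHom_apply]
      · simpa using hz j
    · rintro ⟨z, hz⟩
      refine ⟨z (Sum.inl ()), (hφ _ _).2 ⟨fun i => z (Sum.inr i), fun j => ?_⟩, ?_⟩
      · simpa using hz (Sum.inr j)
      · have := hz (Sum.inl ())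
        simp at this
        rw [neg_add_eq_zero] at this
        exact this.symm⟩

theorem mem_img {r : R} {F : PPLat R} {M : ModuleCat.{u} Rᵐᵒᵖ} {x : M} :
    x ∈ (img r F).1 M ↔ ∃ y ∈ F.1 M, op r • y = x := Iff.rfl

instance : OrderBot (PPLat R) where
  bot := ⟨fun _ => ⊥, by
    obtain ⟨θ, hθ⟩ := exists_pp (R := R) (ι := Empty) (κ := Unit) (fun _ => 1) (fun _ _ => 0)
    refine ⟨θ, fun M x => ?_⟩
    rw [hθ, AddSubgroup.mem_bot]
    simp⟩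
  bot_le := by
    intro F
    rw [le_def]
    intro M x hx
    have : x = 0 := hx
    rw [this]
    exact AddSubgroup.zero_mem _

instance : OrderTop (PPLat R) where
  top := ⟨fun _ => ⊤, by
    obtain ⟨θ, hθ⟩ := exists_pp (R := R) (ι := Empty) (κ := Empty) (fun _ => 1) (fun _ _ => 0)
    refine ⟨θ, fun M x => ?_⟩
    rw [hθ]
    simp⟩
  le_top := by
    intro F
    rw [le_def]
    intro M x _
    exact AddSubgroup.mem_top x

theorem mem_bot' {M : ModuleCat.{u} Rᵐᵒᵖ} {x : M} : x ∈ (⊥ : PPLat R).1 M ↔ x = 0 := Iff.rfl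

theorem mem_top' {M : ModuleCat.{u} Rᵐᵒᵖ} {x : M} : x ∈ (⊤ : PPLat R).1 M :=
  AddSubgroup.mem_top x

theorem pre_mono (r : R) {F G : PPLat R} (h : F ≤ G) : pre r F ≤ pre r G :=
  fun M _ hx => h M hx

theorem img_mono (r : R) {F G : PPLat R} (h : F ≤ G) : img r F ≤ img r G := by
  rw [le_def]
  intro M x hx
  obtain ⟨y, hy, rfl⟩ := mem_img.1 hx
  exact mem_img.2 ⟨y, h M hy, rfl⟩

/-- a tree of separated intervals in the pp lattice: `KG(R) = ∞` -/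
theorem KGUndefined_of_tree (f g : List Bool → PPLat R)
    (h0 : ∀ w, f w < g w) (h1 : ∀ w, f w ≤ f (w ++ [false]))
    (h2 : ∀ w, g (w ++ [false]) ≤ f (w ++ [true])) (h3 : ∀ w, g (w ++ [true]) ≤ g w) :
    KGUndefined R := by
  intro α a b ha hb h
  exact tree_no_mdim α f g h0 h1 h2 h3 (mdim_sub (mdim_of_collapsed α h) (ha _) (h0 []).le (hb _))

end lattice

end Run7.h475
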