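import Mathlib
import Pool.Agent.Run7.h475.ClanRep
import Pool.Agent.Run7.h475.KGLat

set_option autoImplicit false

namespace Run7.h475

universe u

open MulOpposite

theorem hom_mem {R : Type u} [Ring R] (F : PPLat R) {M N : ModuleCat.{u} Rᵐᵒᵖ}
    (f : M →ₗ[Rᵐᵒᵖ] N) {x : M} (h : x ∈ F.1 M) : f x ∈ F.1 N := by
  obtain ⟨φ, hφ⟩ := F.2
  rw [hφ] at h ⊢
  obtain ⟨y, hy⟩ := h
  refine ⟨fun i => f (y i), fun j => ?_⟩
  have := congrArg f (hy j)
  simpa using this

namespace ClanData

open BiWord

section ops

variable (C : ClanData) {k : Type u} [Field k] (c : k)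

open Classical in
/-- the invertible element at the vertex `v` used to pass a junction -/
noncomputable def theta (v : C.V) : FreeAlgebra k C.Gen :=
  if h : C.special v then C.fs k ⟨v, h⟩ + c • (C.fe k v - C.fs k ⟨v, h⟩) else C.fe k v

/-- the operator of a letter -/
noncomputable def opL (l : C.Letter) (F : PPLat (C.Alg k)) : PPLat (C.Alg k) :=
  cond l.2 (pre (qmk C k (C.fa k l.1 * C.theta c (C.tgt l.1))) F)
    (img (qmk C k (C.fa k l.1)) (pre (qmk C k (C.theta c (C.src l.1))) F))

/-- the operator of a list of letters -/
noncomputable def opsL (u : List C.Letter) (F : PPLat (C.Alg k)) : PPLat (C.Alg k) :=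
  u.foldr (C.opL c) F

theorem opL_mono (l : C.Letter) {F G : PPLat (C.Alg k)} (h : F ≤ G) : C.opL c l F ≤ C.opL c l G := by
  rcases l with ⟨a, b⟩
  cases b
  · exact img_mono _ (pre_mono _ h)
  · exact pre_mono _ h

theorem opsL_mono (u : List C.Letter) {F G : PPLat (C.Alg k)} (h : F ≤ G) :
    C.opsL c u F ≤ C.opsL c u G := by
  induction u with
  | nil => exact h
  | cons l u ih => exact C.opL_mono c l ih

theorem opsL_append (u v : List C.Letter) (F : PPLat (C.Alg k)) :
    C.opsL c (u ++ v) F = C.opsL c u (C.opsL c v F) := by
  simp [opsL]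

end ops

namespace BiWord

variable {C : ClanData} {S : C.Sides} (B : BiWord C S) {k : Type u} [Field k]

theorem ract_theta_special {c : k} (hc : c ≠ 1) {v : C.V} (hv : C.special v) (f : Sp k) {d : Bool}
    {j : ℤ} (hj : B.vt j = v) : B.ract c (C.theta c v) f (B.el d j) =
      if d = B.smd j then (1 + c) * f (B.el d j) + f (B.el (!d) j) else - c * f (B.el (!d) j) := by
  classical
  have hc' : (1 - c) ≠ 0 := sub_ne_zero.2 (Ne.symm hc)
  have hs : C.special (B.vt j) := by rw [hj]; exact hv
  have e0 : B.ract c (C.theta c v) f = B.sAct c v f + c • (B.eAct v f - B.sAct c v f) := by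
    have h1 : B.ract c (C.theta c v) = B.sAct c v + c • (B.eAct v - B.sAct c v) := by
      rw [← B.ract_s c ⟨v, hv⟩, ← B.ract_e c v]
      unfold theta ract
      rw [dif_pos hv]
      simp
    rw [h1]
    rfl
  have e : ∀ d, (B.el d j = B.el (B.smd j) j) ↔ d = B.smd j := by
    intro d
    constructor
    · exact fun h => B.el_special_inj hs h
    · rintro rfl; rfl
  have e1 : f (B.el true j) + f (B.el false j) = f (B.el d j) + f (B.el (!d) j) := by
    cases d
    · simp [add_comm]
    · simp
  have e2 : B.sAct c v f (B.el d j) = (f (B.el d j) + f (B.el (!d) j)) *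
      (if d = B.smd j then (1 - c)⁻¹ else - c * (1 - c)⁻¹) := by
    rw [sAct_apply]
    simp only [el_fst, hj, if_true, e, e1]
  have e3 : B.eAct v f (B.el d j) = f (B.el d j) := by
    rw [eAct_apply]
    simp only [el_fst, hj, if_true]
  rw [e0]
  simp only [Pi.add_apply, Pi.smul_apply, Pi.sub_apply, smul_eq_mul, e2, e3]
  by_cases h : d = B.smd j
  · simp only [h, if_true]
    field_simp
    ring
  · simp only [h, if_false]
    field_simp
    ring

theorem ract_theta_ns {c : k} {v : C.V} (hv : ¬ C.special v) (f : Sp k) {d : Bool}
    {j : ℤ} (hj : B.vt j = v) : B.ract c (C.theta c v) f (B.el d j) = f (B.el d j) := by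
  unfold theta
  rw [dif_neg hv, ract_e, eAct_apply]
  simp only [el_fst, hj, if_true]

/-- passing through a junction -/
theorem theta_step {c : k} (hc0 : c ≠ 0) (hc : c ≠ 1) (u : List C.Letter) (g : Sp k) (J : ℤ)
    (d : Bool)
    (hA : ∀ d' j', (∀ l ∈ u.head?, SameStart S l (B.rd d' j')) →
      B.ract c (C.theta c (B.vt J)) g (B.el d' j') ≠ 0 → Low u (B.rdSeq d' j'))
    (hu : ∀ l ∈ u.head?, SameStart S l (B.rd d J)) (hg : g (B.el (!d) J) ≠ 0) :
    Low u (B.rdSeq d J) := by
  by_cases hs : C.special (B.vt J)
  · by_cases hq : B.ract c (C.theta c (B.vt J)) g (B.el d J) = 0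
    · -- `el d J` is the smaller element
      rw [B.ract_theta_special hc hs g rfl] at hq
      by_cases hd : d = B.smd J
      · rw [if_pos hd] at hq
        have hg2 : g (B.el d J) ≠ 0 := by
          intro h0
          rw [h0, mul_zero, zero_add] at hq
          exact hg hq
        have hne : (!d) ≠ B.smd J := by rw [← hd]; cases d <;> simp
        have h1 : Low u (B.rdSeq (!d) J) := by
          apply hA
          · intro l hl
            have h2 := hu l hl
            refine ⟨h2.1.trans ?_, h2.2.trans ?_⟩
            · rw [B.start_rd, B.start_rd]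
            · rw [startS_special S (by rw [B.start_rd]; exact hs),
                startS_special S (by rw [B.start_rd]; exact hs)]
          · rw [B.ract_theta_special hc hs g rfl, if_neg hne, Bool.not_not]
            exact mul_ne_zero (neg_ne_zero.2 hc0) hg2
        refine low_mono S u (B.isWalk_rdSeq d J) (B.isWalk_rdSeq (!d) J) ?_ ?_ h1
        · rw [rdSeq_zero, rdSeq_zero]
          refine ⟨by rw [B.start_rd, B.start_rd], ?_⟩
          rw [startS_special S (by rw [B.start_rd]; exact hs),
            startS_special S (by rw [B.start_rd]; exact hs)]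
        · rw [hd]; exact B.smd_spec J
      · rw [if_neg hd] at hq
        exact absurd hq (mul_ne_zero (neg_ne_zero.2 hc0) hg)
    · exact hA d J hu hq
  · apply hA d J hu
    rw [B.ract_theta_ns hs g rfl]
    rwa [B.el_not_special hs] at hg ⊢

/-- the module as an object of the category of modules -/
noncomputable abbrev MM (c : k) (hc : c ≠ 1) : ModuleCat.{u} (C.Alg k)ᵐᵒᵖ :=
  ModuleCat.of (C.Alg k)ᵐᵒᵖ (B.WMod c hc)

theorem mem_opL_true {c : k} {hc : c ≠ 1} {a : C.A} {F : PPLat (C.Alg k)} {f : B.WMod c hc} :
    f ∈ (C.opL c (a, true) F).1 (B.MM c hc) ↔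
      (B.ract c (C.theta c (C.tgt a)) (B.act a f) : B.WMod c hc) ∈ F.1 (B.MM c hc) := by
  change op (qmk C k (C.fa k a * C.theta c (C.tgt a))) • f ∈ F.1 (B.MM c hc) ↔ _
  rw [smul_def, ract_mul, ract_a]
  exact Iff.rfl

theorem mem_opL_false {c : k} {hc : c ≠ 1} {a : C.A} {F : PPLat (C.Alg k)} {f : B.WMod c hc} :
    f ∈ (C.opL c (a, false) F).1 (B.MM c hc) ↔
      ∃ g : B.WMod c hc, (B.ract c (C.theta c (C.src a)) g : B.WMod c hc) ∈ F.1 (B.MM c hc) ∧
        (B.act a g : B.WMod c hc) = f := by
  change (∃ y : B.WMod c hc, (op (qmk C k (C.theta c (C.src a))) • y ∈ F.1 (B.MM c hc)) ∧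
    op (qmk C k (C.fa k a)) • y = f) ↔ _
  simp only [smul_def, ract_a]
  exact Iff.rfl

theorem claimA {c : k} (hc0 : c ≠ 0) (hc : c ≠ 1) : ∀ (u : List C.Letter),
    u.IsChain (Comp S) → ∀ f : B.WMod c hc, f ∈ (C.opsL c u ⊥).1 (B.MM c hc) →
    ∀ d j, (∀ l ∈ u.head?, SameStart S l (B.rd d j)) → (f : Sp k) (B.el d j) ≠ 0 →
      Low u (B.rdSeq d j) := by
  intro u
  induction u with
  | nil =>
    intro _ f hf d j _ h
    have : f = 0 := hf
    rw [this] at h
    exact absurd rfl h
  | cons l u ih =>
    intro hch f hf d j hl h
    have hl' : SameStart S l (B.rd d j) := hl l (by simp)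
    have hch' := hch.tail
    have hhead : B.rd d j = l → ∀ l' ∈ u.head?, SameStart S l' (B.rd d (nx d j)) := by
      intro he l' hl'
      have h1 : Comp S l l' := by
        cases u with
        | nil => simp at hl'
        | cons x u =>
          simp at hl'
          subst hl'
          rw [List.isChain_cons_cons] at hch
          exact hch.1
      have h2 := B.comp_rd d j
      rw [he] at h2
      exact h1.sameStart S h2
    rcases l with ⟨a, b⟩
    cases b
    · -- inverse letter
      change f ∈ (C.opL c (a, false) _).1 (B.MM c hc) at hf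
      rw [mem_opL_false] at hf
      obtain ⟨g, hg, rfl⟩ := hf
      obtain ⟨d', j', h1, h2, h3⟩ := B.act_ne h
      have hj : j' = j := by
        have := congrArg Prod.fst h1
        simpa [el_fst] using this.symm
      subst hj
      have hd : d' = d := by
        by_cases hs : C.special (B.vt j')
        · exact (B.el_special_inj hs h1).symm
        · by_contra hne
          have hd' : d' = !d := by revert hne; cases d' <;> cases d <;> simp
          apply B.side_ne' hs d
          rw [← hd', h2]
          exact hl'.2.symm
      subst hd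
      right
      refine ⟨by rw [rdSeq_zero]; exact h2, ?_⟩
      rw [tl_rdSeq]
      have hv : C.src a = B.vt (nx d' j') := by
        rw [← B.stop_rd, h2]; rfl
      rw [hv] at hg
      exact B.theta_step hc0 hc u g (nx d' j') d' (fun d2 j2 hh => ih hch' _ hg d2 j2 hh)
        (hhead h2) h3
    · -- direct letter
      change f ∈ (C.opL c (a, true) _).1 (B.MM c hc) at hf
      rw [mem_opL_true] at hf
      by_cases hsgn : (B.rd d j).2 = false
      · left
        rw [rdSeq_zero]
        exact ⟨hsgn, rfl⟩
      · have he : B.rd d j = (a, true) := (hl'.eq S (by simp only; simpa using hsgn)).symm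
        right
        refine ⟨by rw [rdSeq_zero]; exact he, ?_⟩
        rw [tl_rdSeq]
        have hv : C.tgt a = B.vt (nx d j) := by
          rw [← B.stop_rd, he]; rfl
        rw [hv] at hf
        refine B.theta_step hc0 hc u _ (nx d j) d (fun d2 j2 hh => ih hch' _ hf d2 j2 hh)
          (hhead he) ?_
        have h2 : B.rd (!d) (nx d j) = (a, false) := by rw [rd_nx, he]; rfl
        rw [B.act_el h2, Bool.not_not, nx_nx]
        exact h

/-- basis elements -/
noncomputable def dl (x : ℤ × Bool) : Sp k := Pi.single x 1

theorem dl_self (x : ℤ × Bool) : (dl x : Sp k) x = 1 := by simp [dl]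

theorem dl_ne {x y : ℤ × Bool} (h : (dl x : Sp k) y ≠ 0) : y = x := by
  by_contra hne
  exact h (by simp [dl, hne])

theorem act_dl {a : C.A} {d : Bool} {j : ℤ} (h : B.rd d j = (a, true)) :
    B.act a (dl (B.el d j) : Sp k) = dl (B.el (!d) (nx d j)) := by
  have h2 : B.rd (!d) (nx d j) = (a, false) := by rw [rd_nx, h]; rfl
  funext y
  by_cases hy : y = B.el (!d) (nx d j)
  · rw [hy, B.act_el h2, Bool.not_not, nx_nx, dl_self, dl_self]
  · have h3 : (dl (B.el (!d) (nx d j)) : Sp k) y = 0 := by
      by_contra h4
      exact hy (dl_ne h4)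
    rw [h3]
    by_contra h4
    obtain ⟨d', j', h5, h6, h7⟩ := B.act_ne h4
    have h8 := dl_ne h7
    have h9 : nx d' j' = j := by
      have := congrArg Prod.fst h8
      simpa [el_fst] using this
    have h10 : B.rd (!d') j = (a, true) := by
      rw [← h9, rd_nx, h6]; rfl
    rw [h9] at h8
    have h11 : (!d') = d := by
      by_cases hs : C.special (B.vt j)
      · exact B.el_special_inj hs h8
      · by_contra hne
        have h12 : (!d') = !d := by revert hne; cases d' <;> cases d <;> simp
        rw [h12] at h10
        exact B.side_ne' hs d (by rw [h, h10])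
    apply hy
    rw [h5]
    have h13 : j' = nx d j := by
      rw [← h11, ← h9, nx_nx]
    rw [h13, ← h11, Bool.not_not]

theorem act_dl_zero {a : C.A} {d : Bool} {j : ℤ} (h : SameStart S (a, true) (B.rd d j))
    (h2 : (B.rd d j).2 = false) : B.act a (dl (B.el d j) : Sp k) = 0 := by
  funext y
  by_contra h4
  obtain ⟨d', j', h5, h6, h7⟩ := B.act_ne h4
  have h8 := dl_ne h7
  have h9 : nx d' j' = j := by
    have := congrArg Prod.fst h8
    simpa [el_fst] using this
  have h10 : B.rd (!d') j = (a, true) := by
    rw [← h9, rd_nx, h6]; rfl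
  rw [h9] at h8
  have h11 : (!d') = d := by
    by_cases hs : C.special (B.vt j)
    · exact B.el_special_inj hs h8
    · by_contra hne
      have h12 : (!d') = !d := by revert hne; cases d' <;> cases d <;> simp
      rw [h12] at h10
      exact B.side_ne' hs d (by rw [h10]; exact h.2.symm)
  rw [h11] at h10
  rw [h10] at h2
  simp at h2

omit [Field k] in
theorem ext_el {f g : Sp k} (h : ∀ d j, f (B.el d j) = g (B.el d j))
    (h' : ∀ j, ¬ C.special (B.vt j) → f (j, true) = g (j, true)) : f = g := by
  funext x
  rcases x with ⟨j, b⟩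
  by_cases hs : C.special (B.vt j)
  · have := h (!b) j
    rwa [B.el_special hs, Bool.not_not] at this
  · cases b
    · have := h true j
      rwa [B.el_not_special hs] at this
    · exact h' j hs

theorem ract_theta_other {c : k} {v : C.V} (f : Sp k) {x : ℤ × Bool} (hx : B.vt x.1 ≠ v) :
    B.ract c (C.theta c v) f x = 0 := by
  classical
  unfold theta
  split_ifs with hv
  · have h1 : B.ract c (C.fs k ⟨v, hv⟩ + c • (C.fe k v - C.fs k ⟨v, hv⟩)) =
      B.sAct c v + c • (B.eAct v - B.sAct c v) := by
      rw [← B.ract_s c ⟨v, hv⟩, ← B.ract_e c v]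
      unfold ract
      simp
    rw [h1]
    change B.sAct c v f x + c * (B.eAct v f x - B.sAct c v f x) = 0
    rw [sAct_apply, eAct_apply, if_neg hx, if_neg hx]
    ring
  · rw [ract_e, eAct_apply, if_neg hx]

/-- scalar multiplication -/
def sc (r : k) (f : Sp k) : Sp k := r • f

/-- addition -/
def ad (f g : Sp k) : Sp k := f + g

/-- scalar multiplication is a homomorphism -/
noncomputable def smulHom (c : k) (hc : c ≠ 1) (r : k) :
    B.MM c hc →ₗ[(C.Alg k)ᵐᵒᵖ] B.MM c hc where
  toFun f := sc r f
  map_add' f g := smul_add (M := k) (A := Sp k) r f g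
  map_smul' x f := by
    change sc r ((B.rep c hc x.unop).unop f) = (B.rep c hc x.unop).unop (sc r f)
    exact (LinearMap.map_smul _ _ _).symm

theorem smul_mem {c : k} {hc : c ≠ 1} (F : PPLat (C.Alg k)) (r : k) {f : B.WMod c hc}
    (hf : f ∈ F.1 (B.MM c hc)) : (sc r f : B.WMod c hc) ∈ F.1 (B.MM c hc) :=
  hom_mem F (B.smulHom c hc r) hf

theorem add_mem' {c : k} {hc : c ≠ 1} (F : PPLat (C.Alg k)) {f g : B.WMod c hc}
    (hf : f ∈ F.1 (B.MM c hc)) (hg : g ∈ F.1 (B.MM c hc)) :
    (ad f g : B.WMod c hc) ∈ F.1 (B.MM c hc) :=
  AddSubgroup.add_mem _ hf hg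

/-- passing through a junction, second form -/
theorem theta_dl {c : k} (hc : c ≠ 1) (u : List C.Letter) (J : ℤ) (d : Bool)
    (F : PPLat (C.Alg k))
    (hB : ∀ d', (∀ l ∈ u.head?, SameStart S l (B.rd d' J)) → ¬ High u (B.rdSeq d' J) →
      ((dl (B.el d' J) : Sp k) : B.WMod c hc) ∈ F.1 (B.MM c hc))
    (hu : ∀ l ∈ u.head?, SameStart S l (B.rd d J)) (hH : ¬ High u (B.rdSeq d J)) :
    (B.ract c (C.theta c (B.vt J)) (dl (B.el (!d) J)) : B.WMod c hc) ∈ F.1 (B.MM c hc) := by
  have hq := hB d hu hH
  by_cases hs : C.special (B.vt J)
  · have hne : ∀ d', B.el d' J ≠ B.el (!d') J := by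
      intro d' h
      have := B.el_special_inj hs h
      cases d' <;> simp at this
    have hz : ∀ d', (dl (B.el d' J) : Sp k) (B.el (!d') J) = 0 := by
      intro d'
      by_contra h
      exact hne d' (dl_ne h).symm
    have hz' : ∀ d', (dl (B.el (!d') J) : Sp k) (B.el d' J) = 0 := by
      intro d'
      by_contra h
      exact hne d' (dl_ne h)
    have hfar : ∀ d' d'' j', j' ≠ J → (dl (B.el d' J) : Sp k) (B.el d'' j') = 0 := by
      intro d' d'' j' hj
      by_contra h
      have := congrArg Prod.fst (dl_ne h)
      exact hj this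
    by_cases hd : d = B.smd J
    · -- the arriving element is the larger one
      have hne2 : (!d) ≠ B.smd J := by rw [← hd]; cases d <;> simp
      have e : B.ract c (C.theta c (B.vt J)) (dl (B.el (!d) J)) = (dl (B.el d J) : Sp k) := by
        apply B.ext_el
        · intro d' j'
          by_cases hv : B.vt j' = B.vt J
          · have hs' : C.special (B.vt J) := hs
            rw [B.ract_theta_special hc hs _ hv]
            by_cases hj : j' = J
            · subst hj
              by_cases h1 : d' = d
              · subst h1
                rw [if_pos hd, hz', dl_self, dl_self]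
                ring
              · have h2 : d' = !d := by revert h1; cases d' <;> cases d <;> simp
                subst h2
                rw [if_neg hne2, Bool.not_not, hz', hz]
                ring
            · rw [hfar _ _ _ hj, hfar _ _ _ hj, hfar _ _ _ hj]
              simp
          · rw [B.ract_theta_other _ (by simpa [el_fst] using hv)]
            have hj : j' ≠ J := by rintro rfl; exact hv rfl
            rw [hfar _ _ _ hj]
        · intro j' hj'
          have hv : B.vt j' ≠ B.vt J := by intro h; exact hj' (by rw [h]; exact hs)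
          rw [B.ract_theta_other _ (by simpa using hv)]
          by_contra h
          have h1 := congrArg Prod.fst (dl_ne (Ne.symm h))
          have h1 : j' = J := h1
          exact hv (by rw [h1])
      rw [e]
      exact hq
    · have hd2 : (!d) = B.smd J := by
        revert hd; cases d <;> cases B.smd J <;> simp
      have hp : ((dl (B.el (!d) J) : Sp k) : B.WMod c hc) ∈ F.1 (B.MM c hc) := by
        apply hB
        · intro l hl
          have h2 := hu l hl
          refine ⟨h2.1.trans ?_, h2.2.trans ?_⟩
          · rw [B.start_rd, B.start_rd]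
          · rw [startS_special S (by rw [B.start_rd]; exact hs),
              startS_special S (by rw [B.start_rd]; exact hs)]
        · intro hH'
          apply hH
          refine high_mono S u (B.isWalk_rdSeq (!d) J) (B.isWalk_rdSeq d J) ?_ ?_ hH'
          · rw [rdSeq_zero, rdSeq_zero]
            refine ⟨by rw [B.start_rd, B.start_rd], ?_⟩
            rw [startS_special S (by rw [B.start_rd]; exact hs),
              startS_special S (by rw [B.start_rd]; exact hs)]
          · have := B.smd_spec J
            rw [← hd2, Bool.not_not] at this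
            exact this
      have e : B.ract c (C.theta c (B.vt J)) (dl (B.el (!d) J)) =
          ad (sc (1 + c) (dl (B.el (!d) J))) (sc (-c) (dl (B.el d J))) := by
        apply B.ext_el
        · intro d' j'
          simp only [ad, sc, Pi.add_apply, Pi.smul_apply, smul_eq_mul]
          by_cases hv : B.vt j' = B.vt J
          · rw [B.ract_theta_special hc hs _ hv]
            by_cases hj : j' = J
            · subst hj
              by_cases h1 : d' = d
              · subst h1
                rw [if_neg hd, hz', dl_self, dl_self]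
                ring
              · have h2 : d' = !d := by revert h1; cases d' <;> cases d <;> simp
                subst h2
                rw [if_pos hd2, Bool.not_not, hz', hz, dl_self]
                ring
            · rw [hfar _ _ _ hj, hfar _ _ _ hj, hfar _ _ _ hj]
              simp
          · rw [B.ract_theta_other _ (by simpa [el_fst] using hv)]
            have hj : j' ≠ J := by rintro rfl; exact hv rfl
            rw [hfar _ _ _ hj, hfar _ _ _ hj]
            ring
        · intro j' hj'
          have hv : B.vt j' ≠ B.vt J := by intro h; exact hj' (by rw [h]; exact hs)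
          rw [B.ract_theta_other _ (by simpa using hv)]
          simp only [ad, sc, Pi.add_apply, Pi.smul_apply, smul_eq_mul]
          have h0 : ∀ d', (dl (B.el d' J) : Sp k) (j', true) = 0 := by
            intro d'
            by_contra h
            have h1 := congrArg Prod.fst (dl_ne h)
            have h1 : j' = J := h1
            exact hv (by rw [h1])
          rw [h0, h0]
          ring
      rw [e]
      exact B.add_mem' F (B.smul_mem F _ hp) (B.smul_mem F _ hq)
  · have e : B.ract c (C.theta c (B.vt J)) (dl (B.el (!d) J)) = (dl (B.el d J) : Sp k) := by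
      apply B.ext_el
      · intro d' j'
        by_cases hv : B.vt j' = B.vt J
        · rw [B.ract_theta_ns hs _ hv, B.el_not_special hs, B.el_not_special hs]
        · rw [B.ract_theta_other _ (by simpa [el_fst] using hv)]
          by_contra h
          have h1 := congrArg Prod.fst (dl_ne (Ne.symm h))
          have h1 : j' = J := h1
          exact hv (by rw [h1])
      · intro j' hj'
        unfold theta
        rw [dif_neg hs, ract_e, eAct_apply]
        split_ifs with hv
        · rw [B.el_not_special hs, B.el_not_special hs]
        · by_contra h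
          have h1 := congrArg Prod.fst (dl_ne (Ne.symm h))
          have h1 : j' = J := h1
          exact hv (by simp [h1])
    rw [e]
    exact hq

theorem claimB {c : k} (hc : c ≠ 1) : ∀ (u : List C.Letter),
    u.IsChain (Comp S) → ∀ d j, (∀ l ∈ u.head?, SameStart S l (B.rd d j)) →
      ¬ High u (B.rdSeq d j) →
      ((dl (B.el d j) : Sp k) : B.WMod c hc) ∈ (C.opsL c u ⊤).1 (B.MM c hc) := by
  intro u
  induction u with
  | nil => intro _ d j _ _; exact mem_top'
  | cons l u ih =>
    intro hch d j hl hH
    have hl' : SameStart S l (B.rd d j) := hl l (by simp)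
    have hch' := hch.tail
    have hhead : B.rd d j = l → ∀ l' ∈ u.head?, SameStart S l' (B.rd d (nx d j)) := by
      intro he l' hl'
      have h1 : Comp S l l' := by
        cases u with
        | nil => simp at hl'
        | cons x u =>
          simp at hl'
          subst hl'
          rw [List.isChain_cons_cons] at hch
          exact hch.1
      have h2 := B.comp_rd d j
      rw [he] at h2
      exact h1.sameStart S h2
    have hstep : B.rd d j = l →
        (B.ract c (C.theta c (B.vt (nx d j))) (dl (B.el (!d) (nx d j))) : B.WMod c hc) ∈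
          (C.opsL c u ⊤).1 (B.MM c hc) := by
      intro he
      apply B.theta_dl hc u (nx d j) d (C.opsL c u ⊤) (fun d' h1 h2 => ih hch' d' _ h1 h2)
        (hhead he)
      intro h
      apply hH
      right
      refine ⟨by rw [rdSeq_zero]; exact he, ?_⟩
      rw [tl_rdSeq]
      exact h
    rcases l with ⟨a, b⟩
    cases b
    · -- inverse letter
      change _ ∈ (C.opL c (a, false) _).1 (B.MM c hc)
      rw [mem_opL_false]
      have hsgn : (B.rd d j).2 = false := by
        by_contra h
        apply hH
        left
        rw [rdSeq_zero]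
        exact ⟨by simpa using h, rfl⟩
      have he : B.rd d j = (a, false) := (hl'.eq S hsgn.symm).symm
      refine ⟨(dl (B.el (!d) (nx d j)) : Sp k), ?_, ?_⟩
      · have hv : C.src a = B.vt (nx d j) := by
          rw [← B.stop_rd, he]; rfl
        rw [hv]
        exact hstep he
      · have h2 : B.rd (!d) (nx d j) = (a, true) := by rw [rd_nx, he]; rfl
        have := B.act_dl (k := k) h2
        rw [Bool.not_not, nx_nx] at this
        exact this
    · change _ ∈ (C.opL c (a, true) _).1 (B.MM c hc)
      rw [mem_opL_true]
      by_cases hsgn : (B.rd d j).2 = false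
      · rw [B.act_dl_zero hl' hsgn]
        rw [map_zero]
        exact AddSubgroup.zero_mem _
      · have he : B.rd d j = (a, true) := (hl'.eq S (by simp only; simpa using hsgn)).symm
        rw [B.act_dl he]
        have hv : C.tgt a = B.vt (nx d j) := by
          rw [← B.stop_rd, he]; rfl
        rw [hv]
        exact hstep he

/-- the pp pair of a word which occurs in the bi-infinite word is open on its module -/
theorem nondeg {c : k} (hc0 : c ≠ 0) (hc : c ≠ 1) (u : List C.Letter)
    (hu : u.IsChain (Comp S)) (j : ℤ) (h : ∀ i (hi : i < u.length), B.W (j + 1 + i) = u[i]) :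
    ¬ C.opsL c u ⊤ ≤ C.opsL c u (⊥ : PPLat (C.Alg k)) := by
  intro hle
  have hX : ∀ i (hi : i < u.length), B.rdSeq true j i = u[i] := by
    intro i hi
    rw [← h i hi]
    simp only [rdSeq, pos, cond_true, rd]
    congr 1
    ring
  have hhead : ∀ l ∈ u.head?, SameStart S l (B.rd true j) := by
    intro l hl
    cases u with
    | nil => simp at hl
    | cons x u =>
      simp at hl
      subst hl
      have := hX 0 (by simp)
      rw [rdSeq_zero] at this
      rw [this]
      exact ⟨rfl, rfl⟩
  obtain ⟨h1, h2⟩ := not_low_self u hX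
  have h3 := B.claimB hc u hu true j hhead h2
  have h4 := hle (B.MM c hc) h3
  exact h1 (B.claimA hc0 hc u hu _ h4 true j hhead (by rw [dl_self]; exact one_ne_zero))

end BiWord

end ClanData

end Run7.h475
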