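import Mathlib

set_option autoImplicit false

namespace Run7.h475

universe u

/-- `f` is an epimorphism in the category of rings (for instance a surjective homomorphism or a
universal localisation). -/
def IsRingEpi {T S : Type u} [Ring T] [Ring S] (f : T →+* S) : Prop :=
  ∀ (A : Type u) [Ring A] (g h : S →+* A), g.comp f = h.comp f → g = h

/-- `LiesOver R A`: the ring `A` can be obtained from the ring `R` by finitely many steps, where one
step replaces a ring `R`
* by the target `A` of a ring epimorphism `R → A` (a factor ring, an isomorphic ring, a universal
  localisation, …),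
* by a corner ring `e R e`, where `e` is an idempotent of `R`,
* by a matrix ring `Mₙ(R)`,
* by a ring `A` with a homomorphism `i : A → R` such that `A` is a direct summand of `R` as an
  `A`-`A`-bimodule: there is an additive map `r : R → A` with `r (i a * x * i b) = a * r x * b`
  and `r 1 = 1` (for instance the component `R₁` of a ring graded by a group, so `A ⊆ A * G` for a
  skew group ring `A * G`). -/
inductive LiesOver : (R : Type u) → [Ring R] → (A : Type u) → [Ring A] → Prop
  | epi (R A : Type u) [Ring R] [Ring A] (f : R →+* A) (hf : IsRingEpi f) : LiesOver R A
  | corner (R : Type u) [Ring R] (e : R) (he : IsIdempotentElem e) : LiesOver R he.Corner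
  | matrix (R : Type u) [Ring R] (n : ℕ) : LiesOver R (Matrix (Fin n) (Fin n) R)
  | split (R A : Type u) [Ring R] [Ring A] (i : A →+* R) (r : R →+ A)
      (hr : ∀ (a : A) (x : R) (b : A), r (i a * x * i b) = a * r x * b) (hr1 : r 1 = 1) :
      LiesOver R A
  | trans (R S A : Type u) [Ring R] [Ring S] [Ring A] (h : LiesOver R S) (h' : LiesOver S A) :
      LiesOver R A

end Run7.h475
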