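import Mathlib
import Pool.Agent.Run7.h475.KGLat

set_option autoImplicit false

namespace Run7.h475

open MulOpposite

universe u

/-- the pp lattice of `R` contains a binary tree of separated nontrivial intervals -/
def HasTree (R : Type u) [Ring R] : Prop :=
  ∃ f g : List Bool → PPLat R, (∀ w, f w < g w) ∧ (∀ w, f w ≤ f (w ++ [false])) ∧
    (∀ w, g (w ++ [false]) ≤ f (w ++ [true])) ∧ ∀ w, g (w ++ [true]) ≤ g w

theorem HasTree.kg {R : Type u} [Ring R] (h : HasTree R) : KGUndefined R := by
  obtain ⟨f, g, h0, h1, h2, h3⟩ := h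
  exact KGUndefined_of_tree f g h0 h1 h2 h3

section cls

variable {R : Type u} [Ring R] (P : ModuleCat.{u} Rᵐᵒᵖ → Prop)

/-- comparison on the modules of the class -/
def LeOn (F G : PPLat R) : Prop := ∀ M, P M → F.1 M ≤ G.1 M

/-- equality on the modules of the class -/
def EqOn (F G : PPLat R) : Prop := ∀ M, P M → F.1 M = G.1 M

/-- force `[a, b]` into `[lo, hi]` -/
def child (lo hi a b : PPLat R) : PPLat R × PPLat R :=
  ((a ⊔ lo) ⊓ hi, (b ⊔ ((a ⊔ lo) ⊓ hi)) ⊓ hi)

theorem child_le {lo hi : PPLat R} (h : lo ≤ hi) (a b : PPLat R) :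
    lo ≤ (child lo hi a b).1 ∧ (child lo hi a b).1 ≤ (child lo hi a b).2 ∧
      (child lo hi a b).2 ≤ hi := by
  unfold child
  refine ⟨le_inf le_sup_right h, le_inf le_sup_right inf_le_right, inf_le_right⟩

theorem sup_apply (F G : PPLat R) (M : ModuleCat.{u} Rᵐᵒᵖ) : (F ⊔ G).1 M = F.1 M ⊔ G.1 M := rfl

theorem inf_apply (F G : PPLat R) (M : ModuleCat.{u} Rᵐᵒᵖ) : (F ⊓ G).1 M = F.1 M ⊓ G.1 M := rfl

theorem child_eq {lo hi a b : PPLat R} (h1 : LeOn P lo a) (h2 : LeOn P a b) (h3 : LeOn P b hi) :
    EqOn P (child lo hi a b).1 a ∧ EqOn P (child lo hi a b).2 b := by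
  have e1 : EqOn P (child lo hi a b).1 a := by
    intro M hM
    change ((a ⊔ lo) ⊓ hi).1 M = a.1 M
    rw [inf_apply, sup_apply, sup_eq_left.2 (h1 M hM), inf_eq_left.2 ((h2 M hM).trans (h3 M hM))]
  refine ⟨e1, ?_⟩
  intro M hM
  have e2 := e1 M hM
  change ((a ⊔ lo) ⊓ hi).1 M = a.1 M at e2
  change ((b ⊔ ((a ⊔ lo) ⊓ hi)) ⊓ hi).1 M = b.1 M
  rw [inf_apply, sup_apply, e2, sup_eq_left.2 (h2 M hM), inf_eq_left.2 (h3 M hM)]

variable (f g : List Bool → PPLat R)

/-- corrected tree, indexed by reversed words -/
def corr : List Bool → PPLat R × PPLat R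
  | [] => (f [], f [] ⊔ g [])
  | false :: v => child (corr v).1 (corr v).2 (f (v.reverse ++ [false])) (g (v.reverse ++ [false]))
  | true :: v => child (child (corr v).1 (corr v).2 (f (v.reverse ++ [false]))
      (g (v.reverse ++ [false]))).2 (corr v).2 (f (v.reverse ++ [true])) (g (v.reverse ++ [true]))

theorem corr_le : ∀ v, (corr f g v).1 ≤ (corr f g v).2
  | [] => le_sup_left
  | false :: v => (child_le (corr_le v) _ _).2.1
  | true :: v => (child_le (child_le (corr_le v) _ _).2.2 _ _).2.1

/-- a binary tree which is separated on a class of modules and whose intervals are open on modules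
of the class gives a binary tree of separated intervals -/
theorem HasTree.of_class (h0 : ∀ w, LeOn P (f w) (g w)) (h0' : ∀ w, ¬ LeOn P (g w) (f w))
    (h1 : ∀ w, LeOn P (f w) (f (w ++ [false])))
    (h2 : ∀ w, LeOn P (g (w ++ [false])) (f (w ++ [true])))
    (h3 : ∀ w, LeOn P (g (w ++ [true])) (g w)) : HasTree R := by
  have key : ∀ v, EqOn P (corr f g v).1 (f v.reverse) ∧ EqOn P (corr f g v).2 (g v.reverse) := by
    intro v
    induction v with
    | nil =>
      refine ⟨fun _ _ => rfl, fun M hM => ?_⟩
      change (f [] ⊔ g []).1 M = (g []).1 M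
      rw [sup_apply, sup_eq_right.2 (h0 [] M hM)]
    | cons b v ih =>
      have a1 : LeOn P (corr f g v).1 (f (v.reverse ++ [false])) := fun M hM => by
        rw [ih.1 M hM]; exact h1 _ M hM
      have a2 : LeOn P (g (v.reverse ++ [true])) (corr f g v).2 := fun M hM => by
        rw [ih.2 M hM]; exact h3 _ M hM
      have a3 : LeOn P (g (v.reverse ++ [false])) (corr f g v).2 := fun M hM =>
        ((h2 _ M hM).trans (h0 _ M hM)).trans (a2 M hM)
      have c0 := child_eq P a1 (h0 _) a3
      cases b
      · rw [List.reverse_cons]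
        exact c0
      · rw [List.reverse_cons]
        refine child_eq P ?_ (h0 _) a2
        intro M hM
        rw [c0.2 M hM]
        exact h2 _ M hM
  refine ⟨fun w => (corr f g w.reverse).1, fun w => (corr f g w.reverse).2, ?_, ?_, ?_, ?_⟩
  · intro w
    refine lt_of_le_not_ge (corr_le f g _) ?_
    intro hle
    apply h0' w
    intro M hM
    have k := key w.reverse
    rw [List.reverse_reverse] at k
    rw [← k.1 M hM, ← k.2 M hM]
    exact hle M
  · intro w
    simp only [List.reverse_append, List.reverse_cons, List.reverse_nil, List.nil_append,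
      List.singleton_append]
    exact (child_le (corr_le f g _) _ _).1
  · intro w
    simp only [List.reverse_append, List.reverse_cons, List.reverse_nil, List.nil_append,
      List.singleton_append]
    exact (child_le (child_le (corr_le f g _) _ _).2.2 _ _).1
  · intro w
    simp only [List.reverse_append, List.reverse_cons, List.reverse_nil, List.nil_append,
      List.singleton_append]
    exact (child_le (child_le (corr_le f g _) _ _).2.2 _ _).2.2

end cls

end Run7.h475
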