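import Mathlib
import Pool.Agent.Run7.h475.Tree
import Pool.Agent.Run7.h475.OverDefs

set_option autoImplicit false

namespace Run7.h475

open MulOpposite

universe u v

section epi

variable {T S : Type u} [Ring T] [Ring S] (φ : T →+* S)

/-- a ring homomorphism into the opposite of an endomorphism ring -/
def conjHom {E : Type u} [Ring E] (g0 : Sᵐᵒᵖ →+* E) (x y : E) (hxy : x * y = 1) (hyx : y * x = 1) :
    S →+* Eᵐᵒᵖ where
  toFun s := op (x * g0 (op s) * y)
  map_one' := by simp [hxy]
  map_mul' a b := by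
    change op (x * g0 (op b * op a) * y) = op (x * g0 (op b) * y * (x * g0 (op a) * y))
    rw [map_mul]
    congr 1
    calc x * (g0 (op b) * g0 (op a)) * y = x * g0 (op b) * 1 * g0 (op a) * y := by noncomm_ring
      _ = x * g0 (op b) * (y * x) * g0 (op a) * y := by rw [hyx]
      _ = x * g0 (op b) * y * (x * g0 (op a) * y) := by noncomm_ring
  map_zero' := by simp
  map_add' a b := by
    rw [op_add, map_add, mul_add, add_mul, op_add]

/-- the shear of `M × N` along `f` -/
def shear {M N : Type u} [AddCommGroup M] [AddCommGroup N] (f : M →+ N) : AddMonoid.End (M × N) where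
  toFun p := (p.1, p.2 + f p.1)
  map_zero' := by simp
  map_add' p q := by
    ext
    · simp
    · simp only [Prod.fst_add, Prod.snd_add, map_add]
      abel

theorem shear_mul {M N : Type u} [AddCommGroup M] [AddCommGroup N] (f g : M →+ N)
    (h : ∀ x, f x + g x = 0) : shear f * shear g = 1 := by
  ext p
  · rfl
  · change (p.2 + g p.1) + f p.1 = p.2
    rw [add_assoc, add_comm (g p.1), h, add_zero]

/-- additive maps which are linear over the source of a ring epimorphism are linear over the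
target -/
theorem linear_of_epi (hφ : IsRingEpi φ) {M N : Type u} [AddCommGroup M] [Module Sᵐᵒᵖ M]
    [AddCommGroup N] [Module Sᵐᵒᵖ N] (f : M →+ N)
    (hf : ∀ t x, f (op (φ t) • x) = op (φ t) • f x) (s : S) (x : M) :
    f (op s • x) = op s • f x := by
  have h1 : shear f * shear (-f) = 1 := shear_mul f (-f) (fun x => by simp)
  have h2 : shear (-f) * shear f = 1 := shear_mul (-f) f (fun x => by simp)
  set g0 : Sᵐᵒᵖ →+* AddMonoid.End (M × N) := Module.toAddMonoidEnd Sᵐᵒᵖ (M × N) with hg0
  have e := hφ _ (conjHom g0 1 1 (by simp) (by simp)) (conjHom g0 (shear f) (shear (-f)) h1 h2) (by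
    ext t
    change op (1 * g0 (op (φ t)) * 1) = op (shear f * g0 (op (φ t)) * shear (-f))
    congr 1
    have h3 : shear f * g0 (op (φ t)) = g0 (op (φ t)) * shear f := by
      ext p
      · rfl
      · change op (φ t) • p.2 + f (op (φ t) • p.1) = op (φ t) • (p.2 + f p.1)
        rw [hf, smul_add]
    rw [h3, mul_assoc (g0 (op (φ t))), h1]
    simp)
  have e2 := congrArg (fun q : S →+* (AddMonoid.End (M × N))ᵐᵒᵖ => (q s).unop) e
  change 1 * g0 (op s) * 1 = shear f * g0 (op s) * shear (-f) at e2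
  rw [one_mul, mul_one] at e2
  have e3 : g0 (op s) * shear f = shear f * g0 (op s) := by
    conv_lhs => rw [e2]
    rw [mul_assoc, h2, mul_one]
  have e4 := congrArg (fun q : AddMonoid.End (M × N) => (q (x, 0)).2) e3
  change op s • ((0 : N) + f x) = op s • (0 : N) + f (op s • x) at e4
  rw [zero_add, smul_zero, zero_add] at e4
  exact e4.symm

/-- pp definability over `T` of a family of relations on all right `S`-modules -/
def TDef {I : Type v} [Fintype I]
    (P : ∀ (M : Type u) [AddCommGroup M] [Module Sᵐᵒᵖ M], (I → M) → Prop) : Prop :=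
  ∃ (n m : ℕ) (A : I → Fin m → T) (B : Fin n → Fin m → T),
    ∀ (M : Type u) [AddCommGroup M] [Module Sᵐᵒᵖ M] (x : I → M), P M x ↔
      ∃ z : Fin n → M, ∀ k, ∑ i, op (φ (A i k)) • x i + ∑ j, op (φ (B j k)) • z j = 0

variable {φ}

theorem TDef.of_fintype {I : Type v} [Fintype I]
    {P : ∀ (M : Type u) [AddCommGroup M] [Module Sᵐᵒᵖ M], (I → M) → Prop}
    {J : Type*} {K : Type*} [Fintype J] [Fintype K] (A : I → K → T) (B : J → K → T)
    (h : ∀ (M : Type u) [AddCommGroup M] [Module Sᵐᵒᵖ M] (x : I → M), P M x ↔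
      ∃ z : J → M, ∀ k, ∑ i, op (φ (A i k)) • x i + ∑ j, op (φ (B j k)) • z j = 0) :
    TDef φ P := by
  classical
  let e := Fintype.equivFin J
  let f := Fintype.equivFin K
  refine ⟨Fintype.card J, Fintype.card K, fun i k => A i (f.symm k),
    fun j k => B (e.symm j) (f.symm k), fun M _ _ x => ?_⟩
  rw [h]
  constructor
  · rintro ⟨y, hy⟩
    refine ⟨fun i => y (e.symm i), fun j => ?_⟩
    rw [← hy (f.symm j)]
    congr 1
    exact (Fintype.sum_equiv e _ _ (fun i => by simp)).symm
  · rintro ⟨y, hy⟩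
    refine ⟨fun i => y (e i), fun j => ?_⟩
    have := hy (f j)
    simp only [Equiv.symm_apply_apply] at this
    rw [← this]
    congr 1
    refine Fintype.sum_equiv e _ _ (fun i => by simp)

theorem TDef.congr {I : Type v} [Fintype I]
    {P Q : ∀ (M : Type u) [AddCommGroup M] [Module Sᵐᵒᵖ M], (I → M) → Prop}
    (h : ∀ (M : Type u) [AddCommGroup M] [Module Sᵐᵒᵖ M] (x : I → M), P M x ↔ Q M x)
    (hP : TDef φ P) : TDef φ Q := by
  obtain ⟨n, m, A, B, hP⟩ := hP
  exact ⟨n, m, A, B, fun M _ _ x => (h M x).symm.trans (hP M x)⟩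

theorem TDef.and {I : Type v} [Fintype I]
    {P Q : ∀ (M : Type u) [AddCommGroup M] [Module Sᵐᵒᵖ M], (I → M) → Prop}
    (hP : TDef φ P) (hQ : TDef φ Q) : TDef φ (fun M _ _ x => P M x ∧ Q M x) := by
  obtain ⟨n, m, A, B, hP⟩ := hP
  obtain ⟨n', m', A', B', hQ⟩ := hQ
  refine TDef.of_fintype (J := Fin n ⊕ Fin n') (K := Fin m ⊕ Fin m')
    (fun i => Sum.elim (A i) (A' i))
    (Sum.elim (fun j => Sum.elim (B j) (fun _ => 0)) (fun j => Sum.elim (fun _ => 0) (B' j))) ?_
  intro M _ _ x
  rw [hP, hQ]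
  constructor
  · rintro ⟨⟨y, hy⟩, ⟨z, hz⟩⟩
    refine ⟨Sum.elim y z, fun k => ?_⟩
    rcases k with k | k
    · simpa using hy k
    · simpa using hz k
  · rintro ⟨y, hy⟩
    refine ⟨⟨fun j => y (Sum.inl j), fun k => ?_⟩, ⟨fun j => y (Sum.inr j), fun k => ?_⟩⟩
    · simpa using hy (Sum.inl k)
    · simpa using hy (Sum.inr k)

theorem TDef.all {I : Type v} [Fintype I] {Λ : Type*} [Fintype Λ]
    {P : Λ → ∀ (M : Type u) [AddCommGroup M] [Module Sᵐᵒᵖ M], (I → M) → Prop}
    (hP : ∀ l, TDef φ (P l)) : TDef φ (fun M _ _ x => ∀ l, P l M x) := by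
  classical
  have key : ∀ s : Finset Λ, TDef φ (fun M _ _ x => ∀ l ∈ s, P l M x) := by
    intro s
    induction s using Finset.induction_on with
    | empty =>
      refine TDef.of_fintype (J := Empty) (K := Empty) (fun _ => Empty.elim) (fun _ => Empty.elim) ?_
      intro M _ _ x
      simp
    | insert a s _ ih =>
      refine TDef.congr (fun M _ _ x => ?_) ((hP a).and ih)
      simp
  refine TDef.congr (fun M _ _ x => ?_) (key Finset.univ)
  simp

theorem TDef.ex {I : Type v} [Fintype I] {J : Type v} [Fintype J]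
    {P : ∀ (M : Type u) [AddCommGroup M] [Module Sᵐᵒᵖ M], (I ⊕ J → M) → Prop}
    (hP : TDef φ P) : TDef φ (fun M _ _ x => ∃ y : J → M, P M (Sum.elim x y)) := by
  obtain ⟨n, m, A, B, hP⟩ := hP
  refine TDef.of_fintype (J := J ⊕ Fin n) (K := Fin m) (fun i => A (Sum.inl i))
    (Sum.elim (fun j => A (Sum.inr j)) B) ?_
  intro M _ _ x
  simp only [hP]
  constructor
  · rintro ⟨y, z, hz⟩
    refine ⟨Sum.elim y z, fun k => ?_⟩
    have := hz k
    simp only [Fintype.sum_sum_type, Sum.elim_inl, Sum.elim_inr] at this ⊢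
    rw [← this]
    abel
  · rintro ⟨y, hy⟩
    refine ⟨fun j => y (Sum.inl j), fun j => y (Sum.inr j), fun k => ?_⟩
    have := hy k
    simp only [Fintype.sum_sum_type, Sum.elim_inl, Sum.elim_inr] at this ⊢
    rw [← this]
    abel

theorem TDef.comap {I J : Type v} [Fintype I] [Fintype J] (e : I → J)
    {P : ∀ (M : Type u) [AddCommGroup M] [Module Sᵐᵒᵖ M], (I → M) → Prop}
    (hP : TDef φ P) : TDef φ (fun M _ _ (x : J → M) => P M (fun i => x (e i))) := by
  classical
  obtain ⟨n, m, A, B, hP⟩ := hP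
  refine ⟨n, m, fun j k => ∑ i, if e i = j then A i k else 0, B, fun M _ _ x => ?_⟩
  refine (hP M _).trans ?_
  have key : ∀ k, ∑ j, op (φ (∑ i, if e i = j then A i k else 0)) • x j =
      ∑ i, op (φ (A i k)) • x (e i) := by
    intro k
    simp only [map_sum, Finset.op_sum, Finset.sum_smul]
    rw [Finset.sum_comm]
    refine Finset.sum_congr rfl fun i _ => ?_
    rw [Finset.sum_eq_single (e i)]
    · simp
    · intro j _ hj
      rw [if_neg (Ne.symm hj)]
      simp
    · simp
  simp only [key]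

/-- a linear equation with coefficients in `T` -/
theorem TDef.lin {I : Type v} [Fintype I] (a : I → T) :
    TDef φ (fun M _ _ (x : I → M) => ∑ i, op (φ (a i)) • x i = 0) := by
  refine TDef.of_fintype (J := Empty) (K := Unit) (fun i _ => a i) (fun j => j.elim) ?_
  intro M _ _ x
  simp

/-- the free right `S`-module on the set `S` -/
abbrev Fr (S : Type u) [Ring S] : Type u := S →₀ Sᵐᵒᵖ

/-- the relations making the symbols additive and `T`-linear -/
noncomputable def gen (φ : T →+* S) : (S × S) ⊕ (S × T) → Fr S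
  | Sum.inl p => Finsupp.single (p.1 + p.2) 1 - Finsupp.single p.1 1 - Finsupp.single p.2 1
  | Sum.inr p => Finsupp.single (p.1 * φ p.2) 1 - Finsupp.single p.1 (op (φ p.2))

theorem gen_mem (hφ : IsRingEpi φ) (s : S) :
    (Finsupp.single s 1 - Finsupp.single 1 (op s) : Fr S) ∈
      Submodule.span Sᵐᵒᵖ (Set.range (gen φ)) := by
  set K := Submodule.span Sᵐᵒᵖ (Set.range (gen φ)) with hK
  let f : S →+ (Fr S ⧸ K) := AddMonoidHom.mk' (fun b => Submodule.Quotient.mk (Finsupp.single b 1))
    (by
      intro a b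
      rw [← Submodule.Quotient.mk_add, Submodule.Quotient.eq, ← sub_sub]
      exact Submodule.subset_span ⟨Sum.inl (a, b), rfl⟩)
  have hf : ∀ t x, f (op (φ t) • x) = op (φ t) • f x := by
    intro t x
    change Submodule.Quotient.mk (Finsupp.single (x * φ t) 1) =
      op (φ t) • (Submodule.Quotient.mk (Finsupp.single x 1) : Fr S ⧸ K)
    rw [← Submodule.Quotient.mk_smul, Submodule.Quotient.eq, Finsupp.smul_single, smul_eq_mul,
      mul_one]
    exact Submodule.subset_span ⟨Sum.inr (x, t), rfl⟩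
  have h := linear_of_epi φ hφ f hf s 1
  change Submodule.Quotient.mk (Finsupp.single (1 * s) 1) =
      op s • (Submodule.Quotient.mk (Finsupp.single 1 1) : Fr S ⧸ K) at h
  rw [← Submodule.Quotient.mk_smul, Submodule.Quotient.eq, Finsupp.smul_single, smul_eq_mul,
      mul_one, one_mul] at h
  exact h

/-- multiplication by an element of `S` is pp definable over `T` -/
theorem TDef.smul (hφ : IsRingEpi φ) (s : S) :
    TDef φ (fun M _ _ (x : Bool → M) => x true = op s • x false) := by
  classical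
  obtain ⟨t, ht, hs⟩ := Submodule.mem_span_finite_of_mem_span (gen_mem hφ s)
  obtain ⟨E, -, hE⟩ : ∃ E : Finset ((S × S) ⊕ (S × T)),
      (E : Set ((S × S) ⊕ (S × T))) ⊆ Set.univ ∧ E.image (gen φ) = t := by
    rw [← Set.image_univ] at ht
    exact Finset.subset_set_image_iff.1 ht
  subst hE
  let sup : (S × S) ⊕ (S × T) → Finset S := fun p => p.elim
    (fun p => {p.1 + p.2, p.1, p.2}) (fun p => {p.1 * φ p.2, p.1})
  set B0 : Finset S := {1, s} ∪ E.biUnion sup with hB0
  have m1 : (1 : S) ∈ B0 := by simp [hB0]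
  have ms : s ∈ B0 := by simp [hB0]
  have mE : ∀ p ∈ E, sup p ⊆ B0 := fun p hp =>
    (Finset.subset_biUnion_of_mem sup hp).trans Finset.subset_union_right
  have msum : ∀ (M : Type u) [AddCommGroup M] [Module Sᵐᵒᵖ M] (z : B0 → M) (b : S) (hb : b ∈ B0)
      (c : T), ∑ j : B0, op (φ (if j.1 = b then c else 0)) • z j = op (φ c) • z ⟨b, hb⟩ := by
    intro M _ _ z b hb c
    rw [Finset.sum_eq_single ⟨b, hb⟩]
    · simp
    · intro j _ hj
      rw [if_neg (fun h => hj (Subtype.ext h))]
      simp
    · simp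
  let eqn : Fin 2 ⊕ E → S → T := Sum.elim (fun i b => - if b = (if i = 0 then 1 else s) then 1 else 0)
    (fun p b => p.1.elim (fun q => (if b = q.1 + q.2 then 1 else 0) - (if b = q.1 then 1 else 0) -
      (if b = q.2 then 1 else 0))
      (fun q => (if b = q.1 * φ q.2 then 1 else 0) - (if b = q.1 then q.2 else 0)))
  refine TDef.of_fintype (J := B0) (K := Fin 2 ⊕ E)
    (fun i => Sum.elim (fun k => if (i = false ∧ k = 0) ∨ (i = true ∧ k = 1) then 1 else 0)
      (fun _ => 0))
    (fun b k => eqn k b.1) ?_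
  intro M _ _ x
  have hsplit : (∃ z : B0 → M, ∀ k : Fin 2 ⊕ E, ∑ i : Bool, op (φ ((fun i => Sum.elim
      (fun k : Fin 2 => if (i = false ∧ k = 0) ∨ (i = true ∧ k = 1) then (1 : T) else 0)
      (fun _ => 0)) i k)) • x i + ∑ j : B0, op (φ (eqn k j.1)) • z j = 0) ↔
      ∃ z : B0 → M, x false = z ⟨1, m1⟩ ∧ x true = z ⟨s, ms⟩ ∧
        ∀ p : E, ∑ j : B0, op (φ (eqn (Sum.inr p) j.1)) • z j = 0 := by
    apply exists_congr
    intro z
    have e0 : ∑ j : B0, op (φ (eqn (Sum.inl 0) j.1)) • z j = - z ⟨1, m1⟩ := by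
      have := msum M z 1 m1 1
      simp only [map_one, op_one, one_smul] at this
      rw [← this, ← Finset.sum_neg_distrib]
      refine Finset.sum_congr rfl fun j _ => ?_
      simp [eqn]
    have e1 : ∑ j : B0, op (φ (eqn (Sum.inl 1) j.1)) • z j = - z ⟨s, ms⟩ := by
      have := msum M z s ms 1
      simp only [map_one, op_one, one_smul] at this
      rw [← this, ← Finset.sum_neg_distrib]
      refine Finset.sum_congr rfl fun j _ => ?_
      simp [eqn]
    constructor
    · intro h
      refine ⟨?_, ?_, fun p => ?_⟩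
      · have := h (Sum.inl 0)
        rw [e0] at this
        simp at this
        rw [add_neg_eq_zero] at this
        exact this
      · have := h (Sum.inl 1)
        rw [e1] at this
        simp at this
        rw [add_neg_eq_zero] at this
        exact this
      · have := h (Sum.inr p)
        simpa using this
    · rintro ⟨h0, h1, h2⟩ k
      rcases k with k | p
      · fin_cases k
        · change _ + ∑ j : B0, op (φ (eqn (Sum.inl 0) j.1)) • z j = 0
          rw [e0]
          simp [h0]
        · change _ + ∑ j : B0, op (φ (eqn (Sum.inl 1) j.1)) • z j = 0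
          rw [e1]
          simp [h1]
      · have := h2 p
        simpa using this
  rw [hsplit]
  constructor
  · intro hx
    refine ⟨fun b => op b.1 • x false, by simp, hx, fun p => ?_⟩
    obtain ⟨p, hp⟩ := p
    have hsub := mE p hp
    rcases p with ⟨a, b⟩ | ⟨a, t⟩
    · have i1 : a + b ∈ B0 := hsub (by simp [sup])
      have i2 : a ∈ B0 := hsub (by simp [sup])
      have i3 : b ∈ B0 := hsub (by simp [sup])
      simp only [eqn, Sum.elim_inr, Sum.elim_inl, map_sub, op_sub, sub_smul, Finset.sum_sub_distrib]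
      rw [msum M _ (a + b) i1, msum M _ a i2, msum M _ b i3]
      simp [add_smul]
    · have i1 : a * φ t ∈ B0 := hsub (by simp [sup])
      have i2 : a ∈ B0 := hsub (by simp [sup])
      simp only [eqn, Sum.elim_inr, map_sub, op_sub, sub_smul, Finset.sum_sub_distrib]
      rw [msum M _ (a * φ t) i1, msum M _ a i2]
      simp [mul_smul]
  · rintro ⟨z, h0, h1, h2⟩
    set Z : S → M := fun b => if h : b ∈ B0 then z ⟨b, h⟩ else 0 with hZ
    have hZm : ∀ b (hb : b ∈ B0), Z b = z ⟨b, hb⟩ := fun b hb => by simp [hZ, hb]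
    let L : Fr S →ₗ[Sᵐᵒᵖ] M := Finsupp.linearCombination Sᵐᵒᵖ Z
    have hL : ∀ b c, L (Finsupp.single b c) = c • Z b := fun b c =>
      Finsupp.linearCombination_single _ _ _
    have hker : Submodule.span Sᵐᵒᵖ (↑(E.image (gen φ)) : Set (Fr S)) ≤ LinearMap.ker L := by
      rw [Submodule.span_le]
      intro y hy
      rw [Finset.coe_image] at hy
      obtain ⟨p, hp, rfl⟩ := hy
      have hp' : p ∈ E := hp
      have hsub := mE p hp'
      have h3 := h2 ⟨p, hp'⟩
      rw [SetLike.mem_coe, LinearMap.mem_ker]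
      rcases p with ⟨a, b⟩ | ⟨a, t⟩
      · have i1 : a + b ∈ B0 := hsub (by simp [sup])
        have i2 : a ∈ B0 := hsub (by simp [sup])
        have i3 : b ∈ B0 := hsub (by simp [sup])
        simp only [eqn, Sum.elim_inr, Sum.elim_inl, map_sub, op_sub, sub_smul,
          Finset.sum_sub_distrib] at h3
        rw [msum M _ (a + b) i1, msum M _ a i2, msum M _ b i3] at h3
        simp only [gen, map_sub, hL, hZm _ i1, hZm _ i2, hZm _ i3]
        simpa using h3
      · have i1 : a * φ t ∈ B0 := hsub (by simp [sup])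
        have i2 : a ∈ B0 := hsub (by simp [sup])
        simp only [eqn, Sum.elim_inr, map_sub, op_sub, sub_smul, Finset.sum_sub_distrib] at h3
        rw [msum M _ (a * φ t) i1, msum M _ a i2] at h3
        simp only [gen, map_sub, hL, hZm _ i1, hZm _ i2]
        simpa using h3
    have h4 := hker hs
    rw [LinearMap.mem_ker, map_sub, hL, hL, one_smul, hZm _ ms, hZm _ m1, ← h0, ← h1,
      sub_eq_zero] at h4
    exact h4

/-- every pp formula over `S` is, on `S`-modules, equivalent to a pp formula over `T` -/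
theorem TDef.of_pp (hφ : IsRingEpi φ) (F : PPLat S) :
    TDef φ (fun M _ _ (x : Unit → M) => x () ∈ F.1 (ModuleCat.of Sᵐᵒᵖ M)) := by
  classical
  obtain ⟨ψ, hψ⟩ := F.2
  -- variables: the free one, the bound ones, the products
  have h1 : TDef φ (fun M _ _ (v : Unit ⊕ (Fin ψ.k ⊕ (Fin ψ.m ⊕ Fin ψ.k × Fin ψ.m)) → M) =>
      ((∀ j : Fin ψ.m, v (Sum.inr (Sum.inr (Sum.inl j))) = op (ψ.a j) • v (Sum.inl ())) ∧
      (∀ p : Fin ψ.k × Fin ψ.m, v (Sum.inr (Sum.inr (Sum.inr p))) =
        op (ψ.B p.1 p.2) • v (Sum.inr (Sum.inl p.1)))) ∧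
      ∀ j : Fin ψ.m, v (Sum.inr (Sum.inr (Sum.inl j))) +
        ∑ i, v (Sum.inr (Sum.inr (Sum.inr (i, j)))) = 0) := by
    refine TDef.and (TDef.and (TDef.all fun j => ?_) (TDef.all fun p => ?_)) (TDef.all fun j => ?_)
    · exact TDef.comap (I := Bool) (fun b => cond b (Sum.inr (Sum.inr (Sum.inl j))) (Sum.inl ()))
        (TDef.smul hφ (ψ.a j))
    · exact TDef.comap (I := Bool) (fun b => cond b (Sum.inr (Sum.inr (Sum.inr p)))
        (Sum.inr (Sum.inl p.1))) (TDef.smul hφ (ψ.B p.1 p.2))
    · refine TDef.congr (fun M _ _ v => ?_) (TDef.lin (φ := φ)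
        (Sum.elim (fun _ => (0 : T)) (Sum.elim (fun _ => 0) (Sum.elim (fun j' => if j' = j then 1 else 0)
          (fun p => if p.2 = j then 1 else 0)))))
      simp only [Fintype.sum_sum_type, Sum.elim_inl, Sum.elim_inr, map_zero, op_zero, zero_smul,
        Finset.sum_const_zero, zero_add]
      have e1 : ∑ j' : Fin ψ.m, op (φ (if j' = j then (1 : T) else 0)) •
          v (Sum.inr (Sum.inr (Sum.inl j'))) = v (Sum.inr (Sum.inr (Sum.inl j))) := by
        rw [Finset.sum_eq_single j]
        · simp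
        · intro j' _ hj
          rw [if_neg hj]
          simp
        · simp
      have e2 : ∑ p : Fin ψ.k × Fin ψ.m, op (φ (if p.2 = j then (1 : T) else 0)) •
          v (Sum.inr (Sum.inr (Sum.inr p))) = ∑ i, v (Sum.inr (Sum.inr (Sum.inr (i, j)))) := by
        rw [Fintype.sum_prod_type]
        refine Finset.sum_congr rfl fun i _ => ?_
        rw [Finset.sum_eq_single j]
        · simp
        · intro j' _ hj
          rw [if_neg hj]
          simp
        · simp
      rw [e1, e2]
  refine TDef.congr (fun M _ _ x => ?_) (TDef.ex h1)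
  rw [hψ]
  unfold PP.Sat
  simp only [Sum.elim_inl, Sum.elim_inr]
  constructor
  · rintro ⟨y, ⟨ha, hb⟩, hc⟩
    refine ⟨fun i => y (Sum.inl i), fun j => ?_⟩
    have := hc j
    rw [ha] at this
    simp only [hb] at this
    exact this
  · rintro ⟨y, hy⟩
    refine ⟨Sum.elim y (Sum.elim (fun j => op (ψ.a j) • x ())
      (fun p => op (ψ.B p.1 p.2) • y p.1)), ⟨fun j => rfl, fun p => rfl⟩, fun j => ?_⟩
    simpa using hy j

end epi

end Run7.h475
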