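import Mathlib
import Pool.Agent.Run7.h475.Epi

set_option autoImplicit false

namespace Run7.h475

open MulOpposite

universe u v

section exists_pp_univ

variable {R : Type u} [Ring R]

theorem exists_pp_gen {ι κ : Type*} [Fintype ι] [Fintype κ] (a : κ → R) (B : ι → κ → R) :
    ∃ φ : PP R, ∀ (M : Type u) [AddCommGroup M] [Module Rᵐᵒᵖ M] (x : M),
      φ.Sat M x ↔ ∃ y : ι → M, ∀ j, op (a j) • x + ∑ i, op (B i j) • y i = 0 := by
  classical
  let e := Fintype.equivFin ι
  let f := Fintype.equivFin κ
  refine ⟨⟨Fintype.card ι, Fintype.card κ, fun j => a (f.symm j),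
    fun i j => B (e.symm i) (f.symm j)⟩, fun M _ _ x => ?_⟩
  unfold PP.Sat
  constructor
  · rintro ⟨y, hy⟩
    refine ⟨fun i => y (e i), fun j => ?_⟩
    have := hy (f j)
    simp only [Equiv.symm_apply_apply] at this
    rw [← this]
    congr 1
    refine Fintype.sum_equiv e _ _ (fun i => by simp)
  · rintro ⟨y, hy⟩
    refine ⟨fun i => y (e.symm i), fun j => ?_⟩
    have := hy (f.symm j)
    rw [← this]
    congr 1
    refine (Fintype.sum_equiv e _ _ (fun i => by simp)).symm

theorem PP.sat_add {φ : PP R} {M : Type u} [AddCommGroup M] [Module Rᵐᵒᵖ M] {x x' : M}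
    (h : φ.Sat M x) (h' : φ.Sat M x') : φ.Sat M (x + x') := by
  obtain ⟨y, hy⟩ := h
  obtain ⟨y', hy'⟩ := h'
  refine ⟨fun i => y i + y' i, fun j => ?_⟩
  simp only [smul_add, Finset.sum_add_distrib]
  have : op (φ.a j) • x + op (φ.a j) • x' + (∑ i, op (φ.B i j) • y i + ∑ i, op (φ.B i j) • y' i) =
    (op (φ.a j) • x + ∑ i, op (φ.B i j) • y i) + (op (φ.a j) • x' + ∑ i, op (φ.B i j) • y' i) := by
    abel
  rw [this, hy, hy', add_zero]

theorem PP.sat_zero {φ : PP R} {M : Type u} [AddCommGroup M] [Module Rᵐᵒᵖ M] :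
    φ.Sat M (0 : M) := ⟨fun _ => 0, fun j => by simp⟩

theorem PP.sat_neg {φ : PP R} {M : Type u} [AddCommGroup M] [Module Rᵐᵒᵖ M] {x : M}
    (h : φ.Sat M x) : φ.Sat M (-x) := by
  obtain ⟨y, hy⟩ := h
  refine ⟨fun i => - y i, fun j => ?_⟩
  simp only [smul_neg, Finset.sum_neg_distrib]
  rw [← neg_add, hy, neg_zero]

/-- the element of the pp lattice given by a pp formula -/
def PP.toLat (φ : PP R) : PPLat R :=
  ⟨fun M => { carrier := {x | φ.Sat M x}
              add_mem' := fun h h' => PP.sat_add h h'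
              zero_mem' := PP.sat_zero
              neg_mem' := fun h => PP.sat_neg h }, φ, fun _ _ => Iff.rfl⟩

theorem PP.mem_toLat {φ : PP R} {M : ModuleCat.{u} Rᵐᵒᵖ} {x : M} :
    x ∈ φ.toLat.1 M ↔ φ.Sat M x := Iff.rfl

end exists_pp_univ

section corner

variable {R S : Type u} [Ring R] [Ring S] {e : R} (he : IsIdempotentElem e)
  (φ : he.Corner →+* S)

theorem corner_mul (t : he.Corner) : e * t.1 = t.1 ∧ t.1 * e = t.1 :=
  (Subsemigroup.mem_corner_iff he).1 t.2

/-- `M e`, as a module over the corner, comes from the `S`-module `N` -/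
structure Link (M : Type u) [AddCommGroup M] [Module Rᵐᵒᵖ M] (N : Type u) [AddCommGroup N]
    [Module Sᵐᵒᵖ N] where
  /-- the embedding -/
  i : N →+ M
  inj : Function.Injective i
  surj : ∀ m : M, op e • m = m → ∃ n, i n = m
  fix : ∀ n, op e • i n = i n
  map : ∀ (t : he.Corner) (n : N), i (op (φ t) • n) = op t.1 • i n

/-- the class of the modules `M` for which `M e` comes from an `S`-module -/
def Cls (M : ModuleCat.{u} Rᵐᵒᵖ) : Prop :=
  ∃ (N : Type u) (_ : AddCommGroup N) (_ : Module Sᵐᵒᵖ N), Nonempty (Link he φ M N)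

/-- translation of pp formulas -/
theorem exists_lift (hφ : IsRingEpi φ) (F : PPLat S) : ∃ G : PPLat R,
    ∀ (M : ModuleCat.{u} Rᵐᵒᵖ) (N : Type u) [AddCommGroup N] [Module Sᵐᵒᵖ N]
      (L : Link he φ M N) (x : M), x ∈ G.1 M ↔ ∃ n ∈ F.1 (ModuleCat.of Sᵐᵒᵖ N), L.i n = x := by
  obtain ⟨n, m, A, B, h⟩ := TDef.of_pp hφ F
  obtain ⟨ψ, hψ⟩ := exists_pp_gen (R := R) (ι := Fin n) (κ := Option (Fin n) ⊕ Fin m)
    (Sum.elim (fun o => o.elim (e - 1) (fun _ => 0)) (fun k => (A () k).1))
    (fun j => Sum.elim (fun o => o.elim 0 (fun j' => if j' = j then e - 1 else 0))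
      (fun k => (B j k).1))
  refine ⟨ψ.toLat, fun M N _ _ L x => ?_⟩
  rw [PP.mem_toLat, hψ]
  have hfix : ∀ y : M, op (e - 1) • y = 0 ↔ op e • y = y := by
    intro y
    rw [op_sub, sub_smul, op_one, one_smul, sub_eq_zero]
  have hsum : ∀ (y : Fin n → M) (j' : Fin n),
      ∑ i, op (if j' = i then e - 1 else 0) • y i = op (e - 1) • y j' := by
    intro y j'
    rw [Finset.sum_eq_single j']
    · simp
    · intro i _ hi
      rw [if_neg (Ne.symm hi)]
      simp
    · simp
  constructor
  · rintro ⟨y, hy⟩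
    have h0 : op e • x = x := by
      have := hy (Sum.inl none)
      simp only [Sum.elim_inl, Option.elim_none] at this
      rw [← hfix]
      simpa using this
    have h1 : ∀ j, op e • y j = y j := by
      intro j
      have := hy (Sum.inl (some j))
      simp only [Sum.elim_inl, Option.elim_some, op_zero, zero_smul, zero_add] at this
      rw [hsum] at this
      rwa [hfix] at this
    obtain ⟨x', hx'⟩ := L.surj x h0
    choose y' hy' using fun j => L.surj (y j) (h1 j)
    refine ⟨x', (h N (fun _ => x')).2 ⟨y', fun k => ?_⟩, hx'⟩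
    have := hy (Sum.inr k)
    simp only [Sum.elim_inr] at this
    apply L.inj
    simp only [map_add, map_sum, map_zero, Finset.univ_unique, Finset.sum_singleton, L.map, hy', hx']
    exact this
  · rintro ⟨x', hx, rfl⟩
    obtain ⟨z, hz⟩ := (h N (fun _ => x')).1 hx
    refine ⟨fun j => L.i (z j), fun k => ?_⟩
    rcases k with o | k
    · rcases o with _ | j
      · simp only [Sum.elim_inl, Option.elim_none]
        rw [(hfix _).2 (L.fix x')]
        simp
      · simp only [Sum.elim_inl, Option.elim_some, op_zero, zero_smul, zero_add]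
        rw [hsum, hfix]
        exact L.fix _
    · simp only [Sum.elim_inr]
      have := congrArg L.i (hz k)
      simp only [map_add, map_sum, map_zero, Finset.univ_unique, Finset.sum_singleton, L.map] at this
      exact this

/-- the coinduced module -/
def Coind (N : Type u) [AddCommGroup N] [Module Sᵐᵒᵖ N] : AddSubgroup (R →+ N) where
  carrier := {h | ∀ (x : R) (t : he.Corner), h (x * t.1) = op (φ t) • h x}
  add_mem' := by
    intro a b ha hb x t
    rw [AddMonoidHom.add_apply, AddMonoidHom.add_apply, ha, hb, smul_add]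
  zero_mem' := by intro x t; simp
  neg_mem' := by
    intro a ha x t
    rw [AddMonoidHom.neg_apply, AddMonoidHom.neg_apply, ha, smul_neg]

instance (N : Type u) [AddCommGroup N] [Module Sᵐᵒᵖ N] : Module Rᵐᵒᵖ (Coind he φ N) where
  smul r h := ⟨h.1.comp (AddMonoidHom.mulLeft r.unop), fun x t => by
    change h.1 (r.unop * (x * t.1)) = op (φ t) • h.1 (r.unop * x)
    rw [← mul_assoc]
    exact h.2 _ t⟩
  one_smul h := by
    ext x
    change h.1 (1 * x) = h.1 x
    rw [one_mul]
  mul_smul r s h := by
    ext x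
    change h.1 (s.unop * r.unop * x) = h.1 (s.unop * (r.unop * x))
    rw [mul_assoc]
  smul_zero r := by ext x; rfl
  smul_add r h h' := by ext x; rfl
  add_smul r s h := by
    ext x
    change h.1 ((r.unop + s.unop) * x) = h.1 (r.unop * x) + h.1 (s.unop * x)
    rw [add_mul, map_add]
  zero_smul h := by
    ext x
    change h.1 (0 * x) = 0
    rw [zero_mul, map_zero]

/-- the element `e x e` of the corner -/
def cut (x : R) : he.Corner := ⟨e * x * e, x, rfl⟩

theorem cut_mul (x : R) (t : he.Corner) : cut he (x * t.1) = cut he x * t := by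
  apply Subtype.ext
  change e * (x * t.1) * e = e * x * e * t.1
  rw [← mul_assoc e x t.1, mul_assoc (e * x) t.1 e, (corner_mul he t).2, mul_assoc (e * x) e t.1,
    (corner_mul he t).1]

theorem mul_cut (x : R) (t : he.Corner) : cut he (t.1 * x) = t * cut he x := by
  apply Subtype.ext
  change e * (t.1 * x) * e = t.1 * (e * x * e)
  rw [← mul_assoc, ← mul_assoc, ← mul_assoc, (corner_mul he t).1, (corner_mul he t).2]

theorem cut_add (x y : R) : cut he (x + y) = cut he x + cut he y := by
  apply Subtype.ext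
  change e * (x + y) * e = e * x * e + e * y * e
  rw [mul_add, add_mul]

theorem cut_e : cut he e = 1 := by
  apply Subtype.ext
  change e * e * e = e
  rw [he.eq, he.eq]

/-- the coinduced module is linked with the module one starts with -/
def coindLink (N : Type u) [AddCommGroup N] [Module Sᵐᵒᵖ N] : Link he φ (Coind he φ N) N where
  i := AddMonoidHom.mk' (fun n => ⟨AddMonoidHom.mk' (fun x => op (φ (cut he x)) • n) (fun x y => by
      rw [cut_add, map_add, op_add, add_smul]), fun x t => by
        change op (φ (cut he (x * t.1))) • n = op (φ t) • (op (φ (cut he x)) • n)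
        rw [cut_mul, map_mul, op_mul, mul_smul]⟩) (fun a b => by
      ext x
      change op (φ (cut he x)) • (a + b) = op (φ (cut he x)) • a + op (φ (cut he x)) • b
      rw [smul_add])
  inj := by
    intro a b h
    have h1 := congrArg (fun q : Coind he φ N => q.1 e) h
    change op (φ (cut he e)) • a = op (φ (cut he e)) • b at h1
    rwa [cut_e, map_one, op_one, one_smul, one_smul] at h1
  surj := by
    intro m hm
    refine ⟨m.1 e, ?_⟩
    ext x
    change op (φ (cut he x)) • m.1 e = m.1 x
    rw [← m.2 e (cut he x)]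
    have h1 := congrArg (fun q : Coind he φ N => q.1 x) hm
    change m.1 (e * x) = m.1 x at h1
    have h2 := m.2 (e * x) 1
    rw [map_one, op_one, one_smul] at h2
    rw [← h1, ← h2]
    congr 1
    change e * (e * x * e) = e * x * e
    rw [← mul_assoc, ← mul_assoc, he.eq]
  fix := by
    intro n
    ext x
    change op (φ (cut he (e * x))) • n = op (φ (cut he x)) • n
    have : cut he (e * x) = cut he x := by
      apply Subtype.ext
      change e * (e * x) * e = e * x * e
      rw [← mul_assoc, he.eq]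
    rw [this]
  map := by
    intro t n
    ext x
    change op (φ (cut he x)) • (op (φ t) • n) = op (φ (cut he (t.1 * x))) • n
    rw [mul_cut, map_mul, op_mul, mul_smul]

/-- Transfer: if the corner `e R e` maps onto `S` by an epimorphism of rings, then a tree in the pp
lattice of `S` gives a tree in the pp lattice of `R`. -/
theorem HasTree.of_corner_epi (hφ : IsRingEpi φ) (h : HasTree S) : HasTree R := by
  obtain ⟨f, g, h0, h1, h2, h3⟩ := h
  choose G hG using exists_lift he φ hφ
  have hle : ∀ {F F' : PPLat S}, F ≤ F' → LeOn (Cls he φ) (G F) (G F') := by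
    intro F F' hFF M hM x hx
    obtain ⟨N, _, _, ⟨L⟩⟩ := hM
    rw [hG F M N L] at hx
    rw [hG F' M N L]
    obtain ⟨n, hn, rfl⟩ := hx
    exact ⟨n, hFF _ hn, rfl⟩
  refine HasTree.of_class (Cls he φ) (fun w => G (f w)) (fun w => G (g w)) ?_ ?_ ?_ ?_ ?_
  · intro w; exact hle (h0 w).le
  · intro w hcon
    apply (h0 w).not_ge
    rw [le_def]
    intro N n hn
    have L := coindLink he φ N
    have hM : Cls he φ (ModuleCat.of Rᵐᵒᵖ (Coind he φ N)) := ⟨N, _, _, ⟨coindLink he φ N⟩⟩
    have h4 := hcon _ hM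
    have h5 : (coindLink he φ N).i n ∈ (G (g w)).1 (ModuleCat.of Rᵐᵒᵖ (Coind he φ N)) :=
      (hG (g w) (ModuleCat.of Rᵐᵒᵖ (Coind he φ N)) N (coindLink he φ N) _).2 ⟨n, hn, rfl⟩
    have h6 := h4 h5
    rw [hG (f w) (ModuleCat.of Rᵐᵒᵖ (Coind he φ N)) N (coindLink he φ N)] at h6
    obtain ⟨n', hn', e'⟩ := h6
    rwa [← (coindLink he φ N).inj e']
  · intro w; exact hle (h1 w)
  · intro w; exact hle (h2 w)
  · intro w; exact hle (h3 w)

end corner

end Run7.h475
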