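import Mathlib
import Pool.Agent.Run7.h475.ClanNondeg
import Pool.Agent.Run7.h475.Transfer

set_option autoImplicit false

namespace Run7.h475

universe u

open MulOpposite

namespace ClanData

open BiWord

variable {C : ClanData}

theorem IsWord.of_factor {w w' : List C.Letter} (h : C.IsWord w) (h' : w' <:+: w) : C.IsWord w' :=
  fun l hl hl' => h l hl (hl'.trans h')

theorem IsWord.chain (S : C.Sides) {w : List C.Letter} (h : C.IsWord w) : w.IsChain (Comp S) := by
  rw [List.isChain_iff_getElem]
  intro i hi
  apply comp_of_not_bad S
  intro hb
  refine h _ hb ⟨w.take i, w.drop (i + 2), ?_⟩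
  rw [List.append_assoc]
  conv_rhs => rw [← List.take_append_drop i w]
  congr 1
  rw [List.drop_eq_getElem_cons (show i < w.length by omega),
    List.drop_eq_getElem_cons (show i + 1 < w.length by omega)]
  rfl

/-- entries of powers -/
theorem power_getElem {α : Type*} (w : List α) (hw : 0 < w.length) : ∀ (m t : ℕ)
    (ht : t < (power w m).length), (power w m)[t] = w[t % w.length]'(Nat.mod_lt _ hw) := by
  intro m
  induction m with
  | zero => intro t ht; rw [length_power] at ht; omega
  | succ m ih =>
    intro t ht
    have e := power_succ w m
    have h1 : (power w (m + 1))[t] = (w ++ power w m)[t]'(by rw [← e]; exact ht) := by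
      congr 1
    rw [h1]
    rcases Nat.lt_or_ge t w.length with h | h
    · rw [List.getElem_append_left h]
      congr 1
      exact (Nat.mod_eq_of_lt h).symm
    · rw [List.getElem_append_right h, ih]
      congr 1
      conv_rhs => rw [← Nat.sub_add_cancel h]
      rw [Nat.add_mod_right]

/-- the periodic bi-infinite word of a word all of whose powers are words -/
noncomputable def periodic (S : C.Sides) (w : List C.Letter) (hw : 0 < w.length)
    (h : ∀ m, C.IsWord (power w m)) : BiWord C S :=
  have hmod : ∀ i : ℤ, (i % (w.length : ℤ)).toNat < w.length := fun i => by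
    have h1 : 0 ≤ i % (w.length : ℤ) := Int.emod_nonneg _ (by omega)
    have h2 : i % (w.length : ℤ) < w.length := Int.emod_lt_of_pos _ (by omega)
    omega
  -- windows of the periodic word are factors of powers
  have hwin : ∀ (i : ℤ) (l : List C.Letter),
      (∀ (m : ℕ) (x : C.Letter), l[m]? = some x → w[((i + m) % (w.length : ℤ)).toNat]'(hmod _) = x) →
      ∃ n, l <:+: power w n := by
    intro i l hl
    set r := (i % (w.length : ℤ)).toNat with hr
    have hr2 : (r : ℤ) = i % (w.length : ℤ) := by
      rw [hr]; exact Int.toNat_of_nonneg (Int.emod_nonneg _ (by omega))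
    refine ⟨r + l.length, (power w (r + l.length)).take r,
      (power w (r + l.length)).drop (r + l.length), ?_⟩
    have hlen : r + l.length ≤ (power w (r + l.length)).length := by
      rw [length_power]; nlinarith
    apply List.ext_getElem
    · simp only [List.length_append, List.length_take, List.length_drop]
      omega
    · intro t h1 h2
      rcases Nat.lt_or_ge t r with h3 | h3
      · rw [List.getElem_append_left (by simp; omega), List.getElem_append_left (by simp; omega)]
        simp
      · rcases Nat.lt_or_ge t (r + l.length) with h4 | h4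
        · rw [List.getElem_append_left (by simp; omega), List.getElem_append_right (by simp; omega)]
          have h5 : (List.take r (power w (r + l.length))).length = r := by
            rw [List.length_take]; omega
          have h6 : t - r < l.length := by omega
          have h7 := hl (t - r) (l[t - r]) (List.getElem?_eq_getElem h6)
          rw [power_getElem w hw]
          have h8 : l[t - (List.take r (power w (r + l.length))).length]'(by rw [h5]; exact h6) =
              l[t - r] := by congr 1; rw [h5]
          rw [h8, ← h7]
          congr 1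
          have h9 : (i + ((t - r : ℕ) : ℤ)) % (w.length : ℤ) = (t : ℤ) % (w.length : ℤ) := by
            rw [Nat.cast_sub h3]
            rw [show i + ((t : ℤ) - r) = t + (i - r) by ring, hr2]
            rw [Int.add_emod, show (i - i % (w.length : ℤ)) % (w.length : ℤ) = 0 by
              rw [Int.sub_emod, Int.emod_emod_of_dvd _ (dvd_refl _)]; simp]
            simp
          rw [h9]
          omega
        · rw [List.getElem_append_right (by simp; omega)]
          simp only [List.getElem_drop]
          congr 1
          simp
          omega
  { W := fun i => w[(i % (w.length : ℤ)).toNat]'(hmod i)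
    comp := by
      intro i
      apply comp_of_not_bad S
      intro hb
      obtain ⟨n, hn⟩ := hwin i [w[(i % (w.length : ℤ)).toNat]'(hmod i),
          w[((i + 1) % (w.length : ℤ)).toNat]'(hmod (i + 1))] (by
        intro m x hm
        rcases m with _ | _ | m
        · simpa using hm
        · simpa using hm
        · simp at hm)
      exact h n _ hb hn
    avoid := by
      intro z hz i hcon
      obtain ⟨n, hn⟩ := hwin i (z.map fun a => (a, true)) (by
        intro m x hm
        rw [List.getElem?_map] at hm
        obtain ⟨a, ha, rfl⟩ := Option.map_eq_some_iff.1 hm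
        exact hcon m a ha)
      exact h n _ (Bad.relation z hz) hn
    avoid_inv := by
      intro z hz i hcon
      obtain ⟨n, hn⟩ := hwin i (z.reverse.map fun a => (a, false)) (by
        intro m x hm
        rw [List.getElem?_map] at hm
        obtain ⟨a, ha, rfl⟩ := Option.map_eq_some_iff.1 hm
        exact hcon m a ha)
      exact h n _ (Bad.relation_inv z hz) hn }

theorem periodic_W (S : C.Sides) (w : List C.Letter) (hw : 0 < w.length)
    (h : ∀ m, C.IsWord (power w m)) (i : ℕ) (hi : i < w.length) :
    (periodic S w hw h).W (-1 + 1 + i) = w[i] := by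
  change w[((-1 + 1 + (i : ℤ)) % (w.length : ℤ)).toNat]'_ = w[i]
  congr 1
  rw [show (-1 + 1 + (i : ℤ)) = i by ring, Int.emod_eq_of_lt (by omega) (by omega)]
  simp

variable {k : Type u} [Field k]

theorem qmk_rel {x y : FreeAlgebra k C.Gen} (h : C.Rel k x y) : qmk C k x = qmk C k y :=
  RingQuot.mkAlgHom_rel k h

/-- the pp pair of a nonempty word all of whose powers are words is nontrivial -/
theorem nondeg_word (S : C.Sides) {c : k} (hc0 : c ≠ 0) (hc : c ≠ 1) (w : List C.Letter)
    (hw : w ≠ []) (h : ∀ m, C.IsWord (power w m)) :
    C.opsL c w (⊥ : PPLat (C.Alg k)) < C.opsL c w ⊤ := by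
  have hw' : 0 < w.length := List.length_pos_iff.2 hw
  refine lt_of_le_not_ge (C.opsL_mono c w bot_le) ?_
  have h1 : C.IsWord w := by
    have := h 1
    rwa [power_succ, power_zero, List.append_nil] at this
  exact (periodic S w hw' h).nondeg hc0 hc w (h1.chain S) (-1)
    (fun i hi => periodic_W S w hw' h i hi)

/-- separation of two letters with the same start -/
theorem sep_letter (S : C.Sides) (c : k) {x y : C.Letter} (h : SameStart S x y)
    (hx : x.2 = false) (hy : y.2 = true) (F G : PPLat (C.Alg k)) :
    C.opL c x F ≤ C.opL c y G := by
  classical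
  rcases x with ⟨b, s⟩
  rcases y with ⟨a, t⟩
  simp only at hx hy
  subst hx
  subst hy
  have h1 : C.tgt b = C.src a := h.1
  have h2 : S.τ b = S.σ a := h.2
  have hzero : qmk C k (C.fa k b) * qmk C k (C.fa k a) = 0 := by
    by_cases hs : C.special (C.tgt b)
    · rw [← map_mul, ← map_zero (qmk C k)]
      exact qmk_rel (Rel.special_zero b a h1 hs)
    · have h3 := S.zero b a h1 hs h2
      have h4 := qmk_rel (Rel.zero (k := k) [b, a] h3)
      have h5 : C.pathVal k [b, a] = C.fa k b * C.mid k (C.tgt b) * C.fa k a := by
        rw [h1]; simp [pathVal, mul_assoc]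
      have h6 : C.mid k (C.tgt b) = C.fe k (C.tgt b) := by
        unfold mid; rw [dif_neg hs]
      have h7 := qmk_rel (Rel.mul_tgt (k := k) b)
      rw [← h7, ← map_mul, ← h6, ← h5, h4, map_zero]
  rw [le_def]
  intro M f hf
  change f ∈ (img (qmk C k (C.fa k b)) _).1 M at hf
  change f ∈ (pre (qmk C k (C.fa k a * C.theta c (C.tgt a))) G).1 M
  obtain ⟨g, -, rfl⟩ := mem_img.1 hf
  rw [mem_pre, ← mul_smul, ← op_mul, map_mul, ← mul_assoc, hzero, zero_mul]
  simp

/-- the main statement for sided words -/
theorem hasTree_of_pair (hC : C.IsClannish) {c : k} (hc0 : c ≠ 0) (hc : c ≠ 1)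
    {u v : List C.Letter} (huv : u ++ v ≠ v ++ u)
    (h : ∀ x : List Bool, C.IsWord (x.flatMap fun b => cond b u v)) :
    HasTree (C.Alg k) := by
  obtain ⟨S⟩ := hC.exists_sides
  -- two different words of the same length
  obtain ⟨α, β, hlen, hne, hword⟩ : ∃ α β : List C.Letter, α.length = β.length ∧ α ≠ β ∧
      ∀ x : List Bool, C.IsWord (x.flatMap fun b => cond b α β) := by
    refine ⟨u ++ v, v ++ u, by simp [add_comm], huv, fun x => ?_⟩
    have e : (x.flatMap fun b => cond b (u ++ v) (v ++ u)) =
        ((x.flatMap fun b => cond b [true, false] [false, true]).flatMap fun b => cond b u v) := by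
      induction x with
      | nil => rfl
      | cons b x ih =>
        simp only [List.flatMap_cons, List.flatMap_append, ih]
        cases b <;> simp
    rw [e]
    exact h _
  -- the first difference
  obtain ⟨p, x, y, s, t, hα, hβ, hxy⟩ : ∃ (p : List C.Letter) (x y : C.Letter)
      (s t : List C.Letter), α = p ++ x :: s ∧ β = p ++ y :: t ∧ x ≠ y := by
    clear hword huv h
    induction α generalizing β with
    | nil =>
      exfalso
      apply hne
      symm
      exact List.length_eq_zero_iff.1 hlen.symm
    | cons a α ih =>
      cases β with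
      | nil => simp at hlen
      | cons b β =>
        by_cases hab : a = b
        · subst hab
          obtain ⟨p, x, y, s, t, h1, h2, h3⟩ := ih β (by simpa using hlen)
            (fun h => hne (by rw [h]))
          exact ⟨a :: p, x, y, s, t, by rw [h1]; rfl, by rw [h2]; rfl, h3⟩
        · exact ⟨[], a, b, α, β, rfl, rfl, hab⟩
  -- the two letters have the same start
  have hstart : SameStart S x y := by
    rcases List.eq_nil_or_concat p with hp | ⟨p', z, hp⟩
    · -- compare with the last letter of `α`
      subst hp
      obtain ⟨α', z, hz⟩ : ∃ α' z, α = α' ++ [z] := by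
        rcases List.eq_nil_or_concat α with h0 | ⟨α', z, h0⟩
        · rw [h0] at hα; simp at hα
        · exact ⟨α', z, by rw [h0, List.concat_eq_append]⟩
      have h1 : C.IsWord (α ++ α) := by
        have := hword [true, true]
        simpa using this
      have h2 : C.IsWord (α ++ β) := by
        have := hword [true, false]
        simpa using this
      have h3 : Comp S z x := by
        have h4 : [z, x] <:+: α ++ α := by
          have hα' : α = x :: s := by simpa using hα
          refine ⟨α', s, ?_⟩
          calc α' ++ [z, x] ++ s = (α' ++ [z]) ++ (x :: s) := by simp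
            _ = α ++ α := by rw [← hz, ← hα']
        exact comp_of_not_bad S (fun hb => h1 _ hb h4)
      have h3' : Comp S z y := by
        have h4 : [z, y] <:+: α ++ β := by
          refine ⟨α', t, ?_⟩
          rw [hz, hβ]
          simp
        exact comp_of_not_bad S (fun hb => h2 _ hb h4)
      exact h3.sameStart S h3'
    · have h1 : C.IsWord α := by
        have := hword [true]
        simpa using this
      have h2 : C.IsWord β := by
        have := hword [false]
        simpa using this
      have h3 : Comp S z x := by
        have h4 : [z, x] <:+: α := ⟨p', s, by rw [hα, hp]; simp⟩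
        exact comp_of_not_bad S (fun hb => h1 _ hb h4)
      have h3' : Comp S z y := by
        have h4 : [z, y] <:+: β := ⟨p', t, by rw [hβ, hp]; simp⟩
        exact comp_of_not_bad S (fun hb => h2 _ hb h4)
      exact h3.sameStart S h3'
  -- choose the order
  have hsgn : x.2 ≠ y.2 := fun h => hxy (hstart.eq S h)
  have main : ∀ (γ δ : List C.Letter) (x y : C.Letter) (s t : List C.Letter),
      γ = p ++ x :: s → δ = p ++ y :: t → SameStart S x y → x.2 = false → y.2 = true →
      (∀ x : List Bool, C.IsWord (x.flatMap fun b => cond b δ γ)) → HasTree (C.Alg k) := by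
    intro γ δ x y s t hγ hδ hst hx hy hw
    have hsep : C.opsL c γ (⊤ : PPLat (C.Alg k)) ≤ C.opsL c δ ⊥ := by
      rw [hγ, hδ, opsL_append, opsL_append]
      exact C.opsL_mono c p (sep_letter S c hst hx hy _ _)
    have hγ0 : γ ≠ [] := by rw [hγ]; simp
    have hδ0 : δ ≠ [] := by rw [hδ]; simp
    have hpow : ∀ (q : List Bool) (m : ℕ),
        C.IsWord (power (q.flatMap fun b => cond b δ γ) m) := by
      intro q m
      have e : power (q.flatMap fun b => cond b δ γ) m =
          ((power q m).flatMap fun b => cond b δ γ) := by
        induction m with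
        | zero => rfl
        | succ m ih => rw [power_succ, power_succ, List.flatMap_append, ih]
      rw [e]
      exact hw _
    have hlt : ∀ q : List Bool, q ≠ [] → C.opsL c (q.flatMap fun b => cond b δ γ)
        (⊥ : PPLat (C.Alg k)) < C.opsL c (q.flatMap fun b => cond b δ γ) ⊤ := by
      intro q hq
      refine nondeg_word S hc0 hc _ ?_ (hpow q)
      cases q with
      | nil => exact absurd rfl hq
      | cons b q =>
        cases b
        · simp [hγ0]
        · simp [hδ0]
    refine ⟨(fun q => C.opsL c (q.flatMap fun b => cond b δ γ) (⊥ : PPLat (C.Alg k))),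
      (fun q => C.opsL c (q.flatMap fun b => cond b δ γ) (⊤ : PPLat (C.Alg k))), ?_, ?_, ?_, ?_⟩
    · intro q
      by_cases hq : q = []
      · subst hq
        change (⊥ : PPLat (C.Alg k)) < ⊤
        exact lt_of_le_of_lt bot_le (lt_of_lt_of_le (hlt [true] (by simp)) le_top)
      · exact hlt q hq
    · intro q
      simp only [List.flatMap_append, opsL_append]
      exact C.opsL_mono c _ bot_le
    · intro q
      simp only [List.flatMap_append, opsL_append]
      refine C.opsL_mono c _ ?_
      simpa using hsep
    · intro q
      simp only [List.flatMap_append, opsL_append]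
      exact C.opsL_mono c _ le_top
  cases hx2 : x.2
  · have hy2 : y.2 = true := by rw [hx2] at hsgn; simpa using hsgn.symm
    refine main α β x y s t hα hβ hstart hx2 hy2 (fun q => ?_)
    have := hword (q.map not)
    rw [List.flatMap_map] at this
    convert this using 3
    rename_i b
    cases b <;> rfl
  · have hy2 : y.2 = false := by rw [hx2] at hsgn; simpa using hsgn.symm
    exact main β α y x t s hβ hα (hstart.symm S) hy2 hx2 hword

/-- clannish algebras with infinitely many bands -/
theorem hasTree_of_bands (hC : C.IsClannish) (hk : ∃ c : k, c ≠ 0 ∧ c ≠ 1)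
    (hB : {w | C.IsBand w}.Infinite) : HasTree (C.Alg k) := by
  obtain ⟨c, hc0, hc⟩ := hk
  obtain ⟨N, hN⟩ : ∃ N, ∀ z ∈ C.Z, z.length ≤ N := by
    obtain ⟨N, hN⟩ := (hC.finite_Z.image List.length).bddAbove
    exact ⟨N, fun z hz => hN ⟨z, hz, rfl⟩⟩
  have hbad : ∀ l ∈ {l | C.Bad l}, l.length ≤ N + 2 := by
    intro l hl
    cases hl with
    | not_composable x y _ => simp
    | cancel x _ => simp
    | relation z hz => simp; have := hN z hz; omega
    | relation_inv z hz => simp; have := hN z hz; omega
  obtain ⟨u, v, huv, h⟩ := exists_free_pair {l | C.Bad l} (N + 2) hbad hB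
  exact hasTree_of_pair hC hc0 hc huv h

end ClanData

end Run7.h475
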