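import Mathlib
import Pool.Agent.Run7.h475.Transfer

set_option autoImplicit false

namespace Run7.h475

open MulOpposite

universe u

theorem pp_hom_mem {R : Type u} [Ring R] (F : PPLat R) {M N : ModuleCat.{u} Rᵐᵒᵖ}
    (f : M →ₗ[Rᵐᵒᵖ] N) {x : M} (h : x ∈ F.1 M) : f x ∈ F.1 N := by
  obtain ⟨φ, hφ⟩ := F.2
  rw [hφ] at h ⊢
  obtain ⟨y, hy⟩ := h
  refine ⟨fun i => f (y i), fun j => ?_⟩
  have := congrArg f (hy j)
  simpa using this

section split

variable {T Q : Type u} [Ring T] [Ring Q] (i : T →+* Q)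

/-- a right `Q`-module as a right `T`-module -/
def Res (M : ModuleCat.{u} Qᵐᵒᵖ) : ModuleCat.{u} Tᵐᵒᵖ :=
  letI : Module Tᵐᵒᵖ M := Module.compHom M i.op
  ModuleCat.of Tᵐᵒᵖ M

/-- the identity -/
def toRes (M : ModuleCat.{u} Qᵐᵒᵖ) (x : M) : Res i M := x

/-- the identity -/
def unRes (M : ModuleCat.{u} Qᵐᵒᵖ) (x : Res i M) : M := x

theorem exists_res (F : PPLat T) : ∃ G : PPLat Q, ∀ (M : ModuleCat.{u} Qᵐᵒᵖ) (x : M),
    x ∈ G.1 M ↔ toRes i M x ∈ F.1 (Res i M) := by
  obtain ⟨φ, hφ⟩ := F.2
  refine ⟨PP.toLat ⟨φ.k, φ.m, fun j => i (φ.a j), fun a j => i (φ.B a j)⟩, fun M x => ?_⟩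
  exact Iff.trans Iff.rfl (hφ (Res i M) (toRes i M x)).symm

/-- the coinduced module -/
def CoindS (N : ModuleCat.{u} Tᵐᵒᵖ) : AddSubgroup (Q →+ N) where
  carrier := {h | ∀ (x : Q) (t : T), h (x * i t) = op t • h x}
  add_mem' := by
    intro a b ha hb x t
    rw [AddMonoidHom.add_apply, AddMonoidHom.add_apply, ha, hb, smul_add]
  zero_mem' := by intro x t; simp
  neg_mem' := by
    intro a ha x t
    rw [AddMonoidHom.neg_apply, AddMonoidHom.neg_apply, ha, smul_neg]

instance (N : ModuleCat.{u} Tᵐᵒᵖ) : Module Qᵐᵒᵖ (CoindS i N) where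
  smul r h := ⟨h.1.comp (AddMonoidHom.mulLeft r.unop), fun x t => by
    change h.1 (r.unop * (x * i t)) = op t • h.1 (r.unop * x)
    rw [← mul_assoc]
    exact h.2 _ t⟩
  one_smul h := by
    ext x
    change h.1 (1 * x) = h.1 x
    rw [one_mul]
  mul_smul r s h := by
    ext x
    change h.1 (s.unop * r.unop * x) = h.1 (s.unop * (r.unop * x))
    rw [mul_assoc]
  smul_zero r := by ext x; rfl
  smul_add r h h' := by ext x; rfl
  add_smul r s h := by
    ext x
    change h.1 ((r.unop + s.unop) * x) = h.1 (r.unop * x) + h.1 (s.unop * x)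
    rw [add_mul, map_add]
  zero_smul h := by
    ext x
    change h.1 (0 * x) = 0
    rw [zero_mul, map_zero]

variable (r : Q →+ T) (hr : ∀ (a : T) (x : Q) (b : T), r (i a * x * i b) = a * r x * b)

/-- a module embeds into the coinduced one -/
def toCoind (N : ModuleCat.{u} Tᵐᵒᵖ) : N →ₗ[Tᵐᵒᵖ] Res i (ModuleCat.of Qᵐᵒᵖ (CoindS i N)) where
  toFun n := (⟨AddMonoidHom.mk' (fun x => op (r x) • n) (fun x y => by
      rw [map_add, op_add, add_smul]), fun x t => by
        change op (r (x * i t)) • n = op t • (op (r x) • n)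
        have := hr 1 x t
        rw [map_one, one_mul, one_mul] at this
        rw [this, op_mul, mul_smul]⟩ : CoindS i N)
  map_add' a b := by
    apply Subtype.ext
    ext x
    change op (r x) • (a + b) = op (r x) • a + op (r x) • b
    rw [smul_add]
  map_smul' t n := by
    apply Subtype.ext
    ext x
    change op (r x) • (t • n) = op (r (i t.unop * x)) • n
    have := hr t.unop x 1
    rw [map_one, mul_one, mul_one] at this
    rw [this, op_mul, mul_smul]
    rfl

/-- evaluation at one -/
def ofCoind (N : ModuleCat.{u} Tᵐᵒᵖ) : Res i (ModuleCat.of Qᵐᵒᵖ (CoindS i N)) →ₗ[Tᵐᵒᵖ] N where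
  toFun h := (show CoindS i N from h).1 1
  map_add' a b := rfl
  map_smul' t h := by
    change (show CoindS i N from h).1 (i t.unop * 1) = t • (show CoindS i N from h).1 1
    have := (show CoindS i N from h).2 1 t.unop
    rw [one_mul] at this
    rw [mul_one, this]
    rfl

/-- Transfer: if `T` is a direct summand of the ring `Q` as a bimodule over itself, then a tree in
the pp lattice of `T` gives a tree in the pp lattice of `Q`. -/
theorem HasTree.of_split (hr : ∀ (a : T) (x : Q) (b : T), r (i a * x * i b) = a * r x * b)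
    (hr1 : r 1 = 1) (h : HasTree T) : HasTree Q := by
  obtain ⟨f, g, h0, h1, h2, h3⟩ := h
  choose G hG using exists_res i
  have hle : ∀ {F F' : PPLat T}, F ≤ F' → LeOn (fun _ => True) (G F) (G F') := by
    intro F F' hFF M _ x hx
    rw [hG] at hx ⊢
    exact hFF _ hx
  refine HasTree.of_class (fun _ => True) (fun w => G (f w)) (fun w => G (g w)) ?_ ?_ ?_ ?_ ?_
  · intro w; exact hle (h0 w).le
  · intro w hcon
    apply (h0 w).not_ge
    rw [le_def]
    intro N n hn
    have h5 : unRes i (ModuleCat.of Qᵐᵒᵖ (CoindS i N)) (toCoind i r hr N n) ∈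
        (G (g w)).1 (ModuleCat.of Qᵐᵒᵖ (CoindS i N)) :=
      (hG (g w) _ _).2 (pp_hom_mem (g w) (toCoind i r hr N) hn)
    have h6 := (hG (f w) _ _).1 (hcon _ trivial h5)
    have h7 := pp_hom_mem (f w) (ofCoind i N) h6
    have h8 : ofCoind i N (toCoind i r hr N n) = n := by
      change op (r 1) • n = n
      rw [hr1, op_one, one_smul]
    have h9 : ofCoind i N (toCoind i r hr N n) ∈ (f w).1 N := h7
    rwa [h8] at h9
  · intro w; exact hle (h1 w)
  · intro w; exact hle (h2 w)
  · intro w; exact hle (h3 w)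

/-- the two transfers together -/
theorem HasTree.of_link {R A T : Type u} [Ring R] [Ring A] [Ring T] {e : R}
    (he : IsIdempotentElem e) (i : T →+* he.Corner) (r : he.Corner →+ T)
    (hr : ∀ (a : T) (x : he.Corner) (b : T), r (i a * x * i b) = a * r x * b) (hr1 : r 1 = 1)
    (f : T →+* A) (hf : IsRingEpi f) (h : HasTree A) : HasTree R := by
  -- `T` itself
  have h1 : HasTree T := by
    have e1 : IsIdempotentElem (1 : T) := IsIdempotentElem.one
    let j : e1.Corner →+* T :=
      { toFun := fun t => t.1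
        map_one' := rfl
        map_mul' := fun _ _ => rfl
        map_zero' := rfl
        map_add' := fun _ _ => rfl }
    refine HasTree.of_corner_epi e1 (f.comp j) ?_ h
    intro B _ g h hgh
    apply hf B g h
    ext t
    have := congrArg (fun q : e1.Corner →+* B => q ⟨t, t, by simp⟩) hgh
    exact this
  have h2 : HasTree he.Corner := HasTree.of_split i r hr hr1 h1
  exact HasTree.of_corner_epi he (RingHom.id _) (fun B _ g h hgh => by simpa using hgh) h2

end split

end Run7.h475
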