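import Mathlib
import Pool.Agent.Run7.h475.Split

set_option autoImplicit false

namespace Run7.h475

open MulOpposite

universe u

/-- pigeonhole for trees: finitely many monotone maps which are jointly strict -/
theorem HasTree.of_maps {R S : Type u} [Ring R] [Ring S] {ι : Type} [Finite ι]
    (lam : ι → PPLat S → PPLat R) (hm : ∀ i {F G}, F ≤ G → lam i F ≤ lam i G)
    (hs : ∀ F G, F ≤ G → (∀ i, lam i G ≤ lam i F) → G ≤ F) (h : HasTree S) : HasTree R := by
  classical
  obtain ⟨f, g, h0, h1, h2, h3⟩ := h
  -- descendants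
  have hdesc : ∀ w v, f w ≤ f (w ++ v) ∧ g (w ++ v) ≤ g w := by
    intro w v
    induction v using List.reverseRecOn with
    | nil => simp
    | append_singleton v b ih =>
      rw [← List.append_assoc]
      cases b
      · exact ⟨ih.1.trans (h1 _), ((h2 _).trans ((h0 _).le.trans (h3 _))).trans ih.2⟩
      · exact ⟨ih.1.trans (((h1 _).trans (h0 _).le).trans (h2 _)), (h3 _).trans ih.2⟩
  let Z : List Bool → Set ι := fun w => {i | ¬ lam i (g w) ≤ lam i (f w)}
  have hZ : ∀ w v, Z (w ++ v) ⊆ Z w := by
    intro w v i hi hcon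
    apply hi
    exact ((hm i (hdesc w v).2).trans hcon).trans (hm i (hdesc w v).1)
  have hex : ∃ n, ∃ w, (Z w).ncard = n := ⟨_, [], rfl⟩
  obtain ⟨w, hw⟩ := Nat.find_spec hex
  have hmin : ∀ v, Z (w ++ v) = Z w := by
    intro v
    apply Set.eq_of_subset_of_ncard_le (hZ w v) _ (Set.toFinite _)
    rw [hw]
    exact Nat.find_min' hex ⟨_, rfl⟩
  obtain ⟨i, hi⟩ : ∃ i, i ∈ Z w := by
    by_contra hcon
    push Not at hcon
    apply (h0 w).not_ge
    refine hs _ _ (h0 w).le fun i => ?_
    by_contra h4
    exact hcon i h4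
  refine ⟨fun v => lam i (f (w ++ v)), fun v => lam i (g (w ++ v)), ?_, ?_, ?_, ?_⟩
  · intro v
    refine lt_of_le_not_ge (hm i (h0 _).le) ?_
    have : i ∈ Z (w ++ v) := by rw [hmin]; exact hi
    exact this
  · intro v
    simp only [← List.append_assoc]
    exact hm i (h1 _)
  · intro v
    simp only [← List.append_assoc]
    exact hm i (h2 _)
  · intro v
    simp only [← List.append_assoc]
    exact hm i (h3 _)

section mat

variable {R : Type u} [Ring R] {n : ℕ}

/-- row vectors -/
def Row (n : ℕ) (M : Type u) : Type u := Fin n → M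

instance (M : Type u) [AddCommGroup M] : AddCommGroup (Row n M) :=
  inferInstanceAs (AddCommGroup (Fin n → M))

instance (M : Type u) [AddCommGroup M] [Module Rᵐᵒᵖ M] :
    Module (Matrix (Fin n) (Fin n) R)ᵐᵒᵖ (Row n M) where
  smul A x := fun j => ∑ i, op (A.unop i j) • x i
  one_smul x := by
    funext j
    change ∑ i, op ((1 : Matrix (Fin n) (Fin n) R) i j) • x i = x j
    rw [Finset.sum_eq_single j]
    · simp
    · intro i _ hi
      rw [Matrix.one_apply_ne hi]
      simp
    · simp
  mul_smul A B x := by
    funext j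
    change ∑ i, op ((B.unop * A.unop) i j) • x i =
      ∑ l, op (A.unop l j) • ∑ i, op (B.unop i l) • x i
    simp only [Matrix.mul_apply, Finset.smul_sum, smul_smul, ← op_mul]
    rw [Finset.sum_comm]
    refine Finset.sum_congr rfl fun i _ => ?_
    rw [Finset.op_sum, Finset.sum_smul]
  smul_zero A := by
    funext j
    change ∑ i, op (A.unop i j) • (0 : M) = 0
    simp
  smul_add A x y := by
    funext j
    change ∑ i, op (A.unop i j) • (x i + y i) =
      ∑ i, op (A.unop i j) • x i + ∑ i, op (A.unop i j) • y i
    simp only [smul_add, Finset.sum_add_distrib]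
  add_smul A B x := by
    funext j
    change ∑ i, op ((A.unop + B.unop) i j) • x i =
      ∑ i, op (A.unop i j) • x i + ∑ i, op (B.unop i j) • x i
    simp only [Matrix.add_apply, op_add, add_smul, Finset.sum_add_distrib]
  zero_smul x := by
    funext j
    change ∑ i, op ((0 : Matrix (Fin n) (Fin n) R) i j) • x i = 0
    simp

theorem row_smul (M : Type u) [AddCommGroup M] [Module Rᵐᵒᵖ M] (A : Matrix (Fin n) (Fin n) R)
    (x : Row n M) (j : Fin n) : (op A • x) j = ∑ i, op (A i j) • x i := rfl

/-- the module of row vectors -/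
def RowM (n : ℕ) (M : ModuleCat.{u} Rᵐᵒᵖ) : ModuleCat.{u} (Matrix (Fin n) (Fin n) R)ᵐᵒᵖ :=
  ModuleCat.of _ (Row n M)

theorem exists_row (F : PPLat (Matrix (Fin n) (Fin n) R)) (s : Fin n) : ∃ G : PPLat R,
    ∀ (M : ModuleCat.{u} Rᵐᵒᵖ) (z : M), z ∈ G.1 M ↔ ∃ x : Row n M, x ∈ F.1 (RowM n M) ∧
      (∀ t < s, x t = 0) ∧ x s = z := by
  classical
  obtain ⟨φ, hφ⟩ := F.2
  obtain ⟨ψ, hψ⟩ := exists_pp_gen (R := R) (ι := Fin n ⊕ (Fin φ.k × Fin n))
    (κ := Fin n ⊕ (Fin φ.m × Fin n))
    (Sum.elim (fun t => if t = s then -1 else 0) (fun _ => 0))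
    (Sum.elim (fun i => Sum.elim (fun t => if i = t ∧ t ≤ s then 1 else 0)
        (fun p => φ.a p.1 i p.2))
      (fun q => Sum.elim (fun _ => 0) (fun p => φ.B q.1 p.1 q.2 p.2)))
  refine ⟨ψ.toLat, fun M z => ?_⟩
  rw [PP.mem_toLat, hψ]
  have hsum : ∀ (x : Row n M) (t : Fin n),
      ∑ i, op (if i = t ∧ t ≤ s then (1 : R) else 0) • x i = if t ≤ s then x t else 0 := by
    intro x t
    rw [Finset.sum_eq_single t]
    · by_cases h : t ≤ s
      · simp [h]
      · simp [h]
    · intro i _ hi
      simp [hi]
    · simp
  constructor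
  · rintro ⟨y, hy⟩
    refine ⟨fun i => y (Sum.inl i), ?_, ?_, ?_⟩
    · refine (hφ (RowM n M) _).2 ?_
      obtain ⟨X, hX⟩ : ∃ X : Row n M, X = fun i => y (Sum.inl i) := ⟨_, rfl⟩
      obtain ⟨Y, hY⟩ : ∃ Y : Fin φ.k → Row n M, Y = fun b i => y (Sum.inr (b, i)) := ⟨_, rfl⟩
      refine ⟨Y, fun j => ?_⟩
      change op (φ.a j) • (show Row n M from fun i => y (Sum.inl i)) +
        ∑ i, op (φ.B i j) • Y i = (0 : Row n M)
      rw [← hX]
      funext c
      have := hy (Sum.inr (j, c))
      simp only [Sum.elim_inr, op_zero, zero_smul, zero_add, Fintype.sum_sum_type, Sum.elim_inl,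
        Fintype.sum_prod_type] at this
      change (op (φ.a j) • X) c + (∑ i, op (φ.B i j) • Y i : Row n M) c = 0
      rw [row_smul]
      have e : (∑ i, op (φ.B i j) • Y i : Row n M) c =
          ∑ i, ∑ l, op (φ.B i j l c) • Y i l := by
        exact (Finset.sum_apply (M := fun _ => M) c Finset.univ (fun i => (op (φ.B i j) • Y i)))
      rw [e, hX, hY]
      exact this
    · intro t ht
      have := hy (Sum.inl t)
      simp only [Sum.elim_inl, Fintype.sum_sum_type, Sum.elim_inr, op_zero, zero_smul,
        Finset.sum_const_zero, add_zero] at this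
      rw [hsum (fun i => y (Sum.inl i)), if_neg (ne_of_lt ht), if_pos ht.le] at this
      simpa using this
    · have := hy (Sum.inl s)
      simp only [Sum.elim_inl, Fintype.sum_sum_type, Sum.elim_inr, op_zero, zero_smul,
        Finset.sum_const_zero, add_zero] at this
      rw [hsum (fun i => y (Sum.inl i))] at this
      simp only [if_true, le_refl, op_neg, op_one, neg_smul, one_smul] at this
      exact (neg_add_eq_zero.1 this).symm
  · rintro ⟨x, hx, hx0, hxs⟩
    obtain ⟨y, hy⟩ := (hφ (RowM n M) x).1 hx
    refine ⟨Sum.elim x (fun q => y q.1 q.2), fun k => ?_⟩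
    rcases k with t | ⟨j, c⟩
    · simp only [Sum.elim_inl, Fintype.sum_sum_type, Sum.elim_inr, op_zero, zero_smul,
        Finset.sum_const_zero, add_zero]
      rw [hsum x]
      by_cases h1 : t = s
      · subst h1
        rw [if_pos rfl, if_pos le_rfl, hxs]
        simp
      · rw [if_neg h1]
        by_cases h2 : t ≤ s
        · rw [if_pos h2, hx0 t (lt_of_le_of_ne h2 h1)]
          simp
        · rw [if_neg h2]
          simp
    · simp only [Sum.elim_inr, op_zero, zero_smul, zero_add, Fintype.sum_sum_type, Sum.elim_inl,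
        Fintype.sum_prod_type]
      have h := congrFun (hy j) c
      have e : (∑ i, op (φ.B i j) • y i : Row n M) c =
          ∑ i, ∑ l, op (φ.B i j l c) • y i l := by
        exact (Finset.sum_apply (M := fun _ => M) c Finset.univ
          (fun i => (op (φ.B i j) • y i : Row n M)))
      change (op (φ.a j) • x) c + (∑ i, op (φ.B i j) • y i : Row n M) c = 0 at h
      rw [row_smul, e] at h
      exact h

/-- scalar matrices -/
def scalarM (n : ℕ) (R : Type u) [Ring R] : R →+* Matrix (Fin n) (Fin n) R := Matrix.scalar (Fin n)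

open Matrix in
/-- a module over the matrix ring is a direct summand of a module of row vectors -/
theorem mat_summand (o : Fin n) (N : ModuleCat.{u} (Matrix (Fin n) (Fin n) R)ᵐᵒᵖ) :
    ∃ (M : ModuleCat.{u} Rᵐᵒᵖ) (i : N →ₗ[(Matrix (Fin n) (Fin n) R)ᵐᵒᵖ] RowM n M)
      (r : RowM n M →ₗ[(Matrix (Fin n) (Fin n) R)ᵐᵒᵖ] N), ∀ x, r (i x) = x := by
  classical
  letI : Module Rᵐᵒᵖ N := Module.compHom N (scalarM n R).op
  have hsm : ∀ (a : R) (x : N), op a • x = op (scalarM n R a) • x := fun a x => rfl
  have hdec : ∀ (A : Matrix (Fin n) (Fin n) R) (j : Fin n),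
      A * single j o 1 = ∑ i, single i o 1 * scalarM n R (A i j) := by
    intro A j
    ext p q
    rw [Matrix.sum_apply]
    simp only [scalarM, Matrix.scalar_apply, Matrix.mul_diagonal, Matrix.single_apply]
    rw [Finset.sum_eq_single p]
    · by_cases hq : o = q
      · subst hq
        simp [Matrix.mul_apply, Matrix.single_apply]
      · simp [hq, Matrix.mul_apply, Matrix.single_apply]
    · intro b _ hb
      simp [hb]
    · simp
  have hdec' : ∀ (A : Matrix (Fin n) (Fin n) R) (i : Fin n),
      single o i 1 * A = ∑ j, scalarM n R (A i j) * single o j 1 := by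
    intro A i
    ext p q
    rw [Matrix.sum_apply]
    simp only [scalarM, Matrix.scalar_apply, Matrix.diagonal_mul, Matrix.single_apply]
    rw [Finset.sum_eq_single q]
    · by_cases hq : o = p
      · subst hq
        simp [Matrix.mul_apply, Matrix.single_apply]
      · simp [hq, Matrix.mul_apply, Matrix.single_apply]
    · intro b _ hb
      simp [hb]
    · simp
  refine ⟨ModuleCat.of Rᵐᵒᵖ N,
    { toFun := fun x => (fun j => op (single j o (1 : R)) • x : Row n N)
      map_add' := fun x y => by
        funext j
        exact smul_add _ _ _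
      map_smul' := fun A x => by
        funext j
        change op (single j o (1 : R)) • (A • x) =
          ∑ i, op (A.unop i j) • (op (single i o (1 : R)) • x)
        have : ∀ i, op (A.unop i j) • (op (single i o (1 : R)) • x) =
            op (single i o (1 : R) * scalarM n R (A.unop i j)) • x := by
          intro i
          rw [hsm, smul_smul, ← op_mul]
        simp only [this]
        rw [← Finset.sum_smul, ← Finset.op_sum, ← hdec, op_mul, mul_smul, op_unop] },
    { toFun := fun y => ∑ i, op (single o i (1 : R)) • (show N from y i)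
      map_add' := fun x y => by
        rw [← Finset.sum_add_distrib]
        exact Finset.sum_congr rfl fun i _ => smul_add _ _ _
      map_smul' := fun A y => by
        change ∑ j, op (single o j (1 : R)) • (∑ i, op (A.unop i j) • (show N from y i)) =
          A • ∑ i, op (single o i (1 : R)) • (show N from y i)
        have h1 : ∀ i, A • (op (single o i (1 : R)) • (show N from y i)) =
            ∑ j, op (single o j (1 : R)) • (op (A.unop i j) • (show N from y i)) := by
          intro i
          have : ∀ j, op (single o j (1 : R)) • (op (A.unop i j) • (show N from y i)) =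
              op (scalarM n R (A.unop i j) * single o j (1 : R)) • (show N from y i) := by
            intro j
            rw [hsm, smul_smul, ← op_mul]
          simp only [this]
          rw [← Finset.sum_smul, ← Finset.op_sum, ← hdec', op_mul, mul_smul, op_unop]
        rw [Finset.smul_sum]
        simp only [h1, Finset.smul_sum]
        rw [Finset.sum_comm] }, ?_⟩
  intro x
  change ∑ i : Fin n, op (single o i (1 : R)) • (op (single i o (1 : R)) • x) = x
  have h1 : ∀ i : Fin n, op (single o i (1 : R)) • (op (single i o (1 : R)) • x) =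
      op (single i i (1 : R)) • x := by
    intro i
    rw [smul_smul, ← op_mul, Matrix.single_mul_single_same, one_mul]
  simp only [h1]
  have h2 : ∑ i : Fin n, single i i (1 : R) = 1 := Matrix.sum_single_one
  rw [← Finset.sum_smul, ← Finset.op_sum, h2, op_one, one_smul]

/-- Transfer: a tree in the pp lattice of a matrix ring gives a tree in the pp lattice of the
ring. -/
theorem HasTree.of_matrix (h : HasTree (Matrix (Fin n) (Fin n) R)) : HasTree R := by
  choose lam hlam using exists_row (R := R) (n := n)
  refine HasTree.of_maps (fun s F => lam F s) ?_ ?_ h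
  · intro s F G hFG
    rw [le_def]
    intro M z hz
    rw [hlam] at hz ⊢
    obtain ⟨x, hx, h1, h2⟩ := hz
    exact ⟨x, hFG _ hx, h1, h2⟩
  · intro F G hFG hcon
    rw [le_def]
    intro N x hx
    rcases Nat.eq_zero_or_pos n with hn | hn
    · subst hn
      have h1 : (1 : Matrix (Fin 0) (Fin 0) R) = 0 := Subsingleton.elim _ _
      have h2 : x = 0 := by
        rw [← one_smul (Matrix (Fin 0) (Fin 0) R)ᵐᵒᵖ x, ← op_one, h1, op_zero, zero_smul]
      rw [h2]
      exact AddSubgroup.zero_mem _
    obtain ⟨M, i, r, hir⟩ := mat_summand ⟨0, hn⟩ N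
    have key : ∀ y : Row n M, y ∈ G.1 (RowM n M) → y ∈ F.1 (RowM n M) := by
      intro y hy
      have step : ∀ s ≤ n, ∃ z : Row n M, z ∈ F.1 (RowM n M) ∧
          ∀ t : Fin n, (t : ℕ) < s → y t = z t := by
        intro s
        induction s with
        | zero => exact fun _ => ⟨0, AddSubgroup.zero_mem _, fun t ht => absurd ht (by omega)⟩
        | succ s ih =>
          intro hs
          obtain ⟨z, hz, hz2⟩ := ih (by omega)
          have h3 : (y - z) ∈ G.1 (RowM n M) := AddSubgroup.sub_mem _ hy (hFG _ hz)
          have h4 : (y - z) ⟨s, by omega⟩ ∈ (lam G ⟨s, by omega⟩).1 M := by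
            rw [hlam]
            refine ⟨y - z, h3, fun t ht => ?_, rfl⟩
            change y t - z t = 0
            rw [hz2 t (by simpa [Fin.lt_def] using ht), sub_self]
          have h5 := hcon ⟨s, by omega⟩ M h4
          rw [hlam] at h5
          obtain ⟨z', hz', h6, h7⟩ := h5
          refine ⟨z + z', AddSubgroup.add_mem _ hz hz', fun t ht => ?_⟩
          change y t = z t + z' t
          rcases Nat.lt_or_ge t s with h8 | h8
          · rw [h6 t (by simpa [Fin.lt_def] using h8), add_zero]
            exact hz2 t h8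
          · have h9 : t = ⟨s, by omega⟩ := Fin.ext (by simp; omega)
            rw [h9, h7]
            change y _ = z _ + (y _ - z _)
            abel
      obtain ⟨z, hz, hz2⟩ := step n le_rfl
      have : y = z := by
        funext t
        exact hz2 t t.2
      rw [this]
      exact hz
    have h1 := key _ (pp_hom_mem G i hx)
    have h2 := pp_hom_mem F r h1
    rwa [hir] at h2

end mat

end Run7.h475
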