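import Mathlib
import Pool.Agent.Run7.h475.Mat

set_option autoImplicit false

namespace Run7.h475

universe u

/-- Transfer along all the steps -/
theorem HasTree.of_liesOver {R A : Type u} [Ring R] [Ring A] (h : LiesOver R A) (hA : HasTree A) :
    HasTree R := by
  induction h with
  | epi R A f hf =>
    have e1 : IsIdempotentElem (1 : R) := IsIdempotentElem.one
    let j : e1.Corner →+* R :=
      { toFun := fun t => t.1
        map_one' := rfl
        map_mul' := fun _ _ => rfl
        map_zero' := rfl
        map_add' := fun _ _ => rfl }
    refine HasTree.of_corner_epi e1 (f.comp j) ?_ hA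
    intro B _ g h hgh
    apply hf B g h
    ext t
    have := congrArg (fun q : e1.Corner →+* B => q ⟨t, t, by simp⟩) hgh
    exact this
  | corner R e he =>
    exact HasTree.of_corner_epi he (RingHom.id _) (fun B _ g h hgh => by simpa using hgh) hA
  | matrix R n => exact HasTree.of_matrix hA
  | split R A i r hr hr1 => exact HasTree.of_split i r hr hr1 hA
  | trans R S A _ _ ih1 ih2 => exact ih1 (ih2 hA)

theorem LiesOver.refl (R : Type u) [Ring R] : LiesOver R R :=
  LiesOver.epi R R (RingHom.id R) (fun B _ g h hgh => by simpa using hgh)

end Run7.h475
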