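import Mathlib
import Pool.Agent.Run7.h475.MonoMod
import Pool.Agent.Run7.h475.ClanMain

set_option autoImplicit false

namespace Run7.h475

universe u

open MulOpposite

namespace ClanData

namespace RWord

variable {C : ClanData} (B : RWord C) {k : Type u} [Field k]

open BiWord (nx pos nx_nx pos_zero pos_succ pos_nx Sp qmk dl dl_self dl_ne)

theorem vt_el_fst (d : Bool) (j : ℤ) : B.vt (B.el d j).1 = B.vt j := rfl

/-- the element used to pass a junction acts as the swap -/
theorem ract_theta (hk : (2 : k) ≠ 0 ∨ ∀ v, ¬ C.special v) {v : C.V} (f : Sp k) {d : Bool} {j : ℤ}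
    (hj : B.vt j = v) : B.ract (C.theta (-1 : k) v) f (B.el d j) = f (B.el (!d) j) := by
  classical
  by_cases hv : C.special v
  · have h2 : (2 : k) ≠ 0 := hk.resolve_right fun h => h v hv
    have e0 : B.ract (C.theta (-1 : k) v) f = B.sAct v f + (-1 : k) • (B.eAct v f - B.sAct v f) := by
      have h1 : B.ract (C.theta (-1 : k) v) =
          B.sAct v + (-1 : k) • (B.eAct v - B.sAct v) := by
        rw [← B.ract_s ⟨v, hv⟩, ← B.ract_e v]
        unfold theta ract
        rw [dif_pos hv]
        simp only [map_add, map_smul, map_sub, unop_add, unop_smul, unop_sub]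
      rw [h1]
      rfl
    rw [e0]
    simp only [Pi.add_apply, Pi.smul_apply, Pi.sub_apply, smul_eq_mul]
    rw [sAct_apply, eAct_apply]
    simp only [el_fst, hj, if_true]
    cases d
    · simp only [Bool.not_false]
      field_simp
      ring
    · simp only [Bool.not_true]
      field_simp
      ring
  · unfold theta
    rw [dif_neg hv, ract_e, eAct_apply]
    simp only [el_fst, hj, if_true]
    have hs : ¬ C.special (B.vt j) := by rw [hj]; exact hv
    rw [B.el_not_special hs, B.el_not_special hs]

omit [Field k] in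
theorem ext_el {f g : Sp k} (h : ∀ d j, f (B.el d j) = g (B.el d j))
    (h' : ∀ j, ¬ C.special (B.vt j) → f (j, true) = g (j, true)) : f = g := by
  funext x
  rcases x with ⟨j, b⟩
  by_cases hs : C.special (B.vt j)
  · have := h (!b) j
    rwa [B.el_special hs, Bool.not_not] at this
  · cases b
    · have := h true j
      rwa [B.el_not_special hs] at this
    · exact h' j hs

theorem ract_theta_other {v : C.V} (f : Sp k) {x : ℤ × Bool} (hx : B.vt x.1 ≠ v) :
    B.ract (C.theta (-1 : k) v) f x = 0 := by
  classical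
  unfold theta
  split_ifs with hv
  · have h1 : B.ract (C.fs k ⟨v, hv⟩ + (-1 : k) • (C.fe k v - C.fs k ⟨v, hv⟩)) =
      B.sAct v + (-1 : k) • (B.eAct v - B.sAct v) := by
      rw [← B.ract_s ⟨v, hv⟩, ← B.ract_e v]
      unfold ract
      simp only [map_add, map_smul, map_sub, unop_add, unop_smul, unop_sub]
    rw [h1]
    change B.sAct v f x + (-1) * (B.eAct v f x - B.sAct v f x) = 0
    rw [sAct_apply, eAct_apply, if_neg hx, if_neg hx]
    ring
  · rw [ract_e, eAct_apply, if_neg hx]

theorem theta_dl (hk : (2 : k) ≠ 0 ∨ ∀ v, ¬ C.special v) (d : Bool) (J : ℤ) :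
    B.ract (C.theta (-1 : k) (B.vt J)) (dl (B.el (!d) J)) = (dl (B.el d J) : Sp k) := by
  apply B.ext_el
  · intro d' j'
    by_cases hv : B.vt j' = B.vt J
    · rw [B.ract_theta hk _ hv]
      by_cases hj : j' = J
      · subst hj
        by_cases hs : C.special (B.vt j')
        · by_cases hd : d' = d
          · subst hd; rw [dl_self, dl_self]
          · have h1 : B.el (!d') j' ≠ B.el (!d) j' := by
              intro h
              apply hd
              have := B.el_special_inj hs h
              simpa using this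
            have h2 : B.el d' j' ≠ B.el d j' := fun h => hd (B.el_special_inj hs h)
            simp [dl, Pi.single_apply, h1, h2]
        · simp only [B.el_not_special hs]
      · have h1 : B.el (!d') j' ≠ B.el (!d) J := fun h => hj (congrArg Prod.fst h)
        have h2 : B.el d' j' ≠ B.el d J := fun h => hj (congrArg Prod.fst h)
        simp [dl, Pi.single_apply, h1, h2]
    · rw [B.ract_theta_other _ (by simpa [el_fst] using hv)]
      have h2 : B.el d' j' ≠ B.el d J := by
        intro h
        have h3 : j' = J := congrArg Prod.fst h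
        exact hv (by rw [h3])
      simp [dl, Pi.single_apply, h2]
  · intro j' hj'
    have key : ∀ d', (dl (B.el d' J) : Sp k) (j', true) = 0 := by
      intro d'
      by_contra h
      have h1 := dl_ne h
      have h2 : j' = J := congrArg Prod.fst h1
      subst h2
      rw [B.el_not_special hj'] at h1
      simp at h1
    rw [key]
    unfold theta
    split_ifs with hv
    · have h1 : B.vt j' ≠ B.vt J := by intro h; exact hj' (by rw [h]; exact hv)
      have := B.ract_theta_other (k := k) (v := B.vt J) (dl (B.el (!d) J)) (x := (j', true)) h1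
      unfold theta at this
      rwa [dif_pos hv] at this
    · rw [ract_e, eAct_apply]
      split_ifs
      · exact key _
      · rfl

/-- the module as an object of the category of modules -/
noncomputable abbrev MM (hk : (2 : k) ≠ 0 ∨ ∀ v, ¬ C.special v) : ModuleCat.{u} (C.Alg k)ᵐᵒᵖ :=
  ModuleCat.of (C.Alg k)ᵐᵒᵖ (B.WMod hk)

/-- membership in the subgroup defined by `F` -/
def Mem (hk : (2 : k) ≠ 0 ∨ ∀ v, ¬ C.special v) (F : PPLat (C.Alg k)) (f : Sp k) : Prop :=
  (show B.WMod hk from f) ∈ F.1 (B.MM hk)

theorem mem_opL_true {hk : (2 : k) ≠ 0 ∨ ∀ v, ¬ C.special v} {a : C.A} {F : PPLat (C.Alg k)}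
    {f : Sp k} : B.Mem hk (C.opL (-1 : k) (a, true) F) f ↔
      B.Mem hk F (B.ract (C.theta (-1 : k) (C.tgt a)) (B.act a f)) := by
  change op (qmk C k (C.fa k a * C.theta (-1 : k) (C.tgt a))) • (show B.WMod hk from f) ∈
    F.1 (B.MM hk) ↔ _
  rw [smul_def, ract_mul, ract_a]
  exact Iff.rfl

theorem mem_opL_false {hk : (2 : k) ≠ 0 ∨ ∀ v, ¬ C.special v} {a : C.A} {F : PPLat (C.Alg k)}
    {f : Sp k} : B.Mem hk (C.opL (-1 : k) (a, false) F) f ↔
      ∃ g : Sp k, B.Mem hk F (B.ract (C.theta (-1 : k) (C.src a)) g) ∧ B.act a g = f := by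
  change (∃ y : B.WMod hk, (op (qmk C k (C.theta (-1 : k) (C.src a))) • y ∈ F.1 (B.MM hk)) ∧
    op (qmk C k (C.fa k a)) • y = (show B.WMod hk from f)) ↔ _
  simp only [smul_def, ract_a]
  exact Iff.rfl

/-- the coefficient is transported along a letter -/
theorem coeff_step {hk : (2 : k) ≠ 0 ∨ ∀ v, ¬ C.special v} {l : C.Letter} {F : PPLat (C.Alg k)}
    {f : Sp k} (hf : B.Mem hk (C.opL (-1 : k) l F) f) {d : Bool} {j : ℤ}
    (h : B.rd d j = l) : ∃ g : Sp k, B.Mem hk F g ∧
      g (B.el d (nx d j)) = f (B.el d j) := by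
  rcases l with ⟨a, b⟩
  cases b
  · rw [mem_opL_false] at hf
    obtain ⟨g, hg, rfl⟩ := hf
    refine ⟨_, hg, ?_⟩
    have hv : B.vt (nx d j) = C.src a := by rw [← B.stop_rd, h]; rfl
    rw [B.ract_theta hk _ hv, B.act_el h]
  · rw [mem_opL_true] at hf
    refine ⟨_, hf, ?_⟩
    have hv : B.vt (nx d j) = C.tgt a := by rw [← B.stop_rd, h]; rfl
    rw [B.ract_theta hk _ hv]
    have h2 : B.rd (!d) (nx d j) = (a, false) := by rw [rd_nx, h]; rfl
    rw [B.act_el h2, Bool.not_not, nx_nx]

theorem act_dl {a : C.A} {d : Bool} {j : ℤ} (h : B.rd d j = (a, true)) :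
    B.act a (dl (B.el d j) : Sp k) = dl (B.el (!d) (nx d j)) := by
  have h2 : B.rd (!d) (nx d j) = (a, false) := by rw [rd_nx, h]; rfl
  funext y
  by_cases hy : y = B.el (!d) (nx d j)
  · rw [hy, B.act_el h2, Bool.not_not, nx_nx, dl_self, dl_self]
  · have h3 : (dl (B.el (!d) (nx d j)) : Sp k) y = 0 := by
      by_contra h4
      exact hy (dl_ne h4)
    rw [h3]
    by_contra h4
    obtain ⟨d', j', h5, h6, h7⟩ := B.act_ne h4
    have h8 := dl_ne h7
    have h9 : nx d' j' = j := by
      have := congrArg Prod.fst h8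
      simpa [el_fst] using this
    have h10 : B.rd (!d') j = (a, true) := by
      rw [← h9, rd_nx, h6]; rfl
    rw [h9] at h8
    have h11 : (!d') = d := by
      by_cases hs : C.special (B.vt j)
      · exact B.el_special_inj hs h8
      · by_contra hne
        have h12 : (!d') = !d := by revert hne; cases d' <;> cases d <;> simp
        rw [h12] at h10
        exact B.rd_ne' hs d (by rw [h, h10])
    apply hy
    rw [h5]
    have h13 : j' = nx d j := by
      rw [← h11, ← h9, nx_nx]
    rw [h13, ← h11, Bool.not_not]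

/-- basis elements are transported backwards along a letter -/
theorem dl_step {hk : (2 : k) ≠ 0 ∨ ∀ v, ¬ C.special v} {l : C.Letter} {F : PPLat (C.Alg k)}
    {d : Bool} {j : ℤ} (h : B.rd d j = l)
    (hF : B.Mem hk F (dl (B.el d (nx d j)))) :
    B.Mem hk (C.opL (-1 : k) l F) (dl (B.el d j)) := by
  rcases l with ⟨a, b⟩
  cases b
  · rw [mem_opL_false]
    refine ⟨(dl (B.el (!d) (nx d j)) : Sp k), ?_, ?_⟩
    · have hv : C.src a = B.vt (nx d j) := by rw [← B.stop_rd, h]; rfl
      rw [hv, B.theta_dl hk]
      exact hF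
    · have h2 : B.rd (!d) (nx d j) = (a, true) := by rw [rd_nx, h]; rfl
      have := B.act_dl (k := k) h2
      rw [Bool.not_not, nx_nx] at this
      exact this
  · rw [mem_opL_true, B.act_dl h]
    have hv : C.tgt a = B.vt (nx d j) := by rw [← B.stop_rd, h]; rfl
    rw [hv, B.theta_dl hk]
    exact hF

/-- a direct letter different from the letters at the junction kills the basis element -/
theorem dl_kill {hk : (2 : k) ≠ 0 ∨ ∀ v, ¬ C.special v} {a : C.A} {F : PPLat (C.Alg k)}
    {d : Bool} {j : ℤ} (h : B.rd d j ≠ (a, true))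
    (h' : ¬ C.special (B.vt j) → B.rd (!d) j ≠ (a, true)) :
    B.Mem hk (C.opL (-1 : k) (a, true) F) (dl (B.el d j)) := by
  rw [mem_opL_true]
  have e : B.act a (dl (B.el d j) : Sp k) = 0 := by
    funext y
    by_contra h4
    obtain ⟨d', j', h5, h6, h7⟩ := B.act_ne h4
    have h8 := dl_ne h7
    have h9 : nx d' j' = j := by
      have := congrArg Prod.fst h8
      simpa [el_fst] using this
    have h10 : B.rd (!d') j = (a, true) := by
      rw [← h9, rd_nx, h6]; rfl
    rw [h9] at h8
    by_cases h11 : (!d') = d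
    · rw [h11] at h10; exact h h10
    · by_cases hs : C.special (B.vt j)
      · exact h11 (B.el_special_inj hs h8)
      · have h12 : (!d') = !d := by revert h11; cases d' <;> cases d <;> simp
        rw [h12] at h10
        exact h' hs h10
  rw [e, map_zero]
  exact AddSubgroup.zero_mem _

/-- an inverse letter different from the letters at the junction does not reach it -/
theorem coeff_zero {hk : (2 : k) ≠ 0 ∨ ∀ v, ¬ C.special v} {a : C.A} {F : PPLat (C.Alg k)}
    {f : Sp k} (hf : B.Mem hk (C.opL (-1 : k) (a, false) F) f) {d : Bool} {j : ℤ}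
    (h : B.rd d j ≠ (a, false)) (h' : ¬ C.special (B.vt j) → B.rd (!d) j ≠ (a, false)) :
    f (B.el d j) = 0 := by
  rw [mem_opL_false] at hf
  obtain ⟨g, -, rfl⟩ := hf
  by_contra hne
  obtain ⟨d', j', h5, h6, _⟩ := B.act_ne hne
  have h9 : j' = j := by
    have := congrArg Prod.fst h5
    simpa [el_fst] using this.symm
  subst h9
  by_cases h11 : d' = d
  · rw [h11] at h6; exact h h6
  · by_cases hs : C.special (B.vt j')
    · exact h11 (B.el_special_inj hs h5).symm
    · have h12 : d' = !d := by revert h11; cases d' <;> cases d <;> simp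
      rw [h12] at h6
      exact h' hs h6

/-- the list `w` is read from the junction `j` in direction `true` -/
def Reads (j : ℤ) (w : List C.Letter) : Prop := ∀ (i : ℕ) (hi : i < w.length), B.W (j + 1 + i) = w[i]

theorem Reads.tail {j : ℤ} {l : C.Letter} {w : List C.Letter} (h : B.Reads j (l :: w)) :
    B.Reads (j + 1) w := by
  intro i hi
  have := h (i + 1) (by simpa using hi)
  simp only [List.getElem_cons_succ] at this
  rw [← this]
  congr 1
  push_cast
  ring

theorem Reads.head {j : ℤ} {l : C.Letter} {w : List C.Letter} (h : B.Reads j (l :: w)) :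
    B.rd true j = l := by
  have := h 0 (by simp)
  simpa [rd] using this

theorem Reads.left {j : ℤ} {w w' : List C.Letter} (h : B.Reads j (w ++ w')) : B.Reads j w := by
  intro i hi
  rw [h i (by simp; omega), List.getElem_append_left hi]

theorem Reads.right {j : ℤ} {w w' : List C.Letter} (h : B.Reads j (w ++ w')) :
    B.Reads (j + w.length) w' := by
  intro i hi
  have := h (w.length + i) (by simp; omega)
  rw [List.getElem_append_right (by omega)] at this
  simp only [Nat.add_sub_cancel_left] at this
  rw [← this]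
  congr 1
  push_cast
  ring

theorem coeff_list {hk : (2 : k) ≠ 0 ∨ ∀ v, ¬ C.special v} : ∀ (w : List C.Letter)
    {F : PPLat (C.Alg k)} {f : Sp k} (_ : B.Mem hk (C.opsL (-1 : k) w F) f) {j : ℤ}
    (_ : B.Reads j w), ∃ g : Sp k, B.Mem hk F g ∧
      g (B.el true (j + w.length)) = f (B.el true j) := by
  intro w
  induction w with
  | nil =>
    intro F f hf j _
    exact ⟨f, hf, by simp⟩
  | cons l w ih =>
    intro F f hf j h
    obtain ⟨g, hg, e⟩ := B.coeff_step (F := C.opsL (-1 : k) w F) hf (h.head B)
    obtain ⟨g', hg', e'⟩ := ih hg (h.tail B)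
    refine ⟨g', hg', ?_⟩
    have e1 : nx true j = j + 1 := rfl
    rw [e1] at e
    rw [← e, ← e']
    congr 2
    simp
    ring

theorem dl_list {hk : (2 : k) ≠ 0 ∨ ∀ v, ¬ C.special v} : ∀ (w : List C.Letter)
    {F : PPLat (C.Alg k)} {j : ℤ} (_ : B.Reads j w)
    (_ : B.Mem hk F (dl (B.el true (j + w.length)))),
    B.Mem hk (C.opsL (-1 : k) w F) (dl (B.el true j)) := by
  intro w
  induction w with
  | nil =>
    intro F j _ hF
    change B.Mem hk F (dl (B.el true j))
    simpa using hF
  | cons l w ih =>
    intro F j h hF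
    refine B.dl_step (F := C.opsL (-1 : k) w F) (h.head B) (ih (h.tail B) ?_)
    have e1 : nx true j + (w.length : ℤ) = j + (l :: w).length := by
      simp [nx]; ring
    rw [e1]
    exact hF

end RWord

end ClanData

end Run7.h475
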