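import Mathlib
import Pool.Agent.Run7.h475.MonoMain

set_option autoImplicit false

namespace Run7.h475

universe u

open MulOpposite

namespace ClanData

open BiWord (nx pos nx_nx pos_zero pos_succ pos_nx Sp qmk dl dl_self dl_ne)

variable {C : ClanData}

theorem append_last {α : Type*} (L R : List α) (h : 0 < L.length) :
    L ++ R = L.take (L.length - 1) ++ L[L.length - 1] :: R := by
  have e : L = L.take (L.length - 1) ++ [L[L.length - 1]] := by
    conv_lhs => rw [← List.take_append_drop (L.length - 1) L]
    congr 1
    rw [List.drop_eq_getElem_cons (show L.length - 1 < L.length by omega)]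
    congr 1
    rw [List.drop_eq_nil_iff]
    omega
  have e2 : L.take (L.length - 1) ++ L[L.length - 1] :: R =
      (L.take (L.length - 1) ++ [L[L.length - 1]]) ++ R := by simp only [List.append_assoc,
        List.singleton_append]
  rw [e2, ← e]

/-- windows of a periodic word are factors of powers -/
theorem periodic_win {w : List C.Letter} (hw : 0 < w.length)
    (hmod : ∀ i : ℤ, (i % (w.length : ℤ)).toNat < w.length) (i : ℤ) (l : List C.Letter)
    (hl : ∀ (m : ℕ) (x : C.Letter), l[m]? = some x →
      w[((i + m) % (w.length : ℤ)).toNat]'(hmod _) = x) :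
    ∃ n, l <:+: power w n := by
  set r := (i % (w.length : ℤ)).toNat with hr
  have hr2 : (r : ℤ) = i % (w.length : ℤ) := by
    rw [hr]; exact Int.toNat_of_nonneg (Int.emod_nonneg _ (by omega))
  refine ⟨r + l.length, (power w (r + l.length)).take r,
    (power w (r + l.length)).drop (r + l.length), ?_⟩
  have hlen : r + l.length ≤ (power w (r + l.length)).length := by
    rw [length_power]; nlinarith
  apply List.ext_getElem
  · simp only [List.length_append, List.length_take, List.length_drop]
    omega
  · intro t h1 h2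
    rcases Nat.lt_or_ge t r with h3 | h3
    · rw [List.getElem_append_left (by simp; omega), List.getElem_append_left (by simp; omega)]
      simp
    · rcases Nat.lt_or_ge t (r + l.length) with h4 | h4
      · rw [List.getElem_append_left (by simp; omega), List.getElem_append_right (by simp; omega)]
        have h5 : (List.take r (power w (r + l.length))).length = r := by
          rw [List.length_take]; omega
        have h6 : t - r < l.length := by omega
        have h7 := hl (t - r) (l[t - r]) (List.getElem?_eq_getElem h6)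
        rw [power_getElem w hw]
        have h8 : l[t - (List.take r (power w (r + l.length))).length]'(by rw [h5]; exact h6) =
            l[t - r] := by congr 1; rw [h5]
        rw [h8, ← h7]
        congr 1
        have h9 : (i + ((t - r : ℕ) : ℤ)) % (w.length : ℤ) = (t : ℤ) % (w.length : ℤ) := by
          rw [Nat.cast_sub h3]
          rw [show i + ((t : ℤ) - r) = t + (i - r) by ring, hr2]
          rw [Int.add_emod, show (i - i % (w.length : ℤ)) % (w.length : ℤ) = 0 by
            rw [Int.sub_emod, Int.emod_emod_of_dvd _ (dvd_refl _)]; simp]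
          simp
        rw [h9]
        omega
      · rw [List.getElem_append_right (by simp; omega)]
        simp only [List.getElem_drop]
        congr 1
        simp
        omega

/-- the periodic bi-infinite word of a word all of whose powers are words -/
noncomputable def rperiodic (w : List C.Letter) (hw : 0 < w.length)
    (h : ∀ m, C.IsWord (power w m)) : RWord C :=
  have hmod : ∀ i : ℤ, (i % (w.length : ℤ)).toNat < w.length := fun i => by
    have h1 : 0 ≤ i % (w.length : ℤ) := Int.emod_nonneg _ (by omega)
    have h2 : i % (w.length : ℤ) < w.length := Int.emod_lt_of_pos _ (by omega)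
    omega
  have hbad : ∀ i : ℤ, ¬ C.Bad [w[(i % (w.length : ℤ)).toNat]'(hmod i),
          w[((i + 1) % (w.length : ℤ)).toNat]'(hmod (i + 1))] := by
    intro i hb
    obtain ⟨n, hn⟩ := periodic_win hw hmod i [w[(i % (w.length : ℤ)).toNat]'(hmod i),
        w[((i + 1) % (w.length : ℤ)).toNat]'(hmod (i + 1))] (by
      intro m x hm
      rcases m with _ | _ | m
      · simpa using hm
      · simpa using hm
      · simp at hm)
    exact h n _ hb hn
  { W := fun i => w[(i % (w.length : ℤ)).toNat]'(hmod i)
    comp := by
      intro i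
      by_contra hne
      exact hbad i (Bad.not_composable _ _ hne)
    red := by
      intro i hs he
      apply hbad i
      rw [he]
      exact Bad.cancel _ hs
    avoid := by
      intro z hz i hcon
      obtain ⟨n, hn⟩ := periodic_win hw hmod i (z.map fun a => (a, true)) (by
        intro m x hm
        rw [List.getElem?_map] at hm
        obtain ⟨a, ha, rfl⟩ := Option.map_eq_some_iff.1 hm
        exact hcon m a ha)
      exact h n _ (Bad.relation z hz) hn
    avoid_inv := by
      intro z hz i hcon
      obtain ⟨n, hn⟩ := periodic_win hw hmod i (z.reverse.map fun a => (a, false)) (by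
        intro m x hm
        rw [List.getElem?_map] at hm
        obtain ⟨a, ha, rfl⟩ := Option.map_eq_some_iff.1 hm
        exact hcon m a ha)
      exact h n _ (Bad.relation_inv z hz) hn }

theorem rperiodic_W (w : List C.Letter) (hw : 0 < w.length)
    (h : ∀ m, C.IsWord (power w m)) : (rperiodic w hw h).Reads (-1) w := by
  intro i hi
  change w[((-1 + 1 + (i : ℤ)) % (w.length : ℤ)).toNat]'_ = w[i]
  congr 1
  rw [show (-1 + 1 + (i : ℤ)) = i by ring, Int.emod_eq_of_lt (by omega) (by omega)]
  simp

theorem rperiodic_neg (w : List C.Letter) (hw : 0 < w.length)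
    (h : ∀ m, C.IsWord (power w m)) : (rperiodic w hw h).W (-1) = w[w.length - 1] := by
  change w[((-1 : ℤ) % (w.length : ℤ)).toNat]'_ = _
  congr 1
  have : (-1 : ℤ) % (w.length : ℤ) = w.length - 1 := by
    rw [show (-1 : ℤ) = (w.length - 1 : ℤ) - w.length by ring, Int.sub_emod_right]
    exact Int.emod_eq_of_lt (by omega) (by omega)
  rw [this]
  omega

/-- the data of two blocks `p ++ x :: s` and `p ++ y :: t` -/
structure Blocks (C : ClanData) where
  p : List C.Letter
  x : C.Letter
  y : C.Letter
  s : List C.Letter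
  t : List C.Letter
  ne : x ≠ y
  len : s.length = t.length
  word : ∀ q : List Bool, C.IsWord (q.flatMap fun b => cond b (p ++ y :: t) (p ++ x :: s))

namespace Blocks

variable (D : Blocks C)

/-- the two blocks -/
def blk (b : Bool) : List C.Letter := cond b (D.p ++ D.y :: D.t) (D.p ++ D.x :: D.s)

theorem blk_length (b : Bool) : (D.blk b).length = D.p.length + (D.s.length + 1) := by
  cases b <;> simp [blk, D.len]

theorem blk_pos (b : Bool) : 0 < (D.blk b).length := by
  rw [blk_length]; omega

/-- the words formed by the blocks -/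
def wd (q : List Bool) : List C.Letter := q.flatMap D.blk

theorem isWord_wd (q : List Bool) : C.IsWord (D.wd q) := D.word q

theorem wd_append (q q' : List Bool) : D.wd (q ++ q') = D.wd q ++ D.wd q' := by
  simp [wd]

/-- a letter which can be followed by both `x` and `y` -/
def Prev (z : C.Letter) : Prop := ¬ C.special (stop z) → linv z ≠ D.x ∧ linv z ≠ D.y

theorem prev_of {L : List C.Letter} {z : C.Letter} {R R' : List C.Letter}
    (h : C.IsWord (L ++ z :: D.x :: R)) (h' : C.IsWord (L ++ z :: D.y :: R')) : D.Prev z := by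
  intro hs
  constructor
  · intro he
    refine h [z, D.x] ?_ ⟨L, R, by simp⟩
    rw [← he]
    exact Bad.cancel z hs
  · intro he
    refine h' [z, D.y] ?_ ⟨L, R', by simp⟩
    rw [← he]
    exact Bad.cancel z hs

theorem prev_blk (b : Bool) (hp : D.p = []) :
    D.Prev ((D.blk b)[(D.blk b).length - 1]'(by have := D.blk_pos b; omega)) := by
  set L := D.blk b with hL
  have hpos : 0 < L.length := D.blk_pos b
  have h1 := D.isWord_wd [b, false]
  have h2 := D.isWord_wd [b, true]
  have e1 : D.wd [b, false] = L.take (L.length - 1) ++ L[L.length - 1] :: D.x :: D.s := by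
    have : D.wd [b, false] = L ++ D.x :: D.s := by
      simp only [wd, List.flatMap_cons, List.flatMap_nil, List.append_nil, ← hL]
      simp [blk, hp]
    rw [this]
    exact append_last _ _ (by omega)
  have e2 : D.wd [b, true] = L.take (L.length - 1) ++ L[L.length - 1] :: D.y :: D.t := by
    have : D.wd [b, true] = L ++ D.y :: D.t := by
      simp only [wd, List.flatMap_cons, List.flatMap_nil, List.append_nil, ← hL]
      simp [blk, hp]
    rw [this]
    exact append_last _ _ (by omega)
  rw [e1] at h1
  rw [e2] at h2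
  exact D.prev_of h1 h2

theorem prev_p (hp : 0 < D.p.length) : D.Prev (D.p[D.p.length - 1]) := by
  set L := D.p with hL
  have h1 := D.isWord_wd [false]
  have h2 := D.isWord_wd [true]
  have e1 : D.wd [false] = L.take (L.length - 1) ++ L[L.length - 1] :: D.x :: D.s := by
    have : D.wd [false] = L ++ D.x :: D.s := by
      simp [wd, blk, ← hL]
    rw [this]
    exact append_last _ _ (by omega)
  have e2 : D.wd [true] = L.take (L.length - 1) ++ L[L.length - 1] :: D.y :: D.t := by
    have : D.wd [true] = L ++ D.y :: D.t := by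
      simp [wd, blk, ← hL]
    rw [this]
    exact append_last _ _ (by omega)
  rw [e1] at h1
  rw [e2] at h2
  exact D.prev_of h1 h2

variable {k : Type u} [Field k]

/-- the operators of the two blocks; `c` says whether `x` is inverse -/
noncomputable def opB (c b : Bool) (F : PPLat (C.Alg k)) : PPLat (C.Alg k) :=
  C.opsL (-1 : k) D.p (cond b
    (cond c (C.opsL (-1 : k) (D.x :: D.s) ⊤ ⊔ C.opsL (-1 : k) (D.y :: D.t) F)
      (C.opsL (-1 : k) (D.y :: D.t) F))
    (cond c (C.opsL (-1 : k) (D.x :: D.s) F)
      (C.opsL (-1 : k) (D.x :: D.s) F ⊓ C.opsL (-1 : k) (D.y :: D.t) ⊥)))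

theorem opB_mono (c b : Bool) {F G : PPLat (C.Alg k)} (h : F ≤ G) :
    D.opB c b F ≤ D.opB c b G := by
  apply C.opsL_mono
  cases b <;> cases c
  · exact inf_le_inf (C.opsL_mono _ _ h) le_rfl
  · exact C.opsL_mono _ _ h
  · exact C.opsL_mono _ _ h
  · exact sup_le_sup le_rfl (C.opsL_mono _ _ h)

theorem opB_sep (c : Bool) : D.opB c false (⊤ : PPLat (C.Alg k)) ≤ D.opB c true ⊥ := by
  apply C.opsL_mono
  cases c
  · exact inf_le_right
  · exact le_sup_left

/-- the operator of a list of blocks -/
noncomputable def opT (c : Bool) (q : List Bool) (F : PPLat (C.Alg k)) : PPLat (C.Alg k) :=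
  q.foldr (D.opB c) F

theorem opT_mono (c : Bool) (q : List Bool) {F G : PPLat (C.Alg k)} (h : F ≤ G) :
    D.opT c q F ≤ D.opT c q G := by
  induction q with
  | nil => exact h
  | cons l q ih => exact D.opB_mono c l ih

theorem opT_append (c : Bool) (q q' : List Bool) (F : PPLat (C.Alg k)) :
    D.opT c (q ++ q') F = D.opT c q (D.opT c q' F) := by
  simp [opT]

end Blocks

namespace RWord

variable (B : RWord C) {k : Type u} [Field k] (D : Blocks C)

theorem Mem_mono {hk : (2 : k) ≠ 0 ∨ ∀ v, ¬ C.special v} {F G : PPLat (C.Alg k)} (h : F ≤ G)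
    {f : Sp k} (hf : B.Mem hk F f) : B.Mem hk G f := h (B.MM hk) hf

/-- the previous letter of a read list -/
theorem Reads.last {j : ℤ} {L : List C.Letter} (h : B.Reads j L) (hL : 0 < L.length) :
    B.W (j + L.length) = L[L.length - 1] := by
  have := h (L.length - 1) (by omega)
  rw [← this]
  congr 1
  omega

/-- the condition at the branching junction of a block -/
theorem prev_junction {j : ℤ} {b : Bool} (h : B.Reads j (D.blk b))
    (hj : D.p = [] → D.Prev (B.W j)) : D.Prev (B.W (j + D.p.length)) := by
  rcases Nat.eq_zero_or_pos D.p.length with h0 | h0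
  · have hp : D.p = [] := List.length_eq_zero_iff.1 h0
    rw [h0]
    simpa using hj hp
  · have h1 : B.Reads j D.p := by
      cases b
      · exact Reads.left B (w := D.p) (w' := D.x :: D.s) h
      · exact Reads.left B (w := D.p) (w' := D.y :: D.t) h
    rw [h1.last B h0]
    exact D.prev_p h0

theorem coeff_block {hk : (2 : k) ≠ 0 ∨ ∀ v, ¬ C.special v} {c b : Bool}
    (hc : c = true → D.x.2 = false)
    {F : PPLat (C.Alg k)} {f : Sp k} (hf : B.Mem hk (D.opB c b F) f) {j : ℤ}
    (h : B.Reads j (D.blk b)) (hj : D.p = [] → D.Prev (B.W j)) :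
    ∃ g : Sp k, B.Mem hk F g ∧ g (B.el true (j + (D.blk b).length)) = f (B.el true j) := by
  have hJ := B.prev_junction D h hj
  cases b
  · have h1 : B.Reads j D.p := Reads.left B (w := D.p) (w' := D.x :: D.s) h
    have h2 : B.Reads (j + D.p.length) (D.x :: D.s) :=
      Reads.right B (w := D.p) (w' := D.x :: D.s) h
    obtain ⟨g, hg, e⟩ := B.coeff_list D.p hf h1
    have hg' : B.Mem hk (C.opsL (-1 : k) (D.x :: D.s) F) g := by
      cases c
      · exact (mem_inf'.1 hg).1
      · exact hg
    obtain ⟨g', hg'', e'⟩ := B.coeff_list (D.x :: D.s) hg' h2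
    refine ⟨g', hg'', ?_⟩
    rw [← e, ← e']
    congr 2
    rw [D.blk_length]
    push_cast
    simp
    ring
  · have h1 : B.Reads j D.p := Reads.left B (w := D.p) (w' := D.y :: D.t) h
    have h2 : B.Reads (j + D.p.length) (D.y :: D.t) :=
      Reads.right B (w := D.p) (w' := D.y :: D.t) h
    obtain ⟨g, hg, e⟩ := B.coeff_list D.p hf h1
    have hg' : ∃ g' : Sp k, B.Mem hk (C.opsL (-1 : k) (D.y :: D.t) F) g' ∧
        g' (B.el true (j + D.p.length)) = g (B.el true (j + D.p.length)) := by
      cases c
      · exact ⟨g, hg, rfl⟩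
      · obtain ⟨g1, hg1, g2, hg2, rfl⟩ := mem_sup'.1 hg
        refine ⟨g2, hg2, ?_⟩
        have h0 : (g1 : Sp k) (B.el true (j + D.p.length)) = 0 := by
          have hx : D.x = (D.x.1, false) := by rw [← hc rfl]
          have hg1' : B.Mem hk (C.opL (-1 : k) (D.x.1, false) (C.opsL (-1 : k) D.s ⊤)) g1 := by
            rw [← hx]; exact hg1
          refine B.coeff_zero hg1' ?_ ?_
          · rw [h2.head B, ← hx]
            exact D.ne.symm
          · intro hs
            rw [← hx]
            exact (hJ hs).1
        change (g2 : Sp k) _ = (g1 : Sp k) _ + (g2 : Sp k) _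
        rw [h0, zero_add]
    obtain ⟨g', hg', e0⟩ := hg'
    obtain ⟨g'', hg'', e'⟩ := B.coeff_list (D.y :: D.t) hg' h2
    refine ⟨g'', hg'', ?_⟩
    rw [← e, ← e0, ← e']
    congr 2
    rw [D.blk_length, D.len]
    push_cast
    simp
    ring

theorem dl_block {hk : (2 : k) ≠ 0 ∨ ∀ v, ¬ C.special v} {c b : Bool}
    (hc : c = false → D.y.2 = true)
    {F : PPLat (C.Alg k)} {j : ℤ} (hF : B.Mem hk F (dl (B.el true (j + (D.blk b).length))))
    (h : B.Reads j (D.blk b)) (hj : D.p = [] → D.Prev (B.W j)) :
    B.Mem hk (D.opB c b F) (dl (B.el true j)) := by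
  have hJ := B.prev_junction D h hj
  cases b
  · have h1 : B.Reads j D.p := Reads.left B (w := D.p) (w' := D.x :: D.s) h
    have h2 : B.Reads (j + D.p.length) (D.x :: D.s) :=
      Reads.right B (w := D.p) (w' := D.x :: D.s) h
    apply B.dl_list D.p h1
    have h3 : B.Mem hk (C.opsL (-1 : k) (D.x :: D.s) F) (dl (B.el true (j + D.p.length))) := by
      apply B.dl_list _ h2
      rw [D.blk_length] at hF
      rw [show j + (D.p.length : ℤ) + ((D.x :: D.s).length : ℤ) =
        j + ((D.p.length + (D.s.length + 1) : ℕ) : ℤ) by push_cast; simp; ring]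
      exact hF
    cases c
    · refine mem_inf'.2 ⟨h3, ?_⟩
      have hy : D.y = (D.y.1, true) := by rw [← hc rfl]
      change B.Mem hk (C.opL (-1 : k) D.y (C.opsL (-1 : k) D.t ⊥)) (dl (B.el true (j + D.p.length)))
      rw [hy]
      apply B.dl_kill
      · rw [h2.head B, ← hy]
        exact D.ne
      · intro hs
        rw [← hy]
        exact (hJ hs).2
    · exact h3
  · have h1 : B.Reads j D.p := Reads.left B (w := D.p) (w' := D.y :: D.t) h
    have h2 : B.Reads (j + D.p.length) (D.y :: D.t) :=
      Reads.right B (w := D.p) (w' := D.y :: D.t) h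
    apply B.dl_list D.p h1
    have h3 : B.Mem hk (C.opsL (-1 : k) (D.y :: D.t) F) (dl (B.el true (j + D.p.length))) := by
      apply B.dl_list _ h2
      rw [D.blk_length] at hF
      rw [show j + (D.p.length : ℤ) + ((D.y :: D.t).length : ℤ) =
        j + ((D.p.length + (D.s.length + 1) : ℕ) : ℤ) by rw [D.len]; push_cast; simp; ring]
      exact hF
    cases c
    · exact h3
    · exact B.Mem_mono le_sup_right h3

/-- the letter before the end of a block -/
theorem prev_next {j : ℤ} {b : Bool} (h : B.Reads j (D.blk b)) (hp : D.p = []) :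
    D.Prev (B.W (j + (D.blk b).length)) := by
  rw [h.last B (D.blk_pos b)]
  exact D.prev_blk b hp

theorem coeff_tree {hk : (2 : k) ≠ 0 ∨ ∀ v, ¬ C.special v} {c : Bool}
    (hc : c = true → D.x.2 = false) : ∀ (q : List Bool)
    {F : PPLat (C.Alg k)} {f : Sp k} (_ : B.Mem hk (D.opT c q F) f) {j : ℤ}
    (_ : B.Reads j (D.wd q)) (_ : D.p = [] → D.Prev (B.W j)),
    ∃ g : Sp k, B.Mem hk F g ∧ g (B.el true (j + (D.wd q).length)) = f (B.el true j) := by
  intro q
  induction q with
  | nil =>
    intro F f hf j _ _
    exact ⟨f, hf, by simp [Blocks.wd]⟩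
  | cons b q ih =>
    intro F f hf j h hj
    have e0 : D.wd (b :: q) = D.blk b ++ D.wd q := by simp [Blocks.wd]
    rw [e0] at h
    have h1 : B.Reads j (D.blk b) := h.left B
    obtain ⟨g, hg, e⟩ := B.coeff_block D hc (F := D.opT c q F) hf h1 hj
    obtain ⟨g', hg', e'⟩ := ih hg (h.right B) (B.prev_next D h1)
    refine ⟨g', hg', ?_⟩
    rw [← e, ← e', e0]
    congr 2
    simp
    ring

theorem dl_tree {hk : (2 : k) ≠ 0 ∨ ∀ v, ¬ C.special v} {c : Bool}
    (hc : c = false → D.y.2 = true) : ∀ (q : List Bool)
    {F : PPLat (C.Alg k)} {j : ℤ} (_ : B.Mem hk F (dl (B.el true (j + (D.wd q).length))))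
    (_ : B.Reads j (D.wd q)) (_ : D.p = [] → D.Prev (B.W j)),
    B.Mem hk (D.opT c q F) (dl (B.el true j)) := by
  intro q
  induction q with
  | nil =>
    intro F j hF _ _
    change B.Mem hk F (dl (B.el true j))
    simpa [Blocks.wd] using hF
  | cons b q ih =>
    intro F j hF h hj
    have e0 : D.wd (b :: q) = D.blk b ++ D.wd q := by simp [Blocks.wd]
    rw [e0] at h hF
    have h1 : B.Reads j (D.blk b) := h.left B
    refine B.dl_block D hc (F := D.opT c q F) ?_ h1 hj
    refine ih ?_ (h.right B) (B.prev_next D h1)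
    rw [show j + ((D.blk b).length : ℤ) + ((D.wd q).length : ℤ) =
      j + ((D.blk b ++ D.wd q).length : ℤ) by simp; ring]
    exact hF

end RWord

namespace Blocks

variable {k : Type u} [Field k] (D : Blocks C)

theorem power_wd (q : List Bool) (m : ℕ) : power (D.wd q) m = D.wd (power q m) := by
  induction m with
  | zero => rfl
  | succ m ih => rw [power_succ, power_succ, wd_append, ih]

theorem wd_last {q : List Bool} {b : Bool} (hw : 0 < (D.wd (q ++ [b])).length) (hp : D.p = []) :
    D.Prev ((D.wd (q ++ [b]))[(D.wd (q ++ [b])).length - 1]'(by omega)) := by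
  have e : D.wd (q ++ [b]) = D.wd q ++ D.blk b := by simp [wd]
  have h1 := D.prev_blk b hp
  have h2 := D.blk_pos b
  have h3 : (D.wd (q ++ [b]))[(D.wd (q ++ [b])).length - 1]'(by omega) =
      (D.blk b)[(D.blk b).length - 1]'(by omega) := by
    simp only [e]
    rw [List.getElem_append_right (by simp; omega)]
    congr 1
    simp
    omega
  rw [h3]
  exact h1

theorem nondeg {c : Bool} (hk : (2 : k) ≠ 0 ∨ ∀ v, ¬ C.special v)
    (hc : c = true → D.x.2 = false) (hc' : c = false → D.y.2 = true) {q : List Bool}
    (hq : q ≠ []) : D.opT c q (⊥ : PPLat (C.Alg k)) < D.opT c q ⊤ := by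
  obtain ⟨q', b, rfl⟩ : ∃ q' b, q = q' ++ [b] := by
    rcases List.eq_nil_or_concat q with h0 | ⟨q', b, h0⟩
    · exact absurd h0 hq
    · exact ⟨q', b, by rw [h0, List.concat_eq_append]⟩
  have hw : 0 < (D.wd (q' ++ [b])).length := by
    have := D.blk_pos b
    simp [wd]
    omega
  have hpow : ∀ m, C.IsWord (power (D.wd (q' ++ [b])) m) := by
    intro m
    rw [power_wd]
    exact D.isWord_wd _
  set B := rperiodic (D.wd (q' ++ [b])) hw hpow with hB
  have hreads : B.Reads (-1) (D.wd (q' ++ [b])) := rperiodic_W _ hw hpow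
  have hprev : D.p = [] → D.Prev (B.W (-1)) := by
    intro hp
    rw [hB, rperiodic_neg]
    exact D.wd_last hw hp
  refine lt_of_le_not_ge (D.opT_mono c _ bot_le) ?_
  intro hle
  have h1 : B.Mem hk (D.opT c (q' ++ [b]) ⊤) (dl (B.el true (-1))) :=
    B.dl_tree D hc' _ (AddSubgroup.mem_top _) hreads hprev
  have h2 : B.Mem hk (D.opT c (q' ++ [b]) ⊥) (dl (B.el true (-1))) := B.Mem_mono hle h1
  obtain ⟨g, hg, e⟩ := B.coeff_tree D hc _ h2 hreads hprev
  have h3 : g = 0 := hg
  rw [h3, dl_self] at e
  exact zero_ne_one e

theorem hasTree (hk : (2 : k) ≠ 0 ∨ ∀ v, ¬ C.special v) {c : Bool}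
    (hc : c = true → D.x.2 = false) (hc' : c = false → D.y.2 = true) : HasTree (C.Alg k) := by
  refine ⟨fun q => D.opT c q ⊥, fun q => D.opT c q ⊤, ?_, ?_, ?_, ?_⟩
  · intro q
    by_cases hq : q = []
    · subst hq
      change (⊥ : PPLat (C.Alg k)) < ⊤
      exact lt_of_le_of_lt bot_le
        (lt_of_lt_of_le (D.nondeg hk hc hc' (q := [true]) (by simp)) le_top)
    · exact D.nondeg hk hc hc' hq
  · intro q
    simp only [opT_append]
    exact D.opT_mono c _ bot_le
  · intro q
    simp only [opT_append]
    exact D.opT_mono c _ (D.opB_sep c)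
  · intro q
    simp only [opT_append]
    exact D.opT_mono c _ le_top

end Blocks

/-- zero-relation algebras with a free pair of words -/
theorem hasTree_mono_of_pair {k : Type u} [Field k] (hk : (2 : k) ≠ 0 ∨ ∀ v, ¬ C.special v)
    {u v : List C.Letter} (huv : u ++ v ≠ v ++ u)
    (h : ∀ x : List Bool, C.IsWord (x.flatMap fun b => cond b u v)) :
    HasTree (C.Alg k) := by
  -- two different words of the same length
  obtain ⟨α, β, hlen, hne, hword⟩ : ∃ α β : List C.Letter, α.length = β.length ∧ α ≠ β ∧
      ∀ x : List Bool, C.IsWord (x.flatMap fun b => cond b α β) := by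
    refine ⟨u ++ v, v ++ u, by simp [add_comm], huv, fun x => ?_⟩
    have e : (x.flatMap fun b => cond b (u ++ v) (v ++ u)) =
        ((x.flatMap fun b => cond b [true, false] [false, true]).flatMap fun b => cond b u v) := by
      induction x with
      | nil => rfl
      | cons b x ih =>
        simp only [List.flatMap_cons, List.flatMap_append, ih]
        cases b <;> simp
    rw [e]
    exact h _
  -- the first difference
  obtain ⟨p, x, y, s, t, hα, hβ, hxy⟩ : ∃ (p : List C.Letter) (x y : C.Letter)
      (s t : List C.Letter), α = p ++ x :: s ∧ β = p ++ y :: t ∧ x ≠ y := by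
    clear hword huv h
    induction α generalizing β with
    | nil =>
      exfalso
      apply hne
      symm
      exact List.length_eq_zero_iff.1 hlen.symm
    | cons a α ih =>
      cases β with
      | nil => simp at hlen
      | cons b β =>
        by_cases hab : a = b
        · subst hab
          obtain ⟨p, x, y, s, t, h1, h2, h3⟩ := ih β (by simpa using hlen)
            (fun h => hne (by rw [h]))
          exact ⟨a :: p, x, y, s, t, by rw [h1]; rfl, by rw [h2]; rfl, h3⟩
        · exact ⟨[], a, b, α, β, rfl, rfl, hab⟩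
  have hst : s.length = t.length := by
    rw [hα, hβ] at hlen
    simpa using hlen
  have hw2 : ∀ q : List Bool, C.IsWord (q.flatMap fun b => cond b β α) := by
    intro q
    have := hword (q.map not)
    rw [List.flatMap_map] at this
    convert this using 3
    rename_i b
    cases b <;> rfl
  by_cases hx : x.2 = false
  · let D : Blocks C := ⟨p, x, y, s, t, hxy, hst, by rw [← hα, ← hβ]; exact hw2⟩
    exact D.hasTree hk (c := true) (fun _ => hx) (fun h => by simp at h)
  · by_cases hy : y.2 = false
    · let D : Blocks C := ⟨p, y, x, t, s, hxy.symm, hst.symm, by rw [← hα, ← hβ]; exact hword⟩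
      exact D.hasTree hk (c := true) (fun _ => hy) (fun h => by simp at h)
    · let D : Blocks C := ⟨p, x, y, s, t, hxy, hst, by rw [← hα, ← hβ]; exact hw2⟩
      exact D.hasTree hk (c := false) (fun h => by simp at h) (fun _ => by simpa using hy)

/-- zero-relation algebras with infinitely many bands -/
theorem hasTree_mono_of_bands {k : Type u} [Field k] (hk : (2 : k) ≠ 0 ∨ ∀ v, ¬ C.special v)
    (hZ : C.Z.Finite) (hB : {w | C.IsBand w}.Infinite) : HasTree (C.Alg k) := by
  obtain ⟨N, hN⟩ : ∃ N, ∀ z ∈ C.Z, z.length ≤ N := by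
    obtain ⟨N, hN⟩ := (hZ.image List.length).bddAbove
    exact ⟨N, fun z hz => hN ⟨z, hz, rfl⟩⟩
  have hbad : ∀ l ∈ {l | C.Bad l}, l.length ≤ N + 2 := by
    intro l hl
    cases hl with
    | not_composable x y _ => simp
    | cancel x _ => simp
    | relation z hz => simp; have := hN z hz; omega
    | relation_inv z hz => simp; have := hN z hz; omega
  obtain ⟨u, v, huv, h⟩ := exists_free_pair {l | C.Bad l} (N + 2) hbad hB
  exact hasTree_mono_of_pair hk huv h

end ClanData

end Run7.h475
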